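import Mathlib

/-!
# JOB Act: the action of matrices on arrays

`z : (Fin r → Fin h) → R` is an array. `actM A` is the matrix with `(actM A z) I = ∑ u, ∑ m, A m (I u) * z (update I u m)`.
* `actM_mulVec`: `J = update I u (J u)` means `J v = I v` for `v ≠ u`; for fixed `u` these `J` are the `update I u m`, `m = J u` (reindex the sum: `Finset.sum_ite`, `Finset.sum_bij` or `Function.update_eq_iff`).
* `actM_comm`: compare `mulVec` with an arbitrary `z` (`Matrix.ext` from `mulVec` on `Pi.single`, `Matrix.mulVec_single`): `(actM A (actM B z)) I = ∑ u, ∑ m, A m (I u) * ∑ v, ∑ n, B n ((update I u m) v) * z (update (update I u m) v n)`; the terms with `v ≠ u` are symmetric in `(A, u, m)`, `(B, v, n)` (`Function.update_comm`) and cancel in the commutator; for `v = u`: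
  `∑ m, ∑ n, A m (I u) * B n m * z (update I u n) = ∑ n, (B * A) n (I u) * z (update I u n)` (`Function.update_idem`, `Function.update_self`).
* `actM_map`, `actM_add`, `actM_apply_map`: entries.
* `actM_sq`: `A m k = a m * l k`, `∑ l k * a k = 0`. As above: terms with `v = u`: `∑ m, a m * l m = 0`. Terms `v ≠ u`: `l (I u) * l (I v) * ∑ m n, a m * a n * z (update (update I u m) v n)` and the last sum `S` satisfies `S = - S` (exchange `m`, `n`: `update (update I u n) v m = (update (update I u m) v n) ∘ swap u v`, `hz`), so `2 S = 0`, `S = 0`.
-/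

set_option autoImplicit false

namespace MPadcBN

variable {R : Type*} [CommRing R] {h r : ℕ}

/-- The action of a matrix on arrays. -/
def actM (r : ℕ) (A : Matrix (Fin h) (Fin h) R) : Matrix (Fin r → Fin h) (Fin r → Fin h) R :=
  Matrix.of fun I J => ∑ u, if J = Function.update I u (J u) then A (J u) (I u) else 0

theorem actM_mulVec (A : Matrix (Fin h) (Fin h) R) (z : (Fin r → Fin h) → R)
    (I : Fin r → Fin h) : (actM r A).mulVec z I = ∑ u, ∑ m, A m (I u) * z (Function.update I u m) := by
  have h1 : ∀ u : Fin r, ∑ m, A m (I u) * z (Function.update I u m) =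
      ∑ J : Fin r → Fin h, (if J = Function.update I u (J u) then A (J u) (I u) else 0) * z J := by
    intro u
    have h2 : ∀ m, A m (I u) * z (Function.update I u m) =
        ∑ J : Fin r → Fin h, if J = Function.update I u m then A (J u) (I u) * z J else 0 := by
      intro m
      rw [Finset.sum_ite_eq' Finset.univ (Function.update I u m) (fun J => A (J u) (I u) * z J),
        if_pos (Finset.mem_univ _), Function.update_self]
    rw [Finset.sum_congr rfl fun m _ => h2 m, Finset.sum_comm]
    refine Finset.sum_congr rfl fun J _ => ?_
    rw [Finset.sum_eq_single (J u)]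
    · split_ifs
      · rfl
      · rw [zero_mul]
    · intro m _ hm
      rw [if_neg]
      intro hJ
      apply hm
      rw [hJ, Function.update_self]
    · intro hJ
      exact absurd (Finset.mem_univ _) hJ
  rw [Finset.sum_congr rfl fun u _ => h1 u, Finset.sum_comm]
  have h3 : (actM r A).mulVec z I = ∑ J, actM r A I J * z J := rfl
  rw [h3]
  refine Finset.sum_congr rfl fun J _ => ?_
  unfold actM
  rw [Matrix.of_apply, Finset.sum_mul]

private theorem act_split {ι M : Type*} [Fintype ι] [DecidableEq ι] [AddCommGroup M] (X : ι → M)
    (u : ι) : ∑ v, X v = X u + ∑ v, if u = v then 0 else X v := by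
  have h1 : ∀ v, X v = (if u = v then X v else 0) + if u = v then 0 else X v := by
    intro v
    split_ifs
    · rw [add_zero]
    · rw [zero_add]
  rw [Finset.sum_congr rfl fun v _ => h1 v, Finset.sum_add_distrib, Finset.sum_ite_eq,
    if_pos (Finset.mem_univ u)]

private theorem act_double (A B : Matrix (Fin h) (Fin h) R) (z : (Fin r → Fin h) → R)
    (I : Fin r → Fin h) : (actM r A).mulVec ((actM r B).mulVec z) I =
      (∑ u, ∑ n, (B * A) n (I u) * z (Function.update I u n)) +
      ∑ u, ∑ v, if u = v then 0 else ∑ m, ∑ n, A m (I u) * B n (I v) *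
        z (Function.update (Function.update I u m) v n) := by
  rw [actM_mulVec, ← Finset.sum_add_distrib]
  refine Finset.sum_congr rfl fun u _ => ?_
  have h1 : ∀ m, A m (I u) * (actM r B).mulVec z (Function.update I u m) =
      (∑ n, B n m * A m (I u) * z (Function.update I u n)) +
      ∑ v, if u = v then 0 else ∑ n, A m (I u) * B n (I v) *
        z (Function.update (Function.update I u m) v n) := by
    intro m
    rw [actM_mulVec, act_split _ u, mul_add, Finset.mul_sum, Finset.mul_sum]
    congr 1
    · refine Finset.sum_congr rfl fun n _ => ?_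
      rw [Function.update_self, Function.update_idem]
      ring
    · refine Finset.sum_congr rfl fun v _ => ?_
      split_ifs with h2
      · rw [mul_zero]
      · rw [Finset.mul_sum]
        refine Finset.sum_congr rfl fun n _ => ?_
        rw [Function.update_of_ne (Ne.symm h2)]
        ring
  rw [Finset.sum_congr rfl fun m _ => h1 m, Finset.sum_add_distrib]
  congr 1
  · rw [Finset.sum_comm]
    refine Finset.sum_congr rfl fun n _ => ?_
    rw [Matrix.mul_apply, Finset.sum_mul]
  · rw [Finset.sum_comm]
    refine Finset.sum_congr rfl fun v _ => ?_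
    split_ifs with h2
    · exact Finset.sum_const_zero
    · rfl

theorem actM_comm (A B : Matrix (Fin h) (Fin h) R) :
    actM r A * actM r B - actM r B * actM r A = actM r (B * A - A * B) := by
  apply Matrix.toLin'.injective
  apply LinearMap.ext
  intro z
  funext I
  rw [Matrix.toLin'_apply, Matrix.toLin'_apply, Matrix.sub_mulVec, ← Matrix.mulVec_mulVec,
    ← Matrix.mulVec_mulVec, Pi.sub_apply, act_double, act_double, actM_mulVec]
  have h1 : (∑ u, ∑ v, if u = v then 0 else ∑ m, ∑ n, A m (I u) * B n (I v) *
        z (Function.update (Function.update I u m) v n)) =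
      ∑ u, ∑ v, if u = v then 0 else ∑ m, ∑ n, B m (I u) * A n (I v) *
        z (Function.update (Function.update I u m) v n) := by
    rw [Finset.sum_comm]
    refine Finset.sum_congr rfl fun v _ => Finset.sum_congr rfl fun u _ => ?_
    by_cases huv : u = v
    · rw [if_pos huv, if_pos huv.symm]
    · rw [if_neg huv, if_neg (Ne.symm huv), Finset.sum_comm]
      refine Finset.sum_congr rfl fun n _ => Finset.sum_congr rfl fun m _ => ?_
      rw [Function.update_comm huv]
      ring
  rw [h1, add_sub_add_right_eq_sub, ← Finset.sum_sub_distrib]
  refine Finset.sum_congr rfl fun u _ => ?_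
  rw [← Finset.sum_sub_distrib]
  refine Finset.sum_congr rfl fun n _ => ?_
  rw [Matrix.sub_apply]
  ring

theorem actM_map {R' : Type*} [CommRing R'] (f : R →+* R') (A : Matrix (Fin h) (Fin h) R) :
    (actM r A).map f = actM r (A.map f) := by
  ext I J
  unfold actM
  rw [Matrix.map_apply, Matrix.of_apply, Matrix.of_apply, map_sum]
  refine Finset.sum_congr rfl fun u _ => ?_
  rw [apply_ite f, map_zero, Matrix.map_apply]

theorem actM_addHom (D : R →+ R) (A : Matrix (Fin h) (Fin h) R) (I J : Fin r → Fin h) :
    D (actM r A I J) = actM r (Matrix.of fun i k => D (A i k)) I J := by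
  unfold actM
  rw [Matrix.of_apply, Matrix.of_apply, map_sum]
  refine Finset.sum_congr rfl fun u _ => ?_
  rw [apply_ite D, map_zero, Matrix.of_apply]

theorem actM_add (A B : Matrix (Fin h) (Fin h) R) : actM r (A + B) = actM r A + actM r B := by
  ext I J
  unfold actM
  rw [Matrix.add_apply, Matrix.of_apply, Matrix.of_apply, Matrix.of_apply, ← Finset.sum_add_distrib]
  refine Finset.sum_congr rfl fun u _ => ?_
  split_ifs
  · rw [Matrix.add_apply]
  · rw [add_zero]

theorem actM_smul (c : R) (A : Matrix (Fin h) (Fin h) R) : actM r (c • A) = c • actM r A := by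
  ext I J
  unfold actM
  rw [Matrix.smul_apply, Matrix.of_apply, Matrix.of_apply, Finset.smul_sum]
  refine Finset.sum_congr rfl fun u _ => ?_
  split_ifs
  · rw [Matrix.smul_apply]
  · rw [smul_zero]

/-- Alternating arrays. -/
def AltA (z : (Fin r → Fin h) → R) : Prop :=
  ∀ I u v, u ≠ v → z (I ∘ Equiv.swap u v) = -z I

theorem actM_sq [IsDomain R] [CharZero R] (a l : Fin h → R) (hla : ∑ i, l i * a i = 0)
    (z : (Fin r → Fin h) → R) (hz : AltA z) :
    (actM r (Matrix.of fun i k => a i * l k)).mulVec
      ((actM r (Matrix.of fun i k => a i * l k)).mulVec z) = 0 := by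
  funext I
  rw [act_double, Pi.zero_apply]
  have h1 : ∀ n k, ((Matrix.of fun i k => a i * l k : Matrix (Fin h) (Fin h) R) *
      (Matrix.of fun i k => a i * l k : Matrix (Fin h) (Fin h) R)) n k = 0 := by
    intro n k
    rw [Matrix.mul_apply]
    have h2 : ∀ m, (Matrix.of fun i k => a i * l k : Matrix (Fin h) (Fin h) R) n m *
        (Matrix.of fun i k => a i * l k : Matrix (Fin h) (Fin h) R) m k =
        a n * l k * (l m * a m) := by
      intro m
      rw [Matrix.of_apply, Matrix.of_apply]
      ring
    rw [Finset.sum_congr rfl fun m _ => h2 m, ← Finset.mul_sum, hla, mul_zero]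
  have h3 : ∀ u v : Fin r, u ≠ v → ∑ m, ∑ n, a m * a n *
      z (Function.update (Function.update I u m) v n) = 0 := by
    intro u v huv
    have h4 : ∑ m, ∑ n, a m * a n * z (Function.update (Function.update I u m) v n) =
        -∑ m, ∑ n, a m * a n * z (Function.update (Function.update I u m) v n) := by
      rw [← Finset.sum_neg_distrib]
      nth_rewrite 1 [Finset.sum_comm]
      refine Finset.sum_congr rfl fun n _ => ?_
      rw [← Finset.sum_neg_distrib]
      refine Finset.sum_congr rfl fun m _ => ?_
      have h5 : Function.update (Function.update I u m) v n =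
          Function.update (Function.update I u n) v m ∘ Equiv.swap u v := by
        funext w
        rw [Function.comp_apply]
        by_cases hw : w = u
        · rw [hw, Equiv.swap_apply_left, Function.update_self, Function.update_of_ne huv,
            Function.update_self]
        · by_cases hw2 : w = v
          · rw [hw2, Equiv.swap_apply_right, Function.update_self, Function.update_of_ne huv,
              Function.update_self]
          · rw [Equiv.swap_apply_of_ne_of_ne hw hw2, Function.update_of_ne hw2,
              Function.update_of_ne hw, Function.update_of_ne hw2, Function.update_of_ne hw]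
      rw [h5, hz _ u v huv]
      ring
    exact self_eq_neg.1 h4
  rw [Finset.sum_eq_zero (s := Finset.univ) (f := fun u => ∑ n, ((Matrix.of fun i k => a i * l k :
      Matrix (Fin h) (Fin h) R) * (Matrix.of fun i k => a i * l k : Matrix (Fin h) (Fin h) R)) n
        (I u) * z (Function.update I u n)), zero_add]
  · refine Finset.sum_eq_zero fun u _ => Finset.sum_eq_zero fun v _ => ?_
    split_ifs with huv
    · rfl
    · have h6 : ∑ m, ∑ n, (Matrix.of fun i k => a i * l k : Matrix (Fin h) (Fin h) R) m (I u) *
          (Matrix.of fun i k => a i * l k : Matrix (Fin h) (Fin h) R) n (I v) *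
          z (Function.update (Function.update I u m) v n) =
          l (I u) * l (I v) * ∑ m, ∑ n, a m * a n *
            z (Function.update (Function.update I u m) v n) := by
        rw [Finset.mul_sum]
        refine Finset.sum_congr rfl fun m _ => ?_
        rw [Finset.mul_sum]
        refine Finset.sum_congr rfl fun n _ => ?_
        rw [Matrix.of_apply, Matrix.of_apply]
        ring
      rw [h6, h3 u v huv, mul_zero]
  · intro u _
    refine Finset.sum_eq_zero fun n _ => ?_
    rw [h1, zero_mul]

end MPadcBN
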