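import Pool.Agent.Lib.MP_adc574_ag_BN.SpN
import Pool.Agent.Lib.MP_adc574_ag_BM.Defs
import Pool.Agent.Lib.MP_adc574_ag_LZ.FinZ

/-!
# Lefschetz pencils have big monodromy, odd number of variables (helper90)
-/

set_option autoImplicit false

namespace MPadcBN

open MvPolynomial MPadcLZ MPadcHM MPadcBM

universe u

section

variable {κ : Type u} [Field κ] [CharZero κ] {N : ℕ} (S : PDat κ N) {Mo : Type u}
  [AddCommGroup Mo] [Module (RatFunc κ) Mo] [Module (Polynomial κ) Mo]
  [IsScalarTower (Polynomial κ) (RatFunc κ) Mo] {nab : Mo →+ Mo}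
  {br : MvPolynomial (Fin N) (RatFunc κ) →ₗ[RatFunc κ] Mo}
  {B : Mo →ₗ[RatFunc κ] Mo →ₗ[RatFunc κ] RatFunc κ}
  {rho : MvPolynomial (Fin N) (RatFunc κ) →ₗ[RatFunc κ] RatFunc κ}
  {s r : ℕ} {g : Fin r → Mo} {w : Fin r → ℤ} {W : (Fin N →₀ ℕ) → ℕ}

/-- The module is not trivial. -/
theorem bl_pair (hS : S.Ok) (hP : IsPP S nab br B rho) :
    ∃ u v : Fin N →₀ ℕ, B (br (monomial u 1)) (br (monomial v 1)) ≠ 0 ∧
      B (br (monomial v 1)) (br (monomial u 1)) =
        (-1) ^ N * B (br (monomial u 1)) (br (monomial v 1)) := by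
  have hd := hS.hd
  have hN := hS.hN
  obtain ⟨m₀, hm₀, hm₁⟩ : ∃ m₀, m₀ < S.d ∧ S.d ∣ m₀ + N := by
    refine ⟨(S.d - N % S.d) % S.d, Nat.mod_lt _ (by omega), ?_⟩
    rw [Nat.dvd_iff_mod_eq_zero, Nat.add_mod, Nat.mod_mod, ← Nat.add_mod]
    have h1 := Nat.mod_lt N (show 0 < S.d by omega)
    have h2 : S.d - N % S.d + N = S.d * (1 + N / S.d) := by
      have h3 := Nat.div_add_mod N S.d
      rw [mul_add, mul_one]
      omega
    rw [h2, Nat.mul_mod_right]
  obtain ⟨u, v, hu, hv, hne⟩ := low_ne S hS hP m₀ hm₀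
  have hu1 : S.d ∣ dg u + N := by rw [hu]; exact hm₁
  have huv : dg u + dg v = N * (S.d - 2) := by rw [hu]; omega
  obtain ⟨a, ha⟩ := hu1
  have hsum : dg u + N + (dg v + N) = S.d * N := by
    obtain ⟨d', hd'⟩ : ∃ d', S.d = d' + 2 := ⟨S.d - 2, by omega⟩
    rw [hd'] at huv ⊢
    rw [Nat.add_sub_cancel] at huv
    have h8 : (d' + 2) * N = N * d' + 2 * N := by ring
    rw [h8]
    omega
  have haN : a ≤ N := by
    have h1 : S.d * a ≤ S.d * N := by omega
    exact Nat.le_of_mul_le_mul_left h1 (by omega)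
  have hv1 : dg v + N = S.d * (N - a) := by
    rw [Nat.mul_sub]
    omega
  have h1 := hP.mid u v ⟨a, ha⟩ huv
  have h2 := hP.mid v u ⟨N - a, hv1⟩ (by omega)
  have ha' : (dg u + N) / S.d = a := by rw [ha, Nat.mul_div_cancel_left _ (by omega)]
  have hb' : (dg v + N) / S.d = N - a := by rw [hv1, Nat.mul_div_cancel_left _ (by omega)]
  refine ⟨u, v, ?_, ?_⟩
  · rw [h1]
    exact mul_ne_zero (pow_ne_zero _ (neg_ne_zero.2 one_ne_zero)) hne
  · rw [h1, h2, ha', hb', add_comm v u, ← mul_assoc, ← pow_add]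
    congr 1
    have h3 : N + (a + 1) = (N - a + 1) + 2 * a := by omega
    have h4 : ((-1 : RatFunc κ)) ^ (2 * a) = 1 := by rw [pow_mul, neg_one_sq, one_pow]
    rw [h3, pow_add _ (N - a + 1) (2 * a), h4, mul_one]

theorem bl_sign [IsAlgClosed κ] (hS : S.Ok) (hG : IsHG S nab br) (hP : IsPP S nab br B rho)
    (hI : InfW S nab br s r g w W) (x y : Mo) : B y x = (-1) ^ N * B x y := by
  classical
  have hfin := mo_fin S hS hG hP
  obtain ⟨u, v, hne, huv⟩ := bl_pair S hS hP
  have hnt : Nontrivial Mo := by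
    refine ⟨⟨br (monomial u 1), 0, fun h0 => hne ?_⟩⟩
    rw [h0, map_zero, LinearMap.zero_apply]
  -- the comparison endomorphism
  have hinj : Function.Injective B := by
    rw [← LinearMap.ker_eq_bot, LinearMap.ker_eq_bot']
    intro x hx
    exact nd_left S hS hG hP x fun y => by rw [hx, LinearMap.zero_apply]
  let Be : Mo ≃ₗ[RatFunc κ] (Mo →ₗ[RatFunc κ] RatFunc κ) :=
    LinearEquiv.ofInjectiveOfFinrankEq B hinj (Subspace.dual_finrank_eq).symm
  have hBe : ∀ x, Be x = B x := fun x => rfl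
  let e : Mo →ₗ[RatFunc κ] Mo := Be.symm.toLinearMap.comp B.flip
  have he : ∀ x y, B (e x) y = B y x := by
    intro x y
    have h1 : B (e x) = B.flip x := by
      rw [← hBe]
      exact Be.apply_symm_apply _
    rw [h1, LinearMap.flip_apply]
  have hfl : ∀ x, nab (e x) = e (nab x) := by
    intro x
    rw [← sub_eq_zero]
    apply nd_left S hS hG hP
    intro y
    have h1 := hP.flat (e x) y
    have h2 := hP.flat y x
    rw [map_sub, LinearMap.sub_apply, he (nab x) y]
    rw [he, he, h2] at h1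
    have h3 : B (nab (e x)) y = B (nab y) x + B y (nab x) - B (nab y) x := by
      rw [h1]
      ring
    rw [h3]
    ring
  obtain ⟨a, ha⟩ := schur (nab := nab) hG.leib (irr_pdat S hS hG hP hI) e hfl
  have hax : ∀ x y, B y x = algebraMap κ (RatFunc κ) a * B x y := by
    intro x y
    rw [← he x y, ha]
    change B (algebraMap κ (RatFunc κ) a • x) y = _
    rw [map_smul, LinearMap.smul_apply, smul_eq_mul]
  have h1 := hax (br (monomial u 1)) (br (monomial v 1))
  rw [huv] at h1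
  have h2 := mul_right_cancel₀ hne h1
  rw [hax x y, ← h2]

/-- The local data of the lattice at all points, for an alternating form. -/
theorem bl_loc (hS : S.Ok) (hG : IsHG S nab br) {k : ℕ} {E : Submodule (Polynomial κ) Mo} {u : Mo}
    {al : κ} (hK : Pk S nab br k E u al) (hP : IsPP S nab br B rho)
    (halt : ∀ x y, B y x = -B x y) {n : ℕ} (b : Module.Basis (Fin n) (RatFunc κ) Mo)
    (hb : LB E b) (τ : κ) :
    StabAt nab E τ ∨ ∃ L : Lc (Fin n) κ, LocN b nab τ L := by
  classical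
  rcases pk_tau S hS hK τ with h | ⟨h0, h1, hu, hst⟩
  · exact Or.inl h
  · right
    obtain ⟨Γ, a0, l0, hΓ, hres, ha0, hl0, htr⟩ := node_data hG.leib hb hK.ld h0 h1 hu hst
    obtain ⟨L, hL, hLΓ, -, hLl, hLα⟩ := exists_Lc Γ a0 l0 al (alOk_of hK.al1 hK.al2) htr ha0 hl0 hres
    have hΓL : ∀ i k, algebraMap (PowerSeries κ) (FractionRing (PowerSeries κ)) PowerSeries.X *
        jt τ (b.repr (nab (b k)) i) =
          algebraMap (PowerSeries κ) (FractionRing (PowerSeries κ)) (L.Γ i k) := by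
      rw [hLΓ]
      exact hΓ
    refine ⟨L, hL, ?_, hΓL⟩
    -- `α = 0` because the form is alternating
    rcases hL.al with h | ⟨w', hw⟩
    · exact h
    exfalso
    obtain ⟨DX, hDX⟩ := exists_DX κ
    have hdet : (Matrix.of fun i k => jt τ (B (b i) (b k))).det ≠ 0 := by
      have h1 : (Matrix.of fun i k => jt τ (B (b i) (b k))) =
          (jt τ).mapMatrix (Matrix.of fun i k => B (b i) (b k)) := by
        ext i k
        rfl
      rw [h1, ← RingHom.map_det, Ne, map_eq_zero_iff _ (jt τ).injective]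
      exact gram_det b B fun x hx => nd_left S hS hG hP x hx
    have hBD : ∀ i k, algebraMap (PowerSeries κ) (FractionRing (PowerSeries κ)) PowerSeries.X *
        DX ((Matrix.of fun i k => jt τ (B (b i) (b k))) i k) =
        (∑ m, algebraMap _ _ (L.Γ m i) * (Matrix.of fun i k => jt τ (B (b i) (b k))) m k) +
          ∑ m, (Matrix.of fun i k => jt τ (B (b i) (b k))) i m * algebraMap _ _ (L.Γ m k) := by
      intro i k
      have h1 : DX ((Matrix.of fun i k => jt τ (B (b i) (b k))) i k) =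
          jt τ (DK κ (B (b i) (b k))) := jt_DK hDX τ _
      rw [h1, coord_B b B hP.flat, map_add, map_sum, map_sum, mul_add, Finset.mul_sum,
        Finset.mul_sum]
      congr 1
      · refine Finset.sum_congr rfl fun m _ => ?_
        rw [map_mul, ← mul_assoc, hΓL]
        rfl
      · refine Finset.sum_congr rfl fun m _ => ?_
        rw [map_mul, mul_left_comm, hΓL]
        rfl
    obtain ⟨B1, c, hc, hB1⟩ := Lc.flat_Bw hL hDX w' hw _ hBD hdet
    obtain ⟨i, hi⟩ := hL.l0_ne
    have h2 := hB1 i i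
    have hBii : (Matrix.of fun i k => jt τ (B (b i) (b k))) i i = 0 := by
      change jt τ (B (b i) (b i)) = 0
      rw [self_eq_neg.1 (halt (b i) (b i)), map_zero]
    rw [hBii, mul_zero] at h2
    have h3 := IsFractionRing.injective (PowerSeries κ) (FractionRing (PowerSeries κ))
      (h2.symm.trans (map_zero _).symm)
    have h4 := congrArg PowerSeries.constantCoeff h3
    rw [map_add, map_mul, map_mul, map_mul, map_zero, map_pow, PowerSeries.constantCoeff_X,
      zero_pow (by omega), zero_mul, zero_add, PowerSeries.constantCoeff_C, hL.hl0] at h4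
    exact mul_ne_zero hc (mul_ne_zero hi hi) h4

end

section

variable {κ : Type u} [Field κ] [CharZero κ] [IsAlgClosed κ] {N : ℕ} (S : PDat κ N)

theorem big_pdat (hS : S.Ok) (hodd : Odd N)
    (hI : ∀ nab : PKm S.d S.FK →+ PKm S.d S.FK, IsHG S nab (brP S.d S.FK) →
      ∃ s r g w W, InfW S nab (brP S.d S.FK) s r g w W) : HasBigMonodromy S.d S.FK := by
  classical
  obtain ⟨nab, hG⟩ := exists_hg S hS
  obtain ⟨B, rho, hP⟩ := exists_pp S hS hG
  obtain ⟨s, r₀, g, w, W₀, hIW⟩ := hI nab hG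
  obtain ⟨k, E, u, al, hK⟩ := pk_exists S hS hG
  have hfin := mo_fin S hS hG hP
  obtain ⟨u₁, v₁, hne, -⟩ := bl_pair S hS hP
  have hnt : Nontrivial (PKm S.d S.FK) := by
    refine ⟨⟨brP S.d S.FK (monomial u₁ 1), 0, fun h0 => hne ?_⟩⟩
    rw [h0, map_zero, LinearMap.zero_apply]
  have hsign : ∀ x y, B y x = (-1) ^ N * B x y := bl_sign S hS hG hP hIW
  have halt : ∀ x y, B y x = -B x y := by
    intro x y
    rw [hsign, hodd.neg_one_pow, neg_one_mul]
  obtain ⟨n, b, hb⟩ := exists_LB hK.ld.fg hK.ld.spn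
  refine ⟨B, hsign, fun x hx => nd_left S hS hG hP x hx, ?_⟩
  intro r W hW g' hg' _
  refine isom_stab hG.leib hK.ld.fg hK.ld.spn b hb hIW.ok B hP.flat halt
    (fun x hx => nd_left S hS hG hP x hx) (irr_pdat S hS hG hP hIW)
    (bl_loc S hS hG hK hP halt b hb) W ?_ g' hg'
  intro ω hω
  obtain ⟨ω', hω', h⟩ := hW (DZ κ) ω hω
  refine ⟨ω', hω', fun v => ?_⟩
  choose P hPv using fun u => brP_surj S.d S.FK (v u)
  have h1 := h P
  have h2 : (fun u => brP S.d S.FK (P u)) = v := funext hPv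
  rw [h2] at h1
  rw [h1, DZ_apply]
  congr 1
  refine Finset.sum_congr rfl fun u _ => ?_
  rw [← hG.nab_br, hPv]

theorem infw_lef (hS : S.Ok) (hH : S.SmH) (nab : PKm S.d S.FK →+ PKm S.d S.FK)
    (hG : IsHG S nab (brP S.d S.FK)) : ∃ s r g w W, InfW S nab (brP S.d S.FK) s r g w W := by
  obtain ⟨r, g, w, hO, hV⟩ := inf_lef S hS hH hG
  have hd : 3 ≤ S.d := hS.hd
  have hN : 3 ≤ N := hS.hN
  refine ⟨1, r, g, w, fun e => (dg e + N) / S.d, hO, fun e he => hV e he, fun e he => ?_,
    fun u v hu huv _ => ?_⟩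
  · obtain ⟨c, hc⟩ := he
    rw [hc, Nat.mul_div_cancel_left _ (by omega)]
    rcases Nat.eq_zero_or_pos c with h | h
    · rw [h, mul_zero] at hc
      omega
    · exact h
  · obtain ⟨c, hc⟩ := hu
    have h1 : 1 ≤ c := by
      rcases Nat.eq_zero_or_pos c with h | h
      · rw [h, mul_zero] at hc
        omega
      · exact h
    have h3 : dg u + N + (dg v + N) = S.d * N := by
      obtain ⟨d', hd'⟩ : ∃ d', S.d = d' + 2 := ⟨S.d - 2, by omega⟩
      rw [hd'] at huv ⊢
      rw [Nat.add_sub_cancel] at huv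
      have h8 : (d' + 2) * N = N * d' + 2 * N := by ring
      rw [h8]
      omega
    have h4 : dg v + N = S.d * (N - c) := by
      rw [Nat.mul_sub]
      omega
    have h7 : 1 ≤ N - c := by
      rcases Nat.eq_zero_or_pos (N - c) with h | h
      · rw [h, mul_zero] at h4
        omega
      · exact h
    show 1 < (dg u + N) / S.d + (dg v + N) / S.d
    rw [hc, h4, Nat.mul_div_cancel_left _ (by omega), Nat.mul_div_cancel_left _ (by omega)]
    omega

end

/-- The generic member of a Lefschetz pencil in an odd number of variables has big monodromy. -/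
theorem big_lef {κ : Type u} [Field κ] [CharZero κ] [IsAlgClosed κ] {N d : ℕ} (hN : 3 ≤ N)
    (hodd : Odd N) (hd : 3 ≤ d) (G H : MvPolynomial (Fin N) κ) (hG : Hm d G) (hH : Hm d H)
    (hs : ∀ x, (∀ i, eval x (pderiv i H) = 0) → x = 0) (hL : IsLef G H) :
    HasBigMonodromy d (G.map (algebraMap κ (RatFunc κ)) -
      C RatFunc.X * H.map (algebraMap κ (RatFunc κ))) := by
  classical
  obtain ⟨M₀, hM₀⟩ := exists_jac H hs
  obtain ⟨S, hSd, hSG, hSH, hSM, hS⟩ := exists_pdat hN hd G H hG hH hL M₀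
  have hSm : S.SmH := by
    intro e he
    rw [hSH]
    exact hM₀ e (hSM.trans he)
  have h1 := big_pdat S hS hodd (infw_lef S hS hSm)
  have h2 : S.FK = G.map (algebraMap κ (RatFunc κ)) -
      C RatFunc.X * H.map (algebraMap κ (RatFunc κ)) := by
    rw [← hSG, ← hSH]
    exact fk_eq S
  rw [h2, hSd] at h1
  exact h1

end MPadcBN
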