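import Mathlib

/-!
# Horizontal Lie algebras with scalar commutant are associatively dense
-/

namespace MPadcBN

universe u

theorem tr_nab {K : Type u} [Field K] {Mo : Type u} [AddCommGroup Mo] [Module K Mo]
    [Module.Finite K Mo] (D : K → K) (hadd : ∀ a b, D (a + b) = D a + D b) (nab : Mo →+ Mo)
    (leib : ∀ (c : K) (x : Mo), nab (c • x) = D c • x + c • nab x)
    (X X' : Module.End K Mo) (h : ∀ x, X' x = nab (X x) - X (nab x)) :
    LinearMap.trace K Mo X' = D (LinearMap.trace K Mo X) := by
  classical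
  let b := Module.finBasis K Mo
  let D' : K →+ K := AddMonoidHom.mk' D hadd
  have hD' : ∀ a, D a = D' a := fun a => rfl
  rw [LinearMap.trace_eq_matrix_trace K b X', LinearMap.trace_eq_matrix_trace K b X,
    Matrix.trace, Matrix.trace, hD', map_sum]
  simp only [Matrix.diag_apply, LinearMap.toMatrix_apply]
  have hnab : ∀ y : Mo, ∀ j, b.repr (nab y) j =
      D' (b.repr y j) + ∑ i, b.repr y i * b.repr (nab (b i)) j := by
    intro y j
    conv_lhs => rw [← b.sum_repr y]
    rw [map_sum]
    have : ∀ i, nab (b.repr y i • b i) = D' (b.repr y i) • b i + b.repr y i • nab (b i) :=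
      fun i => leib _ _
    simp only [this]
    rw [Finset.sum_add_distrib, map_add, Finsupp.add_apply, b.repr_sum_self]
    simp only [map_sum, map_smul, Finsupp.coe_finsetSum, Finset.sum_apply, Finsupp.smul_apply,
      smul_eq_mul]
  have hX : ∀ y : Mo, ∀ j, b.repr (X y) j = ∑ i, b.repr y i * b.repr (X (b i)) j := by
    intro y j
    conv_lhs => rw [← b.sum_repr y]
    simp only [map_sum, map_smul, Finsupp.coe_finsetSum, Finset.sum_apply, Finsupp.smul_apply,
      smul_eq_mul]
  have e : ∀ j, b.repr (X' (b j)) j = D' (b.repr (X (b j)) j) +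
      (∑ i, b.repr (X (b j)) i * b.repr (nab (b i)) j -
        ∑ i, b.repr (nab (b j)) i * b.repr (X (b i)) j) := by
    intro j
    rw [h, map_sub, Finsupp.sub_apply, hnab, hX (nab (b j))]
    ring
  simp only [e]
  rw [Finset.sum_add_distrib, Finset.sum_sub_distrib]
  have sw : ∑ j, ∑ i, b.repr (X (b j)) i * b.repr (nab (b i)) j =
      ∑ j, ∑ i, b.repr (nab (b j)) i * b.repr (X (b i)) j := by
    rw [Finset.sum_comm]
    apply Finset.sum_congr rfl
    intro i _
    apply Finset.sum_congr rfl
    intro j _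
    ring
  rw [sw, sub_self, add_zero]

theorem no_fix {K : Type u} [Field K] [CharZero K] {Mo : Type u} [AddCommGroup Mo] [Module K Mo]
    [Module.Finite K Mo] (X : Module.End K Mo) (s : Mo) (hs : s ≠ 0) (hXs : X s = s)
    (htr : ∀ p : Polynomial K, LinearMap.trace K Mo (Polynomial.aeval X p * X) = 0) : False := by
  have hint : IsIntegral K X := Algebra.IsIntegral.isIntegral X
  have h0 : minpoly K X ≠ 0 := minpoly.ne_zero hint
  have hev : X.HasEigenvector 1 s := by
    rw [Module.End.hasEigenvector_iff]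
    refine ⟨?_, hs⟩
    rw [Module.End.mem_eigenspace_iff, hXs, one_smul]
  have hroot : (minpoly K X).IsRoot 1 :=
    Module.End.isRoot_of_hasEigenvalue (Module.End.hasEigenvalue_of_hasEigenvector hev)
  obtain ⟨n, hn, hnd⟩ :=
    Polynomial.exists_eq_pow_rootMultiplicity_mul_and_not_dvd (minpoly K X) h0 1
  set a := Polynomial.rootMultiplicity 1 (minpoly K X) with ha
  have hapos : 0 < a := (Polynomial.rootMultiplicity_pos h0).2 hroot
  have hprime : Prime (Polynomial.X - Polynomial.C (1 : K)) := Polynomial.prime_X_sub_C 1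
  have hcop : IsCoprime ((Polynomial.X - Polynomial.C (1 : K)) ^ a) (Polynomial.X * n) := by
    apply IsCoprime.pow_left
    rw [(Polynomial.irreducible_X_sub_C (1 : K)).coprime_iff_not_dvd]
    intro hd
    rcases hprime.dvd_or_dvd hd with h | h
    · rw [Polynomial.dvd_iff_isRoot] at h
      simp [Polynomial.IsRoot] at h
    · exact hnd h
  obtain ⟨u, w, huw⟩ := hcop
  set e := Polynomial.aeval X (w * (Polynomial.X * n)) with he
  have hidem : IsIdempotentElem e := by
    have : e - e * e = 0 := by
      have h1 : e - e * e = Polynomial.aeval X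
          ((w * (Polynomial.X * n)) * (1 - w * (Polynomial.X * n))) := by
        rw [map_mul, map_sub, map_one, ← he]; noncomm_ring
      rw [h1]
      have h2 : (1 : Polynomial K) - w * (Polynomial.X * n) =
          u * (Polynomial.X - Polynomial.C (1 : K)) ^ a := by
        rw [← huw]; ring
      rw [h2]
      have h3 : (w * (Polynomial.X * n)) * (u * (Polynomial.X - Polynomial.C (1 : K)) ^ a) =
          (w * Polynomial.X * u) * minpoly K X := by
        conv_rhs => rw [hn]
        ring
      rw [h3, map_mul, minpoly.aeval, mul_zero]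
    exact (sub_eq_zero.1 this).symm
  have hes : e s = s := by
    rw [he, Module.End.aeval_apply_of_hasEigenvector hev]
    have : Polynomial.eval 1 (w * (Polynomial.X * n)) = 1 := by
      have h1 := congrArg (Polynomial.eval 1) huw
      rw [Polynomial.eval_add, Polynomial.eval_mul, Polynomial.eval_pow] at h1
      simp only [Polynomial.eval_sub, Polynomial.eval_X, Polynomial.eval_C, sub_self,
        zero_pow hapos.ne', mul_zero, zero_add, Polynomial.eval_one] at h1
      exact h1
    rw [this, one_smul]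
  have htre : LinearMap.trace K Mo e = 0 := by
    have : e = Polynomial.aeval X (w * n) * X := by
      rw [he, show w * (Polynomial.X * n) = (w * n) * Polynomial.X by ring, map_mul,
        Polynomial.aeval_X]
    rw [this]
    exact htr _
  have h00 : e = 0 := (LinearMap.IsIdempotentElem.trace_eq_zero_iff hidem).1 htre
  rw [h00] at hes
  exact hs hes.symm

theorem dens {K : Type u} [Field K] [CharZero K] {Mo : Type u} [AddCommGroup Mo] [Module K Mo]
    [Module.Finite K Mo] (D : K → K) (nab : Mo →+ Mo)
    (leib : ∀ (c : K) (x : Mo), nab (c • x) = D c • x + c • nab x)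
    (irr : ∀ H' : Submodule K Mo, (∀ x ∈ H', nab x ∈ H') → H' = ⊥ ∨ H' = ⊤)
    (g : Submodule K (Module.End K Mo))
    (hg : ∀ X ∈ g, ∃ X' ∈ g, ∀ x, X' x = nab (X x) - X (nab x))
    (hcomm : ∀ y : Module.End K Mo, (∀ X ∈ g, y * X = X * y) → ∃ c : K, y = c • 1) :
    Algebra.adjoin K (g : Set (Module.End K Mo)) = ⊤ := by
  rcases subsingleton_or_nontrivial Mo with hsub | hnt
  · rw [eq_top_iff]
    intro x _
    have : x = 0 := by
      ext z
      exact Subsingleton.elim _ _
    rw [this]
    exact zero_mem _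
  obtain ⟨z0, hz0⟩ := exists_ne (0 : Mo)
  have hadd : ∀ a b, D (a + b) = D a + D b := by
    intro a b
    have h1 := leib (a + b) z0
    rw [add_smul, map_add, leib, leib, add_smul] at h1
    have h2 : (D a + D b) • z0 = D (a + b) • z0 := by
      rw [add_smul]
      have h3 : D a • z0 + D b • z0 + (a • nab z0 + b • nab z0) =
          D (a + b) • z0 + (a • nab z0 + b • nab z0) := by
        rw [← h1]; abel
      exact add_right_cancel h3
    exact (smul_left_injective K hz0 h2).symm
  have hD0 : D 0 = 0 := by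
    have := hadd 0 0
    rw [add_zero] at this
    exact left_eq_add.1 this
  set A := Algebra.adjoin K (g : Set (Module.End K Mo)) with hAdef
  have hA : ∀ X ∈ A, ∃ X' ∈ A, ∀ x, X' x = nab (X x) - X (nab x) := by
    intro X hX
    induction hX using Algebra.adjoin_induction with
    | mem X hX =>
      obtain ⟨X', h1, h2⟩ := hg X hX
      exact ⟨X', Algebra.subset_adjoin h1, h2⟩
    | algebraMap r =>
      refine ⟨algebraMap K _ (D r), Subalgebra.algebraMap_mem _ _, ?_⟩
      intro x
      simp only [Module.algebraMap_end_apply, leib]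
      abel
    | add X Y _ _ ihX ihY =>
      obtain ⟨X', h1, h2⟩ := ihX
      obtain ⟨Y', h3, h4⟩ := ihY
      refine ⟨X' + Y', add_mem h1 h3, ?_⟩
      intro x
      simp only [LinearMap.add_apply, h2, h4, map_add]
      abel
    | mul X Y hX hY ihX ihY =>
      obtain ⟨X', h1, h2⟩ := ihX
      obtain ⟨Y', h3, h4⟩ := ihY
      refine ⟨X' * Y + X * Y', add_mem (mul_mem h1 hY) (mul_mem hX h3), ?_⟩
      intro x
      simp only [LinearMap.add_apply, Module.End.mul_apply, h2, h4, map_sub]
      abel
  let R : Submodule K (Module.End K Mo) :=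
    { carrier := {X | X ∈ A ∧ ∀ Y ∈ A, LinearMap.trace K Mo (X * Y) = 0}
      add_mem' := by
        rintro a b ⟨ha, ha'⟩ ⟨hb, hb'⟩
        refine ⟨add_mem ha hb, fun Y hY => ?_⟩
        rw [add_mul, map_add, ha' Y hY, hb' Y hY, add_zero]
      zero_mem' := ⟨zero_mem _, fun Y _ => by rw [zero_mul, map_zero]⟩
      smul_mem' := by
        rintro c a ⟨ha, ha'⟩
        refine ⟨Subalgebra.smul_mem _ ha c, fun Y hY => ?_⟩
        rw [smul_mul_assoc, map_smul, ha' Y hY, smul_zero] }
  have hR' : ∀ X ∈ R, ∃ X' ∈ R, ∀ x, X' x = nab (X x) - X (nab x) := by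
    rintro X ⟨hXA, hXt⟩
    obtain ⟨X', h1, h2⟩ := hA X hXA
    refine ⟨X', ⟨h1, ?_⟩, h2⟩
    intro Y hY
    obtain ⟨Y', h3, h4⟩ := hA Y hY
    have h5 := tr_nab D hadd nab leib (X * Y) (X' * Y + X * Y') (by
      intro x
      simp only [LinearMap.add_apply, Module.End.mul_apply, h2, h4, map_sub]
      abel)
    rw [map_add, hXt Y' h3, add_zero, hXt Y hY, hD0] at h5
    exact h5
  have hRl : ∀ Y ∈ A, ∀ X ∈ R, Y * X ∈ R := by
    rintro Y hY X ⟨hXA, hXt⟩
    refine ⟨mul_mem hY hXA, fun Z hZ => ?_⟩
    rw [mul_assoc, LinearMap.trace_mul_comm, mul_assoc]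
    exact hXt _ (mul_mem hZ hY)
  have hRp : ∀ X ∈ R, ∀ p : Polynomial K,
      LinearMap.trace K Mo (Polynomial.aeval X p * X) = 0 := by
    rintro X ⟨hXA, hXt⟩ p
    rw [LinearMap.trace_mul_comm]
    apply hXt
    have : Algebra.adjoin K {X} ≤ A := by
      apply Algebra.adjoin_le
      simpa using hXA
    exact this (Polynomial.aeval_mem_adjoin_singleton K X)
  -- a minimal nonzero stable subspace
  obtain ⟨S, ⟨hS0, hSA⟩, hmin⟩ := WellFounded.has_min
    (wellFounded_lt : WellFounded ((· < ·) : Submodule K Mo → Submodule K Mo → Prop))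
    {S : Submodule K Mo | S ≠ ⊥ ∧ ∀ X ∈ A, ∀ x ∈ S, X x ∈ S}
    ⟨⊤, ⟨top_ne_bot, fun X _ x _ => trivial⟩⟩
  have hRS : ∀ X ∈ R, ∀ x ∈ S, X x = 0 := by
    intro X hX x hx
    by_contra hne
    let S' : Submodule K Mo := Submodule.map (LinearMap.applyₗ x) R
    have hS' : ∀ y, y ∈ S' ↔ ∃ Y ∈ R, Y x = y := by
      intro y
      simp only [S', Submodule.mem_map, LinearMap.applyₗ_apply_apply]
    have hle : S' ≤ S := by
      intro y hy
      obtain ⟨Y, hY, rfl⟩ := (hS' y).1 hy
      exact hSA Y hY.1 x hx
    have hst : S' ≠ ⊥ ∧ ∀ X ∈ A, ∀ x ∈ S', X x ∈ S' := by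
      constructor
      · intro hbot
        apply hne
        have : X x ∈ S' := (hS' _).2 ⟨X, hX, rfl⟩
        rw [hbot] at this
        simpa using this
      · intro Z hZ y hy
        obtain ⟨Y, hY, rfl⟩ := (hS' y).1 hy
        exact (hS' _).2 ⟨Z * Y, hRl Z hZ Y hY, rfl⟩
    have heq : S' = S := by
      rcases hle.lt_or_eq with h | h
      · exact absurd h (hmin S' hst)
      · exact h
    have hx' : x ∈ S' := by rw [heq]; exact hx
    obtain ⟨Y, hY, hYx⟩ := (hS' x).1 hx'
    have hx0 : x ≠ 0 := by
      intro h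
      apply hne
      rw [h, map_zero]
    exact no_fix Y x hx0 hYx (hRp Y hY)
  let N : Submodule K Mo :=
    { carrier := {x | ∀ X ∈ R, X x = 0}
      add_mem' := by
        intro a b ha hb X hX
        rw [map_add, ha X hX, hb X hX, add_zero]
      zero_mem' := by intro X _; rw [map_zero]
      smul_mem' := by
        intro c a ha X hX
        rw [map_smul, ha X hX, smul_zero] }
  have hN : N = ⊤ := by
    rcases irr N (by
      intro x hx X hX
      obtain ⟨X', h1, h2⟩ := hR' X hX
      have h3 := h2 x
      rw [hx X' h1, hx X hX, map_zero, zero_sub] at h3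
      exact neg_eq_zero.1 h3.symm) with h | h
    · exfalso
      apply hS0
      rw [eq_bot_iff]
      intro x hx
      have : x ∈ N := fun X hX => hRS X hX x hx
      rw [h] at this
      exact this
    · exact h
  have hR0 : ∀ X ∈ R, X = 0 := by
    intro X hX
    ext x
    have : x ∈ N := by rw [hN]; trivial
    exact this X hX
  -- semisimplicity
  have : IsArtinianRing A := IsArtinianRing.of_finite K A
  have hJ : Ring.jacobson A = ⊥ := by
    rw [eq_bot_iff]
    intro X hX
    have hXR : (X : Module.End K Mo) ∈ R := by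
      refine ⟨X.2, fun Y hY => ?_⟩
      rw [LinearMap.trace_mul_comm]
      have h1 : (⟨Y, hY⟩ : A) * X ∈ Ring.jacobson A := Ideal.mul_mem_left _ _ hX
      obtain ⟨n, hn⟩ := (inferInstance : IsSemiprimaryRing A).isNilpotent
      have h2 : ((⟨Y, hY⟩ : A) * X) ^ n = 0 := by
        have h3 : ((⟨Y, hY⟩ : A) * X) ^ n ∈ (Ring.jacobson A) ^ n := Ideal.pow_mem_pow h1 n
        rw [hn] at h3
        exact h3
      have h4 : IsNilpotent (Y * (X : Module.End K Mo)) := by
        refine ⟨n, ?_⟩
        have h5 := congrArg (Subtype.val) h2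
        simpa using h5
      exact (LinearMap.isNilpotent_trace_of_isNilpotent h4).eq_zero
    have := hR0 _ hXR
    exact Subtype.ext this
  have : IsSemisimpleRing A := IsArtinianRing.isSemisimpleRing_iff_jacobson.2 hJ
  -- density
  have hend : ∀ φ : Module.End A Mo, ∃ c : K, ∀ x, φ x = c • x := by
    intro φ
    obtain ⟨c, hc⟩ := hcomm (φ.restrictScalars K) (by
      intro X hX
      ext x
      exact φ.map_smul (⟨X, Algebra.subset_adjoin hX⟩ : A) x)
    refine ⟨c, fun x => ?_⟩
    have := LinearMap.congr_fun hc x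
    simpa using this
  rw [eq_top_iff]
  intro f _
  let f' : Module.End (Module.End A Mo) Mo :=
    { toFun := f
      map_add' := f.map_add
      map_smul' := by
        intro φ x
        obtain ⟨c, hc⟩ := hend φ
        simp only [Module.End.smul_def, hc, map_smul, RingHom.id_apply] }
  obtain ⟨s, hs⟩ := Module.Finite.fg_top (R := K) (M := Mo)
  obtain ⟨r, hr⟩ := jacobson_density f' s
  have hfr : f = (r : Module.End K Mo) := by
    apply LinearMap.ext_on hs
    intro m hm
    exact hr m hm
  rw [hfr]
  exact r.2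

end MPadcBN
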