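import Pool.Agent.Lib.MP_adc574_ag_LZ.LocMain

/-!
# JOB OrdB: endomorphisms with respect to the lattice

`InV κ s g w q x` (Intf, InfB). `OrdLe C y`: `y` maps `V_q` to `V_(q+C)` for all `q`.
* `lat_nab`: `y E ≤ E`, `y' x = nab (y x) - y (nab x)`; `x ∈ E`; by `in_E` (LZ/IrrP; here the conclusion is only `NearIn E τ (y' x)` for the given `τ`). Regular `τ` (`StabAt`): `y x ∈ E` so `NearIn E τ (nab (y x))`; `q • nab x ∈ E` with `q(τ) ≠ 0`, `q • y (nab x) = y (q • nab x) ∈ E`. Sum.
* `node_nab`: at a node: `Y i k = b.repr (y (b k)) i` are polynomials (`hb`), `Yp i k = pl κ τ (..)`. `hcom`: `∑ m, Yp i m * (a m * l k) = ∑ m, (a i * l m) * Yp m k` (over `L`, so over `κ⟦X⟧`). The coordinates of `y' (b k)`: `b.repr (y' (b k)) i = D (Y i k) + ∑ m, ΓK i m * Y m k - ∑ m, Y i m * ΓK m k` (`repr_nab`), times `jL X`: `jL (X (Yp i k)' + (Γ Yp) i k - (Yp Γ) i k)`; `Γ = N + X Γ'`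
  (`S.res`, `ha0`, `hl0`: `Γ - N` has no constant coefficient) and `N Yp = Yp N`: the bracket is `X * (..)`. So `jt (b.repr (y' (b k)) i)` is integral, `regAt_iff`, and `y' x` for `x ∈ E` (`x = ∑ p_k b_k`, `p_k` polynomials; `y'` is linear): `near_iff`.
-/

set_option autoImplicit false

namespace MPadcBN

open MPadcLZ MPadcHM

universe u

variable {κ : Type u} [Field κ] [CharZero κ] {Mo : Type u} [AddCommGroup Mo]
  [Module (RatFunc κ) Mo] {nab : Mo →+ Mo}

section Lat

variable [Module (Polynomial κ) Mo] [IsScalarTower (Polynomial κ) (RatFunc κ) Mo]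
  {E : Submodule (Polynomial κ) Mo}

theorem lat_nab {y y' : Module.End (RatFunc κ) Mo} (hy : ∀ x ∈ E, y x ∈ E)
    (h : ∀ x, y' x = nab (y x) - y (nab x)) {τ : κ} (hτ : StabAt nab E τ) :
    ∀ x ∈ E, NearIn E τ (y' x) := by
  intro x hx
  obtain ⟨q1, hq1, h1⟩ := hτ (y x) (hy x hx)
  obtain ⟨q2, hq2, h2⟩ := hτ x hx
  have h3 : q2 • y (nab x) ∈ E := by
    have h4 := hy _ h2
    rwa [← algebraMap_smul (RatFunc κ) q2 (nab x), map_smul, algebraMap_smul] at h4
  refine ⟨q1 * q2, ?_, ?_⟩
  · rw [Polynomial.eval_mul]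
    exact mul_ne_zero hq1 hq2
  · have e : (q1 * q2) • y' x = q2 • (q1 • nab (y x)) - q1 • (q2 • y (nab x)) := by
      rw [h, smul_sub, smul_smul, smul_smul, mul_comm q2 q1]
    rw [e]
    exact E.sub_mem (E.smul_mem _ h1) (E.smul_mem _ h3)

theorem node_nab (leib : ∀ (c : RatFunc κ) (x : Mo), nab (c • x) = DK κ c • x + c • nab x)
    {n : ℕ} {b : Module.Basis (Fin n) (RatFunc κ) Mo} (hb : LB E b) {τ : κ}
    (S : Lc (Fin n) κ) (hS : S.Ok)
    (hΓ : ∀ i k, algebraMap (PowerSeries κ) (FractionRing (PowerSeries κ)) PowerSeries.X *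
        jt τ (b.repr (nab (b k)) i) =
          algebraMap (PowerSeries κ) (FractionRing (PowerSeries κ)) (S.Γ i k))
    {y y' : Module.End (RatFunc κ) Mo} (hy : ∀ x ∈ E, y x ∈ E)
    (h : ∀ x, y' x = nab (y x) - y (nab x))
    (hcom : ∀ i k, ∑ m, jt τ (b.repr (y (b m)) i) *
        algebraMap (PowerSeries κ) (FractionRing (PowerSeries κ)) (S.a m * S.l k) =
      ∑ m, algebraMap (PowerSeries κ) (FractionRing (PowerSeries κ)) (S.a i * S.l m) *
        jt τ (b.repr (y (b k)) m)) :
    ∀ x ∈ E, NearIn E τ (y' x) := by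
  classical
  have hinj : Function.Injective
      (algebraMap (PowerSeries κ) (FractionRing (PowerSeries κ))) := IsFractionRing.injective _ _
  have hX0 : algebraMap (PowerSeries κ) (FractionRing (PowerSeries κ)) PowerSeries.X ≠ 0 := by
    rw [Ne, map_eq_zero_iff _ hinj]
    exact PowerSeries.X_ne_zero
  have hbE : ∀ k, b k ∈ E := by
    intro k
    rw [hb]
    intro i
    by_cases hik : k = i
    · exact ⟨1, by rw [hik, b.repr_self, Finsupp.single_eq_same, map_one]⟩
    · refine ⟨0, ?_⟩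
      rw [b.repr_self, Finsupp.single_apply, if_neg hik, map_zero]
  have hP : ∀ i k, ∃ q : Polynomial κ,
      b.repr (y (b k)) i = algebraMap (Polynomial κ) (RatFunc κ) q :=
    fun i k => (hb _).1 (hy _ (hbE k)) i
  choose P hP using hP
  have hG : ∀ i k, ∃ g : PowerSeries κ, S.Γ i k - S.a i * S.l k = PowerSeries.X * g := by
    intro i k
    have h1 : PowerSeries.X ∣ S.Γ i k - S.a i * S.l k := by
      rw [PowerSeries.X_dvd_iff, map_sub, map_mul, hS.res, hS.ha0, hS.hl0, sub_self]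
    exact h1
  choose G hG using hG
  have hcom' : ∀ i k, ∑ m, MPadcLP.pl κ τ (P i m) * (S.a m * S.l k) =
      ∑ m, (S.a i * S.l m) * MPadcLP.pl κ τ (P m k) := by
    intro i k
    apply hinj
    have h1 := hcom i k
    simp only [hP, jt_poly, ← map_mul, ← map_sum] at h1
    exact h1
  have key : ∀ i k, RegAt τ (b.repr (y' (b k)) i) := by
    intro i k
    rw [regAt_iff]
    refine ⟨MPadcLP.pl κ τ (Polynomial.derivative (P i k)) +
      ∑ m, G i m * MPadcLP.pl κ τ (P m k) - ∑ m, G m k * MPadcLP.pl κ τ (P i m), ?_⟩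
    apply mul_left_cancel₀ hX0
    have h2 : y (nab (b k)) = ∑ m, b.repr (nab (b k)) m • y (b m) := by
      conv_lhs => rw [← b.sum_repr (nab (b k))]
      rw [map_sum]
      exact Finset.sum_congr rfl fun m _ => map_smul _ _ _
    have h3 : b.repr (y (nab (b k))) i = ∑ m, b.repr (nab (b k)) m * b.repr (y (b m)) i := by
      rw [h2, map_sum, Finset.sum_apply']
      refine Finset.sum_congr rfl fun m _ => ?_
      rw [map_smul, Finsupp.smul_apply, smul_eq_mul]
    have h4 : b.repr (y' (b k)) i = algebraMap (Polynomial κ) (RatFunc κ)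
          (Polynomial.derivative (P i k)) +
        ∑ m, b.repr (nab (b m)) i * algebraMap (Polynomial κ) (RatFunc κ) (P m k) -
        ∑ m, b.repr (nab (b k)) m * algebraMap (Polynomial κ) (RatFunc κ) (P i m) := by
      rw [h, map_sub, Finsupp.sub_apply, repr_nab leib, h3, hP, DK_poly]
      simp only [hP]
    have h5 : ∀ i k m m', algebraMap (PowerSeries κ) (FractionRing (PowerSeries κ)) PowerSeries.X *
        jt τ (b.repr (nab (b k)) i * algebraMap (Polynomial κ) (RatFunc κ) (P m m')) =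
        algebraMap (PowerSeries κ) (FractionRing (PowerSeries κ))
          (S.Γ i k * MPadcLP.pl κ τ (P m m')) := by
      intro i k m m'
      rw [map_mul, jt_poly, ← mul_assoc, hΓ, ← map_mul]
    have h6 : ∀ i k m m', S.Γ i k * MPadcLP.pl κ τ (P m m') =
        (S.a i * S.l k) * MPadcLP.pl κ τ (P m m') +
          PowerSeries.X * (G i k * MPadcLP.pl κ τ (P m m')) := by
      intro i k m m'
      have h7 := hG i k
      linear_combination (MPadcLP.pl κ τ (P m m')) * h7
    rw [h4, map_sub, map_add, jt_poly, map_sum, map_sum, mul_sub, mul_add, Finset.mul_sum,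
      Finset.mul_sum, Finset.sum_congr rfl fun m _ => h5 i m m k,
      Finset.sum_congr rfl fun m _ => h5 m k i m, ← map_sum, ← map_sum, ← map_mul, ← map_mul,
      ← map_add, ← map_sub]
    congr 1
    simp only [h6, Finset.sum_add_distrib, ← Finset.mul_sum]
    have h8 := hcom' i k
    have h9 : ∑ m, S.a m * S.l k * MPadcLP.pl κ τ (P i m) =
        ∑ m, MPadcLP.pl κ τ (P i m) * (S.a m * S.l k) :=
      Finset.sum_congr rfl fun m _ => mul_comm _ _
    rw [h9, h8]
    ring
  intro x hx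
  rw [near_iff hb]
  intro i
  have h1 : y' x = ∑ k, b.repr x k • y' (b k) := by
    conv_lhs => rw [← b.sum_repr x]
    rw [map_sum]
    exact Finset.sum_congr rfl fun m _ => map_smul _ _ _
  rw [h1, map_sum, Finset.sum_apply']
  refine RegAt.sum _ fun k _ => ?_
  rw [map_smul, Finsupp.smul_apply, smul_eq_mul]
  obtain ⟨q, hq⟩ := (hb x).1 hx k
  rw [hq]
  exact (regAt_poly τ q).mul (key i k)

end Lat

end MPadcBN
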