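import Pool.Agent.Lib.MP_adc574_ag_LZ.LocMain

/-!
# JOB OrdC: constants, Schur

`InV κ s g w q x` (Intf, InfB). `OrdLe C y`: `y` maps `V_q` to `V_(q+C)` for all `q`.
* `schur`: `e` commutes with `nab`. `μ = minpoly (RatFunc κ) e` (`Module.Finite`). `D μ` := the polynomial with coefficients `DK κ (coeff μ i)`; its degree is `< deg μ` (`μ` monic, `DK κ 1 = 0`) and `(D μ)(e) = 0`: `nab (c_i e^i x) = D c_i e^i x + c_i e^i (nab x)`, sum over `i`: `0 = nab (μ(e) x) = (D μ)(e) x + μ(e) (nab x)`. So `D μ = 0` (`minpoly.degree_le_of_ne_zero`-type), all coefficients are killed by `DK κ`, so in `κ` (`dk_const`).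
  `μ = μ₀.map (algebraMap κ (RatFunc κ))`, `μ₀` has a root `lam` (`κ` algebraically closed, `natDegree ≥ 1`: `Mo` is nontrivial), so `μ = (X - C lam) ν` and `e - lam` is not injective (otherwise `ν(e) = 0`, smaller degree). `ker (e - lam)` is stable under `nab` (`e` flat, `DK κ lam = 0`), not `⊥`, so `⊤` by `irr`.
* `dk_const`: `DK κ c = 0` implies `c ∈ κ`: `c = a / b`, coprime, `b` monic: `a' b = a b'` (`DK_poly`), so `b ∣ b'`, `b' = 0` by degrees, `b = 1`, `a' = 0`, `a` constant (characteristic 0).
-/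

set_option autoImplicit false

namespace MPadcBN

open MPadcLZ MPadcHM

universe u

variable {κ : Type u} [Field κ] [CharZero κ] {Mo : Type u} [AddCommGroup Mo]
  [Module (RatFunc κ) Mo] {nab : Mo →+ Mo}

theorem dk_const (c : RatFunc κ) (hc : DK κ c = 0) : ∃ a : κ, c = algebraMap κ (RatFunc κ) a := by
  have hden : c * algebraMap (Polynomial κ) (RatFunc κ) c.denom =
      algebraMap (Polynomial κ) (RatFunc κ) c.num := by
    have h := RatFunc.num_div_denom c
    have h0 : algebraMap (Polynomial κ) (RatFunc κ) c.denom ≠ 0 :=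
      RatFunc.algebraMap_ne_zero (RatFunc.denom_ne_zero c)
    rw [div_eq_iff h0] at h
    exact h.symm
  have h1 := congrArg (DK κ) hden
  rw [Derivation.leibniz, hc, smul_zero, add_zero, DK_poly, DK_poly, smul_eq_mul] at h1
  have h2 : c.num * Polynomial.derivative c.denom = Polynomial.derivative c.num * c.denom := by
    apply RatFunc.algebraMap_injective κ
    rw [map_mul, map_mul, ← h1, ← hden]
    ring
  have h3 : c.denom ∣ Polynomial.derivative c.denom := by
    have h : c.denom ∣ c.num * Polynomial.derivative c.denom :=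
      ⟨Polynomial.derivative c.num, by rw [h2]; ring⟩
    exact (RatFunc.isCoprime_num_denom c).symm.dvd_of_dvd_mul_left h
  have h4 : Polynomial.derivative c.denom = 0 := by
    by_contra h
    exact absurd (Polynomial.degree_le_of_dvd h3 h)
      (not_le.2 (Polynomial.degree_derivative_lt (RatFunc.denom_ne_zero c)))
  have h5 : c.denom = 1 :=
    (Polynomial.Monic.natDegree_eq_zero (RatFunc.monic_denom c)).1
      (Polynomial.derivative_eq_zero.1 h4)
  rw [h5, Polynomial.derivative_one, mul_zero, mul_one] at h2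
  have h6 := Polynomial.eq_C_of_natDegree_eq_zero
    (Polynomial.derivative_eq_zero.1 h2.symm)
  refine ⟨c.num.coeff 0, ?_⟩
  rw [h5, map_one, mul_one] at hden
  refine hden.trans ((congrArg (algebraMap (Polynomial κ) (RatFunc κ)) h6).trans ?_)
  rw [RatFunc.algebraMap_C, RatFunc.algebraMap_eq_C]

theorem schur [IsAlgClosed κ] [Module.Finite (RatFunc κ) Mo] [Nontrivial Mo]
    (leib : ∀ (c : RatFunc κ) (x : Mo), nab (c • x) = DK κ c • x + c • nab x)
    (irr : ∀ H' : Submodule (RatFunc κ) Mo, (∀ x ∈ H', nab x ∈ H') → H' = ⊥ ∨ H' = ⊤)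
    (e : Module.End (RatFunc κ) Mo) (he : ∀ x, nab (e x) = e (nab x)) :
    ∃ a : κ, e = algebraMap κ (RatFunc κ) a • 1 := by
  obtain ⟨μ, hμ⟩ : ∃ μ, μ = minpoly (RatFunc κ) e := ⟨_, rfl⟩
  have hint : IsIntegral (RatFunc κ) e := Algebra.IsIntegral.isIntegral e
  have hmon : μ.Monic := by
    rw [hμ]
    exact minpoly.monic hint
  have haev : Polynomial.aeval e μ = 0 := by
    rw [hμ]
    exact minpoly.aeval _ _
  have hpow : ∀ (i : ℕ) (x : Mo), nab ((e ^ i) x) = (e ^ i) (nab x) := by
    intro i
    induction i with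
    | zero =>
      intro x
      rfl
    | succ i ih =>
      intro x
      rw [pow_succ]
      change nab ((e ^ i) (e x)) = (e ^ i) (e (nab x))
      rw [ih, he]
  obtain ⟨ν, hν⟩ : ∃ ν : Polynomial (RatFunc κ), ν =
      ∑ i ∈ Finset.range μ.natDegree, Polynomial.monomial i (DK κ (μ.coeff i)) := ⟨_, rfl⟩
  have hsum : ∀ x : Mo, Polynomial.aeval e ν x =
      ∑ i ∈ Finset.range (μ.natDegree + 1), DK κ (μ.coeff i) • (e ^ i) x := by
    intro x
    have h1 : DK κ (μ.coeff μ.natDegree) = 0 := by
      rw [Polynomial.coeff_natDegree, hmon.leadingCoeff]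
      exact (DK κ).map_one_eq_zero
    rw [Finset.sum_range_succ, h1, zero_smul, add_zero, hν, map_sum, LinearMap.sum_apply]
    refine Finset.sum_congr rfl fun i _ => ?_
    rw [Polynomial.aeval_monomial]
    rfl
  have hν0 : Polynomial.aeval e ν = 0 := by
    apply LinearMap.ext
    intro x
    have h1 : ∀ y : Mo, Polynomial.aeval e μ y =
        ∑ i ∈ Finset.range (μ.natDegree + 1), μ.coeff i • (e ^ i) y := by
      intro y
      rw [Polynomial.aeval_eq_sum_range, LinearMap.sum_apply]
      rfl
    have h2 := h1 x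
    rw [haev] at h2
    have h3 := congrArg nab h2
    rw [LinearMap.zero_apply, map_zero, map_sum] at h3
    have h4 : ∑ i ∈ Finset.range (μ.natDegree + 1), nab (μ.coeff i • (e ^ i) x) =
        Polynomial.aeval e ν x + Polynomial.aeval e μ (nab x) := by
      rw [hsum, h1, ← Finset.sum_add_distrib]
      refine Finset.sum_congr rfl fun i _ => ?_
      rw [leib, hpow]
    rw [h4, haev, LinearMap.zero_apply, add_zero] at h3
    rw [← h3, LinearMap.zero_apply]
  have hdeg : ν.degree < μ.degree := by
    rw [Polynomial.degree_eq_natDegree hmon.ne_zero, hν]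
    refine lt_of_le_of_lt (Polynomial.degree_sum_le _ _) ?_
    rw [Finset.sup_lt_iff (WithBot.bot_lt_coe _)]
    intro i hi
    exact lt_of_le_of_lt (Polynomial.degree_monomial_le _ _)
      (WithBot.coe_lt_coe.2 (Finset.mem_range.1 hi))
  have hν1 : ν = 0 := by
    by_contra h
    rw [hμ] at hdeg
    exact absurd (minpoly.degree_le_of_ne_zero _ _ h hν0) (not_le.2 hdeg)
  have hcoeff : ∀ i, ∃ a : κ, μ.coeff i = algebraMap κ (RatFunc κ) a := by
    intro i
    rcases lt_trichotomy i μ.natDegree with h | h | h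
    · apply dk_const
      have h1 : ν.coeff i = DK κ (μ.coeff i) := by
        rw [hν, Polynomial.finsetSum_coeff, Finset.sum_eq_single i]
        · exact Polynomial.coeff_monomial_same _ _
        · intro j _ hj
          exact Polynomial.coeff_monomial_of_ne _ hj.symm
        · intro hi
          exact absurd (Finset.mem_range.2 h) hi
      rw [← h1, hν1, Polynomial.coeff_zero]
    · refine ⟨1, ?_⟩
      rw [h, Polynomial.coeff_natDegree, hmon.leadingCoeff, map_one]
    · refine ⟨0, ?_⟩
      rw [Polynomial.coeff_eq_zero_of_natDegree_lt h, map_zero]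
  obtain ⟨μ₀, hμ₀⟩ : ∃ μ₀ : Polynomial κ, μ₀.map (algebraMap κ (RatFunc κ)) = μ := by
    have h1 : μ ∈ Polynomial.lifts (algebraMap κ (RatFunc κ)) := by
      rw [Polynomial.lifts_iff_coeff_lifts]
      intro i
      obtain ⟨a, ha⟩ := hcoeff i
      exact ⟨a, ha.symm⟩
    exact (Polynomial.mem_lifts _).1 h1
  have hd0 : μ₀.degree ≠ 0 := by
    intro h
    have h1 : μ.degree = 0 := by
      rw [← hμ₀, Polynomial.degree_map, h]
    rw [hμ] at h1
    exact (minpoly.degree_pos hint).ne' h1
  obtain ⟨lam, hlam⟩ := IsAlgClosed.exists_root μ₀ hd0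
  have hroot : (minpoly (RatFunc κ) e).IsRoot (algebraMap κ (RatFunc κ) lam) := by
    rw [← hμ, ← hμ₀]
    exact Polynomial.IsRoot.map hlam
  have heig := Module.End.hasEigenvalue_of_isRoot hroot
  have hstab := irr (Module.End.eigenspace e (algebraMap κ (RatFunc κ) lam)) (fun x hx => by
    rw [Module.End.mem_eigenspace_iff] at hx ⊢
    rw [← he, hx, leib, DK_C, zero_smul, zero_add])
  refine ⟨lam, ?_⟩
  rcases hstab with h | h
  · exact absurd h heig
  · apply LinearMap.ext
    intro x
    have hx : x ∈ Module.End.eigenspace e (algebraMap κ (RatFunc κ) lam) := by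
      rw [h]
      exact Submodule.mem_top
    rw [Module.End.mem_eigenspace_iff] at hx
    exact hx

end MPadcBN
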