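import Mathlib

/-!
# JOB Rat: extension of scalars of a subspace of `K ^ s` along `j : K →+* L`

`spanL j g` = the `L`-span of `g`.
* `mem_spanL_iff`. `→`: span induction (`j` of the relation). `←`: choose a complement of `g` (`Submodule.exists_isCompl`) and let `Q` be the matrix of the projection onto `g` (`Submodule.linearProjOfIsCompl`, composed with `g.subtype`; `LinearMap.toMatrix'`), `P = 1 - Q`. The rows `ψ i = P i` kill `g`
  (`P x = 0` for `x ∈ g`), so `∑ k, j (P i k) * v k = 0` for all `i`, i.e. `v i = ∑ k, j (Q i k) * v k`: `v = ∑ k, v k • (j ∘ Q e_k)` and the columns `Q e_k` are in `g`.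
* `spanL_rat`: by `mem_spanL_iff` (for `j`) every `ψ` killing `g` satisfies `j (∑ ψ i * x i) = 0`, so `∑ ψ i * x i = 0`; by `mem_spanL_iff` for `RingHom.id K`, `x ∈ spanL (RingHom.id K) g = g`.
* `mem_spanL_of_ker`: by `mem_spanL_iff` let `ψ` kill `g`. Then `ψ ∈ Submodule.span K P`: by `mem_spanL_iff` for `RingHom.id K` and the subspace `Submodule.span K P` it is enough that every `x` with `∑ x i * φ i = 0` for all `φ ∈ P` satisfies `∑ x i * ψ i = 0`; such an `x` is in `g` by `hg`.
  Then `∑ j (ψ i) * v i = 0` by span induction.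
-/

set_option autoImplicit false

namespace MPadcBN

variable {K L : Type*} [Field K] [Field L] (j : K →+* L) {s : Type*}

/-- The span over `L` of a `K`-subspace. -/
def spanL (g : Submodule K (s → K)) : Submodule L (s → L) :=
  Submodule.span L {v | ∃ x ∈ g, v = fun i => j (x i)}

variable [Fintype s]

theorem mem_spanL_iff (g : Submodule K (s → K)) (v : s → L) :
    v ∈ spanL j g ↔
      ∀ ψ : s → K, (∀ x ∈ g, ∑ i, ψ i * x i = 0) → ∑ i, j (ψ i) * v i = 0 := by
  classical
  constructor
  · intro hv ψ hψ
    refine Submodule.span_induction (p := fun v _ => ∑ i, j (ψ i) * v i = 0) ?_ ?_ ?_ ?_ hv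
    · rintro w ⟨x, hx, rfl⟩
      have h1 : ∑ i, j (ψ i) * j (x i) = j (∑ i, ψ i * x i) := by
        rw [map_sum]
        exact Finset.sum_congr rfl (fun i _ => (map_mul j _ _).symm)
      rw [h1, hψ x hx, map_zero]
    · simp
    · intro a b _ _ ha hb
      have h1 : ∑ i, j (ψ i) * (a + b) i = ∑ i, j (ψ i) * a i + ∑ i, j (ψ i) * b i := by
        rw [← Finset.sum_add_distrib]
        exact Finset.sum_congr rfl (fun i _ => by rw [Pi.add_apply, mul_add])
      rw [h1, ha, hb, add_zero]
    · intro c a _ ha
      have h1 : ∑ i, j (ψ i) * (c • a) i = c * ∑ i, j (ψ i) * a i := by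
        rw [Finset.mul_sum]
        exact Finset.sum_congr rfl (fun i _ => by rw [Pi.smul_apply, smul_eq_mul]; ring)
      rw [h1, ha, mul_zero]
  · intro h
    obtain ⟨p, hp⟩ := LinearMap.exists_leftInverse_of_injective g.subtype
      (Submodule.ker_subtype g)
    obtain ⟨Q, hQ⟩ : ∃ Q : (s → K) →ₗ[K] (s → K), Q = g.subtype ∘ₗ p := ⟨_, rfl⟩
    have hQg : ∀ x, Q x ∈ g := fun x => by
      rw [hQ]
      exact (p x).2
    have hQx : ∀ x ∈ g, Q x = x := fun x hx => by
      have h1 := LinearMap.congr_fun hp ⟨x, hx⟩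
      have h2 : p x = ⟨x, hx⟩ := h1
      rw [hQ]
      change ((p x : g) : s → K) = x
      rw [h2]
    have hsum : ∀ (x : s → K) (i : s), Q x i = ∑ k, x k * Q (Pi.single k 1) i := by
      intro x i
      have h1 : x = ∑ k, x k • (Pi.single k (1 : K) : s → K) := by
        funext l
        rw [Finset.sum_apply, Finset.sum_eq_single l]
        · rw [Pi.smul_apply, Pi.single_eq_same, smul_eq_mul, mul_one]
        · intro b _ hb
          rw [Pi.smul_apply, Pi.single_eq_of_ne (Ne.symm hb), smul_zero]
        · intro hl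
          exact absurd (Finset.mem_univ l) hl
      have h2 : Q x = ∑ k, x k • Q (Pi.single k (1 : K)) := by
        conv_lhs => rw [h1]
        rw [map_sum]
        exact Finset.sum_congr rfl (fun k _ => map_smul Q _ _)
      rw [h2, Finset.sum_apply]
      exact Finset.sum_congr rfl (fun k _ => by rw [Pi.smul_apply, smul_eq_mul])
    have hv : v = ∑ k, v k • (fun i => j (Q (Pi.single k 1) i)) := by
      funext i
      have h1 := h (fun k => (Pi.single i (1 : K) : s → K) k - Q (Pi.single k 1) i) (by
        intro x hx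
        have h2 : ∑ k, ((Pi.single i (1 : K) : s → K) k - Q (Pi.single k 1) i) * x k =
            x i - Q x i := by
          rw [hsum x i]
          have h3 : ∑ k, (Pi.single i (1 : K) : s → K) k * x k = x i := by
            rw [Finset.sum_eq_single i]
            · rw [Pi.single_eq_same, one_mul]
            · intro b _ hb
              rw [Pi.single_eq_of_ne hb, zero_mul]
            · intro hi
              exact absurd (Finset.mem_univ i) hi
          rw [← h3, ← Finset.sum_sub_distrib]
          exact Finset.sum_congr rfl (fun k _ => by ring)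
        rw [h2, hQx x hx, sub_self])
      have h4 : ∑ k, j ((Pi.single i (1 : K) : s → K) k - Q (Pi.single k 1) i) * v k =
          v i - ∑ k, j (Q (Pi.single k 1) i) * v k := by
        have h3 : ∑ k, j ((Pi.single i (1 : K) : s → K) k) * v k = v i := by
          rw [Finset.sum_eq_single i]
          · rw [Pi.single_eq_same, map_one, one_mul]
          · intro b _ hb
            rw [Pi.single_eq_of_ne hb, map_zero, zero_mul]
          · intro hi
            exact absurd (Finset.mem_univ i) hi
        rw [← h3, ← Finset.sum_sub_distrib]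
        exact Finset.sum_congr rfl (fun k _ => by rw [map_sub, sub_mul])
      rw [h4, sub_eq_zero] at h1
      rw [Finset.sum_apply, h1]
      exact Finset.sum_congr rfl (fun k _ => by rw [Pi.smul_apply, smul_eq_mul, mul_comm])
    rw [hv]
    apply Submodule.sum_mem
    intro k _
    apply Submodule.smul_mem
    exact Submodule.subset_span ⟨Q (Pi.single k 1), hQg _, rfl⟩

omit j in
private theorem rat_mem_of_forall (g : Submodule K (s → K)) (x : s → K)
    (h : ∀ ψ : s → K, (∀ y ∈ g, ∑ i, ψ i * y i = 0) → ∑ i, ψ i * x i = 0) : x ∈ g := by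
  have h1 : x ∈ spanL (RingHom.id K) g := (mem_spanL_iff (RingHom.id K) g x).2 (fun ψ hψ => h ψ hψ)
  have h2 : spanL (RingHom.id K) g ≤ g := by
    refine Submodule.span_le.2 ?_
    rintro v ⟨y, hy, rfl⟩
    exact hy
  exact h2 h1

theorem spanL_rat (g : Submodule K (s → K)) (x : s → K) (h : (fun i => j (x i)) ∈ spanL j g) :
    x ∈ g := by
  refine rat_mem_of_forall g x (fun ψ hψ => ?_)
  have h1 := (mem_spanL_iff j g _).1 h ψ hψ
  have h2 : j (∑ i, ψ i * x i) = 0 := by
    rw [map_sum, ← h1]
    exact Finset.sum_congr rfl (fun i _ => map_mul j _ _)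
  exact (map_eq_zero j).1 h2

theorem mem_spanL_of_ker (P : Set (s → K)) (g : Submodule K (s → K))
    (hg : ∀ x : s → K, (∀ φ ∈ P, ∑ i, φ i * x i = 0) → x ∈ g) (v : s → L)
    (hv : ∀ φ ∈ P, ∑ i, j (φ i) * v i = 0) : v ∈ spanL j g := by
  refine (mem_spanL_iff j g v).2 (fun ψ hψ => ?_)
  have h1 : ψ ∈ Submodule.span K P := by
    refine rat_mem_of_forall _ ψ (fun x hx => ?_)
    have h2 : x ∈ g := hg x (fun φ hφ => by
      have h3 := hx φ (Submodule.subset_span hφ)
      rw [← h3]
      exact Finset.sum_congr rfl (fun i _ => mul_comm _ _))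
    have h4 := hψ x h2
    rw [← h4]
    exact Finset.sum_congr rfl (fun i _ => mul_comm _ _)
  refine Submodule.span_induction (p := fun φ _ => ∑ i, j (φ i) * v i = 0) ?_ ?_ ?_ ?_ h1
  · intro φ hφ
    exact hv φ hφ
  · simp
  · intro a b _ _ ha hb
    have h5 : ∑ i, j ((a + b) i) * v i = ∑ i, j (a i) * v i + ∑ i, j (b i) * v i := by
      rw [← Finset.sum_add_distrib]
      exact Finset.sum_congr rfl (fun i _ => by rw [Pi.add_apply, map_add, add_mul])
    rw [h5, ha, hb, add_zero]
  · intro c a _ ha
    have h5 : ∑ i, j ((c • a) i) * v i = j c * ∑ i, j (a i) * v i := by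
      rw [Finset.mul_sum]
      exact Finset.sum_congr rfl (fun i _ => by rw [Pi.smul_apply, smul_eq_mul, map_mul, mul_assoc])
    rw [h5, ha, mul_zero]

end MPadcBN
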