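import Pool.Agent.Lib.MP_adc574_ag_BN.Act

/-!
# JOB StbA: arrays of alternating forms, the stabiliser of a space of forms

`M` a vector space with basis `b` (`Fin h`), `D : K → K` additive Leibniz, `nab : M →+ M` a connection. For an endomorphism `X` and a form `ω`: `(X ω) v = ∑ u, ω (update v u (X (v u)))`.
* `exists_dact`: the function is multilinear and alternating (if `v u = v w`, `u ≠ w`: terms with index `≠ u, w` vanish, the terms `u` and `w` cancel: `AlternatingMap.map_swap`-type).
* `arr_alt`: `AlternatingMap.map_swap`. `arr_inj`: `Basis.ext_alternating` or `Basis.ext_multilinear`.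
* `arr_cov`: expand `nab (b (I u)) = ∑ m, b.repr (nab (b (I u))) m • b m` (`Module.Basis.sum_repr`), `actM_mulVec`. `arr_dact`: `→` the same; `←` `exists_dact` and `arr_inj`.
* `exists_com`: `x ↦ nab (X x) - X (nab x)` is `K`-linear (`leib`).
* `stab`: closure properties. `stab_lie`: `(X Y - Y X) ω = Y (X ω) - X (Y ω)`: by `arr_dact` and `actM_comm`, or directly. `stab_nab`: `X' ω = nab (X ω) - X (nab ω)` where `nab ω` is the covariant derivative (`hW`): for `ω ∈ W` let `ω₁ = X ω ∈ W`, `ω₂ ∈ W` the covariant derivative of `ω₁`, `ω₃ ∈ W` the covariant derivative of `ω`, `ω₄ = X ω₃ ∈ W`;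
  `ω₂ - ω₄` works: `ω₂ v = D (∑ u, ω (.. X v_u ..)) - ∑ w, ∑ u, ω (update (update v w (nab (v w))) u (X (..)))`, `ω₄ v = ∑ u, (D (ω (.. X v_u ..)) - ∑ w, ω (..))`; for `u ≠ w` the terms cancel (`Function.update_comm`), for `u = w`: `- ω (.. X (nab v_u) ..) + ω (.. nab (X v_u) ..)`.
  Skewness: `flat` twice.
-/

set_option autoImplicit false

namespace MPadcBN

universe u v

variable {K : Type u} [Field K] {M : Type v} [AddCommGroup M] [Module K M] {h r : ℕ}

private theorem stba_zero (X : Module.End K M) (ω : M [⋀^Fin r]→ₗ[K] K) (v : Fin r → M)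
    (i j : Fin r) (hv : v i = v j) (hij : i ≠ j) :
    ∑ u, ω (Function.update v u (X (v u))) = 0 := by
  classical
  have hj : j ∈ Finset.univ.erase i := Finset.mem_erase.2 ⟨hij.symm, Finset.mem_univ j⟩
  rw [← Finset.add_sum_erase Finset.univ _ (Finset.mem_univ i),
    ← Finset.add_sum_erase (Finset.univ.erase i) _ hj]
  have h1 : ∑ u ∈ (Finset.univ.erase i).erase j, ω (Function.update v u (X (v u))) = 0 := by
    refine Finset.sum_eq_zero fun u hu => ?_
    rw [Finset.mem_erase, Finset.mem_erase] at hu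
    refine ω.map_eq_zero_of_eq _ (i := i) (j := j) ?_ hij
    rw [Function.update_of_ne (Ne.symm hu.2.1), Function.update_of_ne (Ne.symm hu.1), hv]
  have h2 : Function.update v j (X (v j)) = Function.update v i (X (v i)) ∘ Equiv.swap i j := by
    funext w
    rw [Function.comp_apply]
    by_cases hwi : w = i
    · subst hwi
      rw [Equiv.swap_apply_left, Function.update_of_ne hij, Function.update_of_ne hij.symm, hv]
    · by_cases hwj : w = j
      · subst hwj
        rw [Equiv.swap_apply_right, Function.update_self, Function.update_self, hv]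
      · rw [Equiv.swap_apply_of_ne_of_ne hwi hwj, Function.update_of_ne hwj,
          Function.update_of_ne hwi]
  rw [h1, h2, ω.map_swap _ hij, add_zero, add_neg_cancel]

private theorem stba_dact (X : Module.End K M) (ω : M [⋀^Fin r]→ₗ[K] K) :
    ∃ ω' : M [⋀^Fin r]→ₗ[K] K,
      ∀ v : Fin r → M, ω' v = ∑ u, ω (Function.update v u (X (v u))) := by
  classical
  have key : ∀ v : Fin r → M,
      (∑ u, ω.toMultilinearMap.compLinearMap fun w => if w = u then X else LinearMap.id) v =
        ∑ u, ω (Function.update v u (X (v u))) := by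
    intro v
    rw [MultilinearMap.sum_apply]
    refine Finset.sum_congr rfl fun u _ => ?_
    rw [MultilinearMap.compLinearMap_apply]
    refine congrArg (fun z => ω z) ?_
    funext w
    by_cases h : w = u
    · subst h
      simp
    · simp [h]
  refine ⟨{ toMultilinearMap :=
      ∑ u, ω.toMultilinearMap.compLinearMap fun w => if w = u then X else LinearMap.id
            map_eq_zero_of_eq' := fun v i j hv hij => ?_ }, fun v => key v⟩
  exact (key v).trans (stba_zero X ω v i j hv hij)

section Arr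

variable (b : Module.Basis (Fin h) K M)

/-- The array of an alternating form. -/
noncomputable def arr : (M [⋀^Fin r]→ₗ[K] K) →ₗ[K] ((Fin r → Fin h) → K) where
  toFun ω I := ω fun u => b (I u)
  map_add' ω ω' := by funext I; rfl
  map_smul' c ω := by funext I; rfl

/-- The matrix of an endomorphism, as a vector. -/
noncomputable def mt : Module.End K M →ₗ[K] (Fin h × Fin h → K) where
  toFun X p := b.repr (X (b p.2)) p.1
  map_add' X Y := by funext p; simp
  map_smul' c X := by funext p; simp

theorem mt_inj : Function.Injective (mt b) := by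
  intro X Y hXY
  refine b.ext fun j => ?_
  refine b.repr.injective (Finsupp.ext fun i => ?_)
  exact congrFun hXY (i, j)

theorem arr_inj : Function.Injective (arr (r := r) b) := by
  intro ω ω' h
  refine Module.Basis.ext_alternating b fun v _ => ?_
  exact congrFun h v

theorem arr_alt (ω : M [⋀^Fin r]→ₗ[K] K) : AltA (arr b ω) := by
  intro I u v huv
  exact ω.map_swap (fun w => b (I w)) huv

private theorem stba_update (ω : M [⋀^Fin r]→ₗ[K] K) (I : Fin r → Fin h) (u : Fin r) (x : M) :
    ω (Function.update (fun w => b (I w)) u x) =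
      ∑ m, b.repr x m * arr b ω (Function.update I u m) := by
  have h1 : ω (Function.update (fun w => b (I w)) u x) =
      ω (Function.update (fun w => b (I w)) u (∑ m, b.repr x m • b m)) := by
    rw [b.sum_repr]
  rw [h1, AlternatingMap.map_update_sum]
  refine Finset.sum_congr rfl fun m _ => ?_
  rw [AlternatingMap.map_update_smul, smul_eq_mul]
  congr 1
  refine congrArg (fun z => ω z) ?_
  funext w
  by_cases h : w = u
  · subst h
    rw [Function.update_self, Function.update_self]
  · rw [Function.update_of_ne h, Function.update_of_ne h]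

theorem arr_cov (D : K → K) (nab : M →+ M) (ω ω' : M [⋀^Fin r]→ₗ[K] K)
    (hω : ∀ v : Fin r → M, ω' v = D (ω v) - ∑ u, ω (Function.update v u (nab (v u))))
    (I : Fin r → Fin h) :
    arr b ω' I = D (arr b ω I) -
      (actM r (Matrix.of fun i k => b.repr (nab (b k)) i)).mulVec (arr b ω) I := by
  rw [actM_mulVec]
  have h1 : arr b ω' I = ω' fun u => b (I u) := rfl
  have h2 : arr b ω I = ω fun u => b (I u) := rfl
  rw [h1, hω, h2]
  congr 1
  refine Finset.sum_congr rfl fun u _ => ?_
  exact stba_update b ω I u _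

theorem arr_dact (X : Module.End K M) (ω ω' : M [⋀^Fin r]→ₗ[K] K) :
    (∀ v : Fin r → M, ω' v = ∑ u, ω (Function.update v u (X (v u)))) ↔
      arr b ω' = (actM r (Matrix.of fun i k => mt b X (i, k))).mulVec (arr b ω) := by
  have key : ∀ ω'' : M [⋀^Fin r]→ₗ[K] K,
      (∀ v : Fin r → M, ω'' v = ∑ u, ω (Function.update v u (X (v u)))) →
        arr b ω'' = (actM r (Matrix.of fun i k => mt b X (i, k))).mulVec (arr b ω) := by
    intro ω'' h
    funext I
    rw [actM_mulVec]
    have h1 : arr b ω'' I = ω'' fun u => b (I u) := rfl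
    rw [h1, h]
    refine Finset.sum_congr rfl fun u _ => ?_
    exact stba_update b ω I u _
  refine ⟨key ω', fun h => ?_⟩
  obtain ⟨ω'', h2⟩ := stba_dact X ω
  have h3 : ω' = ω'' := arr_inj b (h.trans (key ω'' h2).symm)
  rw [h3]
  exact h2

end Arr

theorem exists_dact (X : Module.End K M) (ω : M [⋀^Fin r]→ₗ[K] K) :
    ∃ ω' : M [⋀^Fin r]→ₗ[K] K,
      ∀ v : Fin r → M, ω' v = ∑ u, ω (Function.update v u (X (v u))) :=
  stba_dact X ω

theorem exists_com {D : K → K} {nab : M →+ M}
    (leib : ∀ (c : K) (x : M), nab (c • x) = D c • x + c • nab x) (X : Module.End K M) :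
    ∃ X' : Module.End K M, ∀ x, X' x = nab (X x) - X (nab x) := by
  refine ⟨{ toFun := fun x => nab (X x) - X (nab x)
            map_add' := fun x y => ?_
            map_smul' := fun c x => ?_ }, fun x => rfl⟩
  · rw [map_add, map_add, map_add, map_add]
    abel
  · rw [map_smul, leib, leib, map_add, map_smul, map_smul, RingHom.id_apply, smul_sub]
    abel

/-- The endomorphisms which are skew for `B` and map `W` into itself. -/
def stab (B : M →ₗ[K] M →ₗ[K] K) (W : Submodule K (M [⋀^Fin r]→ₗ[K] K)) :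
    Submodule K (Module.End K M) where
  carrier := {X | (∀ x y, B (X x) y + B x (X y) = 0) ∧ ∀ ω ∈ W, ∃ ω' ∈ W,
    ∀ v : Fin r → M, ω' v = ∑ u, ω (Function.update v u (X (v u)))}
  zero_mem' := by
    refine ⟨fun x y => by simp, fun ω _ => ⟨0, W.zero_mem, fun v => ?_⟩⟩
    rw [AlternatingMap.zero_apply]
    refine (Finset.sum_eq_zero fun u _ => ?_).symm
    rw [LinearMap.zero_apply]
    exact ω.map_update_zero v u
  add_mem' := by
    rintro X Y ⟨hX1, hX2⟩ ⟨hY1, hY2⟩
    refine ⟨fun x y => ?_, fun ω hω => ?_⟩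
    · rw [LinearMap.add_apply, LinearMap.add_apply, map_add, map_add, LinearMap.add_apply]
      linear_combination hX1 x y + hY1 x y
    · obtain ⟨ω1, h1, h1'⟩ := hX2 ω hω
      obtain ⟨ω2, h2, h2'⟩ := hY2 ω hω
      refine ⟨ω1 + ω2, W.add_mem h1 h2, fun v => ?_⟩
      rw [AlternatingMap.add_apply, h1', h2', ← Finset.sum_add_distrib]
      refine Finset.sum_congr rfl fun u _ => ?_
      rw [LinearMap.add_apply, AlternatingMap.map_update_add]
  smul_mem' := by
    rintro c X ⟨hX1, hX2⟩
    refine ⟨fun x y => ?_, fun ω hω => ?_⟩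
    · rw [LinearMap.smul_apply, LinearMap.smul_apply, map_smul, map_smul, LinearMap.smul_apply,
        smul_eq_mul, smul_eq_mul]
      linear_combination c * hX1 x y
    · obtain ⟨ω1, h1, h1'⟩ := hX2 ω hω
      refine ⟨c • ω1, W.smul_mem c h1, fun v => ?_⟩
      rw [AlternatingMap.smul_apply, h1', Finset.smul_sum]
      refine Finset.sum_congr rfl fun u _ => ?_
      rw [LinearMap.smul_apply, AlternatingMap.map_update_smul]

theorem mem_stab {B : M →ₗ[K] M →ₗ[K] K} {W : Submodule K (M [⋀^Fin r]→ₗ[K] K)}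
    {X : Module.End K M} : X ∈ stab B W ↔ (∀ x y, B (X x) y + B x (X y) = 0) ∧ ∀ ω ∈ W, ∃ ω' ∈ W,
      ∀ v : Fin r → M, ω' v = ∑ u, ω (Function.update v u (X (v u))) := Iff.rfl

private theorem stba_dd (ω : M [⋀^Fin r]→ₗ[K] K) (P Q : M → M) (v : Fin r → M) :
    ∑ w, ∑ u, ω (Function.update (Function.update v w (P (v w))) u
        (Q (Function.update v w (P (v w)) u))) =
      ∑ w, ω (Function.update v w (Q (P (v w)))) +
        ∑ w, ∑ u ∈ Finset.univ.erase w,
          ω (Function.update (Function.update v w (P (v w))) u (Q (v u))) := by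
  rw [← Finset.sum_add_distrib]
  refine Finset.sum_congr rfl fun w _ => ?_
  rw [← Finset.add_sum_erase Finset.univ _ (Finset.mem_univ w), Function.update_self,
    Function.update_idem]
  congr 1
  refine Finset.sum_congr rfl fun u hu => ?_
  rw [Function.update_of_ne (Finset.ne_of_mem_erase hu)]

private theorem stba_off (ω : M [⋀^Fin r]→ₗ[K] K) (P Q : M → M) (v : Fin r → M) :
    ∑ w, ∑ u ∈ Finset.univ.erase w,
        ω (Function.update (Function.update v w (P (v w))) u (Q (v u))) =
      ∑ w, ∑ u ∈ Finset.univ.erase w,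
        ω (Function.update (Function.update v w (Q (v w))) u (P (v u))) := by
  rw [Finset.sum_comm' (t' := Finset.univ) (s' := fun u => Finset.univ.erase u) (by
    intro x y
    simp only [Finset.mem_univ, Finset.mem_erase, true_and, and_true]
    exact ne_comm)]
  refine Finset.sum_congr rfl fun w _ => Finset.sum_congr rfl fun u hu => ?_
  rw [Function.update_comm (Finset.ne_of_mem_erase hu)]

private theorem stba_comm (ω : M [⋀^Fin r]→ₗ[K] K) (P Q : M → M) (v : Fin r → M) :
    ∑ w, ∑ u, ω (Function.update (Function.update v w (P (v w))) u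
        (Q (Function.update v w (P (v w)) u))) -
      ∑ w, ∑ u, ω (Function.update (Function.update v w (Q (v w))) u
        (P (Function.update v w (Q (v w)) u))) =
      ∑ w, ω (Function.update v w (Q (P (v w)) - P (Q (v w)))) := by
  rw [stba_dd, stba_dd, stba_off ω P Q v, add_sub_add_right_eq_sub, ← Finset.sum_sub_distrib]
  refine Finset.sum_congr rfl fun w _ => ?_
  rw [AlternatingMap.map_update_sub]

theorem stab_lie (B : M →ₗ[K] M →ₗ[K] K) (W : Submodule K (M [⋀^Fin r]→ₗ[K] K)) :
    ∀ X ∈ stab B W, ∀ Y ∈ stab B W, X * Y - Y * X ∈ stab B W := by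
  rintro X ⟨hX1, hX2⟩ Y ⟨hY1, hY2⟩
  refine ⟨fun x y => ?_, fun ω hω => ?_⟩
  · have e1 : (X * Y - Y * X) x = X (Y x) - Y (X x) := rfl
    have e2 : (X * Y - Y * X) y = X (Y y) - Y (X y) := rfl
    rw [e1, e2, map_sub, map_sub, LinearMap.sub_apply]
    linear_combination hX1 (Y x) y - hY1 (X x) y - hY1 x (X y) + hX1 x (Y y)
  · obtain ⟨ω1, h1, h1'⟩ := hY2 ω hω
    obtain ⟨ω2, h2, h2'⟩ := hX2 ω hω
    obtain ⟨ω3, h3, h3'⟩ := hX2 ω1 h1
    obtain ⟨ω4, h4, h4'⟩ := hY2 ω2 h2
    refine ⟨ω4 - ω3, W.sub_mem h4 h3, fun v => ?_⟩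
    rw [AlternatingMap.sub_apply, h4', h3']
    simp only [h1', h2']
    rw [stba_comm ω (fun z => Y z) (fun z => X z) v]
    rfl

theorem stab_nab {D : K → K} (hDa : ∀ a b, D (a + b) = D a + D b) {nab : M →+ M}
    (B : M →ₗ[K] M →ₗ[K] K) (flat : ∀ x y, D (B x y) = B (nab x) y + B x (nab y))
    (W : Submodule K (M [⋀^Fin r]→ₗ[K] K))
    (hW : ∀ ω ∈ W, ∃ ω' ∈ W, ∀ v : Fin r → M,
      ω' v = D (ω v) - ∑ u, ω (Function.update v u (nab (v u))))
    (X : Module.End K M) (hX : X ∈ stab B W) (X' : Module.End K M)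
    (h : ∀ x, X' x = nab (X x) - X (nab x)) : X' ∈ stab B W := by
  obtain ⟨hX1, hX2⟩ := hX
  have hD0 : D 0 = 0 := by
    have := hDa 0 0
    rw [add_zero] at this
    exact left_eq_add.1 this
  have hDs : ∀ g : Fin r → K, D (∑ u, g u) = ∑ u, D (g u) := fun g =>
    map_sum (AddMonoidHom.mk' D hDa) g Finset.univ
  refine ⟨fun x y => ?_, fun ω hω => ?_⟩
  · rw [h, h, map_sub, map_sub, LinearMap.sub_apply]
    have e1 := flat (X x) y
    have e2 := flat x (X y)
    have e3 := hX1 (nab x) y
    have e4 := hX1 x (nab y)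
    have e5 : D (B (X x) y) + D (B x (X y)) = 0 := by
      rw [← hDa, hX1, hD0]
    linear_combination e5 - e1 - e2 - e3 - e4
  · obtain ⟨ω1, h1, h1'⟩ := hX2 ω hω
    obtain ⟨ω2, h2, h2'⟩ := hW ω1 h1
    obtain ⟨ω3, h3, h3'⟩ := hW ω hω
    obtain ⟨ω4, h4, h4'⟩ := hX2 ω3 h3
    refine ⟨ω2 - ω4, W.sub_mem h2 h4, fun v => ?_⟩
    rw [AlternatingMap.sub_apply, h2', h4']
    simp only [h1', h3']
    rw [hDs, Finset.sum_sub_distrib, sub_sub_sub_cancel_left,
      stba_comm ω (fun z => X z) (fun z => nab z) v]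
    simp only [h]

end MPadcBN
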