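import Pool.Agent.Lib.MP_adc574_ag_BN.OrdA
import Pool.Agent.Lib.MP_adc574_ag_BN.OrdB
import Pool.Agent.Lib.MP_adc574_ag_BN.OrdC
import Pool.Agent.Lib.MP_adc574_ag_BN.StbA
import Pool.Agent.Lib.MP_adc574_ag_BN.Rat
import Pool.Agent.Lib.MP_adc574_ag_BN.Dens
import Pool.Agent.Lib.MP_adc574_ag_LZ.IrrP

/-!
# The commutant (helper90)
-/

set_option autoImplicit false

namespace MPadcBN

open MPadcLZ MPadcHM

universe u

variable {κ : Type u} [Field κ] [CharZero κ] {Mo : Type u} [AddCommGroup Mo]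
  [Module (RatFunc κ) Mo] [Module (Polynomial κ) Mo] [IsScalarTower (Polynomial κ) (RatFunc κ) Mo]
  {nab : Mo →+ Mo} {n : ℕ}

/-- The local condition: the residue is in the span of `G`. -/
def LocN (b : Module.Basis (Fin n) (RatFunc κ) Mo) (nab : Mo →+ Mo) (τ : κ) (S : Lc (Fin n) κ) :
    Prop :=
  S.Ok ∧ S.α = 0 ∧
    ∀ i k, algebraMap (PowerSeries κ) (FractionRing (PowerSeries κ)) PowerSeries.X *
      jt τ (b.repr (nab (b k)) i) =
        algebraMap (PowerSeries κ) (FractionRing (PowerSeries κ)) (S.Γ i k)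

/-- The residue as a vector over the field of Laurent series. -/
noncomputable def resv (S : Lc (Fin n) κ) : Fin n × Fin n → FractionRing (PowerSeries κ) :=
  fun p => algebraMap (PowerSeries κ) (FractionRing (PowerSeries κ)) (S.a p.1 * S.l p.2)

theorem mt_mul (b : Module.Basis (Fin n) (RatFunc κ) Mo) (X Y : Module.End (RatFunc κ) Mo)
    (i k : Fin n) : mt b (X * Y) (i, k) = ∑ m, mt b X (i, m) * mt b Y (m, k) := by
  change b.repr (X (Y (b k))) i = _
  rw [repr_e b X (Y (b k)) i]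
  rfl

theorem com_span {τ : κ} {b : Module.Basis (Fin n) (RatFunc κ) Mo}
    {G : Submodule (RatFunc κ) (Module.End (RatFunc κ) Mo)} {y : Module.End (RatFunc κ) Mo}
    (hy : ∀ X ∈ G, y * X = X * y) (v : Fin n × Fin n → FractionRing (PowerSeries κ))
    (hv : v ∈ spanL (jt τ) (G.map (mt b))) (i k : Fin n) :
    ∑ m, jt τ (mt b y (i, m)) * v (m, k) = ∑ m, v (i, m) * jt τ (mt b y (m, k)) := by
  unfold spanL at hv
  induction hv using Submodule.span_induction with
  | mem v hv =>
    obtain ⟨x, ⟨X, hX, rfl⟩, rfl⟩ := hv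
    have h1 := congrArg (fun z => jt τ (mt b z (i, k))) (hy X hX)
    simp only [mt_mul, map_sum, map_mul] at h1
    exact h1
  | zero => simp
  | add v w _ _ hv hw =>
    simp only [Pi.add_apply, mul_add, add_mul, Finset.sum_add_distrib]
    rw [hv, hw]
  | smul c v _ hv =>
    have h1 : ∑ m, jt τ (mt b y (i, m)) * (c • v) (m, k) =
        c * ∑ m, jt τ (mt b y (i, m)) * v (m, k) := by
      rw [Finset.mul_sum]
      refine Finset.sum_congr rfl fun m _ => ?_
      rw [Pi.smul_apply, smul_eq_mul]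
      ring
    have h2 : ∑ m, (c • v) (i, m) * jt τ (mt b y (m, k)) =
        c * ∑ m, v (i, m) * jt τ (mt b y (m, k)) := by
      rw [Finset.mul_sum]
      refine Finset.sum_congr rfl fun m _ => ?_
      rw [Pi.smul_apply, smul_eq_mul]
      ring
    rw [h1, h2, hv]

theorem com_nab (G : Submodule (RatFunc κ) (Module.End (RatFunc κ) Mo))
    (hG : ∀ X ∈ G, ∃ X' ∈ G, ∀ x, X' x = nab (X x) - X (nab x))
    {y y' : Module.End (RatFunc κ) Mo} (hy : ∀ X ∈ G, y * X = X * y)
    (h : ∀ x, y' x = nab (y x) - y (nab x)) : ∀ X ∈ G, y' * X = X * y' := by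
  intro X hX
  obtain ⟨X', hX', hXX⟩ := hG X hX
  have h1 : ∀ z, y (X z) = X (y z) := fun z => LinearMap.congr_fun (hy X hX) z
  have h2 : ∀ z, y (X' z) = X' (y z) := fun z => LinearMap.congr_fun (hy X' hX') z
  refine LinearMap.ext fun x => ?_
  change y' (X x) = X (y' x)
  have h3 := h2 x
  rw [hXX, hXX, map_sub] at h3
  rw [h, h, map_sub, h1 x, ← h1 (nab x)]
  have h4 : y (nab (X x)) = nab (X (y x)) - X (nab (y x)) + y (X (nab x)) := by
    rw [← h3]
    abel
  rw [h4]
  abel

/-- The commutant of `G` is trivial. -/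
theorem comm_scalar [IsAlgClosed κ] [Module.Finite (RatFunc κ) Mo] [Nontrivial Mo]
    (leib : ∀ (c : RatFunc κ) (x : Mo), nab (c • x) = DK κ c • x + c • nab x)
    {E : Submodule (Polynomial κ) Mo} (fg : E.FG)
    (spn : ∀ x : Mo, ∃ q : Polynomial κ, q ≠ 0 ∧ q • x ∈ E)
    (b : Module.Basis (Fin n) (RatFunc κ) Mo) (hb : LB E b)
    {s : ℕ} {ι : Type} [Fintype ι] {g : ι → Mo} {w : ι → ℤ} (hI : InfOk κ nab s g w)
    (B : Mo →ₗ[RatFunc κ] Mo →ₗ[RatFunc κ] RatFunc κ)
    (flat : ∀ x y, DK κ (B x y) = B (nab x) y + B x (nab y))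
    (hnd : ∀ x, (∀ y, B x y = 0) → x = 0)
    (irr : ∀ H' : Submodule (RatFunc κ) Mo, (∀ x ∈ H', nab x ∈ H') → H' = ⊥ ∨ H' = ⊤)
    (G : Submodule (RatFunc κ) (Module.End (RatFunc κ) Mo))
    (hG : ∀ X ∈ G, ∃ X' ∈ G, ∀ x, X' x = nab (X x) - X (nab x))
    (hloc : ∀ τ : κ, StabAt nab E τ ∨ ∃ S : Lc (Fin n) κ, LocN b nab τ S ∧
      resv S ∈ spanL (jt τ) (G.map (mt b)))
    (y : Module.End (RatFunc κ) Mo) (hy : ∀ X ∈ G, y * X = X * y) :
    ∃ c : RatFunc κ, y = c • 1 := by
  classical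
  obtain ⟨C₀, hC₀⟩ := ord_zero leib hI B flat hnd E fg spn
  -- the connection preserves the lattice of the commutant
  have hlat : ∀ y y' : Module.End (RatFunc κ) Mo, (∀ X ∈ G, y * X = X * y) →
      (∀ x ∈ E, y x ∈ E) → (∀ x, y' x = nab (y x) - y (nab x)) → ∀ x ∈ E, y' x ∈ E := by
    intro y y' hy hyE hy' x hx
    refine in_E E _ fun τ => ?_
    rcases hloc τ with hst | ⟨S, ⟨hS, -, hΓ⟩, hres⟩
    · exact lat_nab hyE hy' hst x hx
    · exact node_nab leib hb S hS hΓ hyE hy' (fun i k => com_span hy _ hres i k) x hx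
  have hmono : ∀ {C C' : ℤ} {y : Module.End (RatFunc κ) Mo}, C ≤ C' → OrdLe g w s C y →
      OrdLe g w s C' y := fun hC hy q x hx => inV_mono (by omega) (hy q x hx)
  have hdim : (Module.finrank (RatFunc κ) Mo : RatFunc κ) ≠ 0 :=
    Nat.cast_ne_zero.2 (Module.finrank_pos).ne'
  -- the claim for trace zero
  have hmain : ∀ (N : ℕ) (y : Module.End (RatFunc κ) Mo), (∀ X ∈ G, y * X = X * y) →
      (∀ x ∈ E, y x ∈ E) → LinearMap.trace (RatFunc κ) Mo y = 0 → OrdLe g w s (C₀ + N) y →
      y = 0 := by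
    intro N
    induction N with
    | zero =>
      intro y _ hyE _ hyO
      exact hC₀ y hyE (by simpa using hyO)
    | succ N ih =>
      intro y hy hyE hyt hyO
      obtain ⟨y', hy'⟩ := exists_com leib y
      have h0 : y' = 0 := by
        refine ih y' (com_nab G hG hy hy') (hlat y y' hy hyE hy') ?_ ?_
        · rw [tr_nab (DK κ) (fun a b => map_add _ a b) nab leib y y' hy', hyt, map_zero]
        · have h1 := ord_nab leib hI hyO hy'
          exact hmono (by push_cast; omega) h1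
      obtain ⟨a, ha⟩ := schur leib irr y (fun x => by
        have h1 := hy' x
        rw [h0, LinearMap.zero_apply] at h1
        exact sub_eq_zero.1 h1.symm)
      rw [ha, map_smul, LinearMap.trace_one, smul_eq_mul] at hyt
      rw [ha]
      rcases mul_eq_zero.1 hyt with h1 | h1
      · rw [h1, zero_smul]
      · exact absurd h1 hdim
  -- scaling
  have hscale : ∀ y : Module.End (RatFunc κ) Mo, (∀ X ∈ G, y * X = X * y) →
      LinearMap.trace (RatFunc κ) Mo y = 0 → y = 0 := by
    intro y hy hyt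
    obtain ⟨q, hq, hqE⟩ : ∃ q : Polynomial κ, q ≠ 0 ∧ ∀ x ∈ E, q • y x ∈ E := by
      obtain ⟨T, hT⟩ := fg
      choose q hq hqE using fun x : Mo => spn (y x)
      refine ⟨∏ x ∈ T, q x, Finset.prod_ne_zero_iff.2 fun x _ => hq x, fun x hx => ?_⟩
      rw [← hT] at hx
      induction hx using Submodule.span_induction with
      | mem x hx =>
        rw [← Finset.prod_erase_mul T q hx, mul_smul]
        exact E.smul_mem _ (hqE x)
      | zero => rw [map_zero, smul_zero]; exact E.zero_mem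
      | add u v _ _ hu hv => rw [map_add, smul_add]; exact E.add_mem hu hv
      | smul c v _ hv =>
        have h1 : y (c • v) = c • y v := by
          rw [← algebraMap_smul (RatFunc κ) c v, map_smul, algebraMap_smul]
        rw [h1, smul_comm]
        exact E.smul_mem _ hv
    let z : Module.End (RatFunc κ) Mo := algebraMap (Polynomial κ) (RatFunc κ) q • y
    have hq' : algebraMap (Polynomial κ) (RatFunc κ) q ≠ 0 := by
      rw [Ne, map_eq_zero_iff _ (RatFunc.algebraMap_injective κ)]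
      exact hq
    have hz0 : z = 0 := by
      obtain ⟨C, hC⟩ := ord_exists hI z
      refine hmain (C - C₀).toNat z (fun X hX => ?_) (fun x hx => ?_) ?_ (hmono ?_ hC)
      · rw [smul_mul_assoc, hy X hX, mul_smul_comm]
      · change algebraMap (Polynomial κ) (RatFunc κ) q • y x ∈ E
        rw [algebraMap_smul]
        exact hqE x hx
      · rw [map_smul, hyt, smul_zero]
      · have := Int.self_le_toNat (C - C₀)
        omega
    exact (smul_eq_zero.1 hz0).resolve_left hq'
  refine ⟨LinearMap.trace (RatFunc κ) Mo y / Module.finrank (RatFunc κ) Mo, ?_⟩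
  rw [← sub_eq_zero]
  apply hscale
  · intro X hX
    rw [sub_mul, mul_sub, hy X hX, smul_mul_assoc, mul_smul_comm, one_mul, mul_one]
  · rw [map_sub, map_smul, LinearMap.trace_one, smul_eq_mul, div_mul_cancel₀ _ hdim, sub_self]

end MPadcBN
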