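import Mathlib

/-!
# JOB Cns: subspaces stable under a derivation; the nilpotent part

`L` a field, `δ` additive with the Leibniz rule, `δ` acts coordinatewise on `L ^ s`; a vector is constant if `δ` kills its coordinates.

* `con_span`: a `δ`-stable subspace `T` is spanned by its constant vectors. Strong induction on the number of nonzero coordinates: claim: every `v ∈ T` is in the span `T'` of the constant vectors of `T`. Let `v ∈ T`, `v ≠ 0`. Among the nonzero vectors of `T` whose support is contained in the support of `v` choose one, `u`, of minimal support; divide by one of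
  its nonzero coordinates `u i₀`: `u i₀ = 1`. Then `δ u ∈ T` has support in the support of `u` and `(δ u) i₀ = δ 1 = 0`, so a smaller support: `δ u = 0` (minimality), `u` is constant. `v - v i₀ • u` has smaller support than `v` (contained in the support of `v`, without `i₀`), so is in `T'` by induction, and `v` also.
* `con_iff`: `→` clear. `←`: the annihilator `T^⊥ = {ψ | ∀ x ∈ T, ∑ ψ i * x i = 0}` is `δ`-stable (`∑ (δ ψ i) x i = δ (∑ ψ i x i) - ∑ ψ i δ x i = 0`), so it is spanned by constant vectors (`con_span`), so `∑ ψ i * v i = 0` for all `ψ ∈ T^⊥`, and so `v ∈ T` (double annihilator in `L ^ s`; e.g. with a projection onto `T`: `Submodule.exists_isCompl`, its complementary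
  projection `P` has rows in `T^⊥`, so `P v = 0`).
* `ln`: `Θ z = δ z + N z`, `N` constant. `NZ = {N z | z ∈ Z}` is a subspace (`Submodule.map` of `Matrix.mulVecLin`), `δ`-stable: `δ (N z) = N (δ z) = N (Θ z) - N (N z) = N (Θ z)`. By `con_span` it is enough to show that a constant vector `c = N z`, `z ∈ Z`, is in `Z`. `Z₁ = {z ∈ Z | N z = 0}` is `δ`-stable (`Θ = δ` on it).
  `Θ z ∈ Z₁`: `N (Θ z) = δ (N z) + N (N z) = δ c = 0`. Let `ψ` be constant and kill `Z₁`: `0 = ∑ ψ i * (Θ z) i = δ (∑ ψ i * z i) + ∑ ψ i * c i` and `∑ ψ i * c i` is constant, so `δ δ (∑ ψ i z i) = 0`, `hlog`: `δ (∑ ψ i z i) = 0`, so `∑ ψ i * c i = 0`. By `con_iff` `c ∈ Z₁ ≤ Z`.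
-/

set_option autoImplicit false

namespace MPadcBN

variable {L : Type*} [Field L] (δ : L →+ L) (hδ : ∀ a b, δ (a * b) = a * δ b + b * δ a)
  {s : Type*} [Fintype s]

include hδ

theorem con_span (T : Submodule L (s → L)) (hT : ∀ v ∈ T, (fun i => δ (v i)) ∈ T) :
    T = Submodule.span L {v | v ∈ T ∧ ∀ i, δ (v i) = 0} := by
  classical
  have hδ0 : δ 0 = 0 := map_zero δ
  have hδ1 : δ 1 = 0 := by
    have h := hδ 1 1
    rw [one_mul, one_mul] at h
    exact left_eq_add.1 h
  refine le_antisymm ?_ (Submodule.span_le.2 fun v hv => hv.1)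
  have claim : ∀ k : ℕ, ∀ v ∈ T, (Finset.univ.filter fun i => v i ≠ 0).card = k →
      v ∈ Submodule.span L {v | v ∈ T ∧ ∀ i, δ (v i) = 0} := by
    intro k
    induction k using Nat.strong_induction_on with
    | _ k ih =>
      intro v hv hk
      by_cases hv0 : v = 0
      · rw [hv0]
        exact Submodule.zero_mem _
      -- the nonzero vectors of `T` with support in the support of `v`
      have hex : ∃ m : ℕ, ∃ u ∈ T, u ≠ 0 ∧ (∀ i, v i = 0 → u i = 0) ∧
          (Finset.univ.filter fun i => u i ≠ 0).card = m := ⟨_, v, hv, hv0, fun i hi => hi, rfl⟩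
      obtain ⟨u, huT, hu0, huv, hum⟩ := Nat.find_spec hex
      have hmin := fun m (hm : m < Nat.find hex) => Nat.find_min hex hm
      obtain ⟨i₀, hi₀⟩ : ∃ i, u i ≠ 0 := by
        by_contra hcon
        push Not at hcon
        exact hu0 (funext hcon)
      have hwT : (u i₀)⁻¹ • u ∈ T := T.smul_mem _ huT
      have hw1 : ((u i₀)⁻¹ • u) i₀ = 1 := by
        rw [Pi.smul_apply, smul_eq_mul]
        exact inv_mul_cancel₀ hi₀
      have hwz : ∀ i, u i = 0 → ((u i₀)⁻¹ • u) i = 0 := by
        intro i hi
        rw [Pi.smul_apply, hi, smul_zero]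
      have hδw : ∀ i, δ (((u i₀)⁻¹ • u) i) = 0 := by
        by_contra hcon
        have hT' := hT _ hwT
        have hne : (fun i => δ (((u i₀)⁻¹ • u) i)) ≠ 0 := by
          intro h0
          apply hcon
          intro i
          exact congrFun h0 i
        refine hmin _ ?_ ⟨_, hT', hne, ?_, rfl⟩
        · rw [← hum]
          refine Finset.card_lt_card ?_
          rw [Finset.ssubset_iff_of_subset]
          · refine ⟨i₀, ?_, ?_⟩
            · rw [Finset.mem_filter]
              exact ⟨Finset.mem_univ _, hi₀⟩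
            · rw [Finset.mem_filter, not_and, not_not]
              intro _
              rw [hw1, hδ1]
          · intro i hi
            rw [Finset.mem_filter] at hi ⊢
            refine ⟨Finset.mem_univ _, fun hui => hi.2 ?_⟩
            rw [hwz i hui, hδ0]
        · intro i hi
          rw [hwz i (huv i hi), hδ0]
      have hwS : (u i₀)⁻¹ • u ∈ Submodule.span L {v | v ∈ T ∧ ∀ i, δ (v i) = 0} :=
        Submodule.subset_span ⟨hwT, hδw⟩
      have hvi₀ : v i₀ ≠ 0 := fun h => hi₀ (huv i₀ h)
      have hdT : v - v i₀ • ((u i₀)⁻¹ • u) ∈ T := T.sub_mem hv (T.smul_mem _ hwT)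
      have hdS : v - v i₀ • ((u i₀)⁻¹ • u) ∈ Submodule.span L {v | v ∈ T ∧ ∀ i, δ (v i) = 0} := by
        refine ih _ ?_ _ hdT rfl
        rw [← hk]
        refine Finset.card_lt_card ?_
        rw [Finset.ssubset_iff_of_subset]
        · refine ⟨i₀, ?_, ?_⟩
          · rw [Finset.mem_filter]
            exact ⟨Finset.mem_univ _, hvi₀⟩
          · rw [Finset.mem_filter, not_and, not_not]
            intro _
            rw [Pi.sub_apply, Pi.smul_apply, hw1, smul_eq_mul, mul_one, sub_self]
        · intro i hi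
          rw [Finset.mem_filter] at hi ⊢
          refine ⟨Finset.mem_univ _, fun hvi => hi.2 ?_⟩
          rw [Pi.sub_apply, Pi.smul_apply, hwz i (huv i hvi), hvi, smul_zero, sub_zero]
      have hfin := Submodule.add_mem _ hdS (Submodule.smul_mem _ (v i₀) hwS)
      rwa [sub_add_cancel] at hfin
  intro v hv
  exact claim _ v hv rfl

theorem con_iff (T : Submodule L (s → L)) (hT : ∀ v ∈ T, (fun i => δ (v i)) ∈ T) (v : s → L) :
    v ∈ T ↔ ∀ ψ : s → L, (∀ i, δ (ψ i) = 0) → (∀ x ∈ T, ∑ i, ψ i * x i = 0) →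
      ∑ i, ψ i * v i = 0 := by
  classical
  constructor
  · intro hv ψ _ hψ
    exact hψ v hv
  · intro h
    -- the annihilator
    let A : Submodule L (s → L) :=
      { carrier := {ψ | ∀ x ∈ T, ∑ i, ψ i * x i = 0}
        add_mem' := by
          intro a b ha hb x hx
          have h1 : ∑ i, (a + b) i * x i = ∑ i, a i * x i + ∑ i, b i * x i := by
            rw [← Finset.sum_add_distrib]
            exact Finset.sum_congr rfl fun i _ => by rw [Pi.add_apply, add_mul]
          rw [h1, ha x hx, hb x hx, add_zero]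
        zero_mem' := by
          intro x _
          exact Finset.sum_eq_zero fun i _ => by rw [Pi.zero_apply, zero_mul]
        smul_mem' := by
          intro c a ha x hx
          have h1 : ∑ i, (c • a) i * x i = c * ∑ i, a i * x i := by
            rw [Finset.mul_sum]
            exact Finset.sum_congr rfl fun i _ => by rw [Pi.smul_apply, smul_eq_mul, mul_assoc]
          rw [h1, ha x hx, mul_zero] }
    have hA : ∀ ψ ∈ A, (fun i => δ (ψ i)) ∈ A := by
      intro ψ hψ x hx
      have h1 : δ (∑ i, ψ i * x i) = 0 := by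
        rw [hψ x hx, map_zero]
      have h2 : ∑ i, ψ i * δ (x i) = 0 := hψ _ (hT x hx)
      rw [map_sum] at h1
      have h3 : ∑ i, δ (ψ i * x i) = ∑ i, ψ i * δ (x i) + ∑ i, δ (ψ i) * x i := by
        rw [← Finset.sum_add_distrib]
        refine Finset.sum_congr rfl fun i _ => ?_
        rw [hδ]
        ring
      rw [h3, h2, zero_add] at h1
      exact h1
    have hspan := con_span δ hδ A hA
    have hall : ∀ ψ ∈ A, ∑ i, ψ i * v i = 0 := by
      intro ψ hψ
      rw [hspan] at hψ
      induction hψ using Submodule.span_induction with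
      | mem x hx => exact h x hx.2 hx.1
      | zero => exact Finset.sum_eq_zero fun i _ => by rw [Pi.zero_apply, zero_mul]
      | add a b _ _ ha hb =>
        have h1 : ∑ i, (a + b) i * v i = ∑ i, a i * v i + ∑ i, b i * v i := by
          rw [← Finset.sum_add_distrib]
          exact Finset.sum_congr rfl fun i _ => by rw [Pi.add_apply, add_mul]
        rw [h1, ha, hb, add_zero]
      | smul c a _ ha =>
        have h1 : ∑ i, (c • a) i * v i = c * ∑ i, a i * v i := by
          rw [Finset.mul_sum]
          exact Finset.sum_congr rfl fun i _ => by rw [Pi.smul_apply, smul_eq_mul, mul_assoc]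
        rw [h1, ha, mul_zero]
    by_contra hvT
    obtain ⟨f, hfv, hf⟩ := Submodule.exists_le_ker_of_notMem hvT
    have hfx : ∀ x : s → L, f x = ∑ i, (f fun j => if i = j then 1 else 0) * x i := by
      intro x
      rw [LinearMap.pi_apply_eq_sum_univ f x]
      exact Finset.sum_congr rfl fun i _ => by rw [smul_eq_mul, mul_comm]
    apply hfv
    rw [hfx v]
    refine hall (fun i => f fun j => if i = j then 1 else 0) ?_
    intro x hx
    show ∑ i, (f fun j => if i = j then 1 else 0) * x i = 0
    rw [← hfx x]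
    exact hf hx

theorem ln (hlog : ∀ y, δ (δ y) = 0 → δ y = 0) (N : Matrix s s L) (hN : ∀ i k, δ (N i k) = 0)
    (Z : Submodule L (s → L)) (hZ : ∀ z ∈ Z, (fun i => δ (z i) + ∑ k, N i k * z k) ∈ Z)
    (h2 : ∀ z ∈ Z, N.mulVec (N.mulVec z) = 0) : ∀ z ∈ Z, N.mulVec z ∈ Z := by
  classical
  have hδ0 : δ 0 = 0 := map_zero δ
  have hmv : ∀ z : s → L, ∀ i, N.mulVec z i = ∑ k, N i k * z k := fun z i => rfl
  -- `δ` commutes with `N`
  have hδN : ∀ z : s → L, ∀ i, δ (N.mulVec z i) = N.mulVec (fun k => δ (z k)) i := by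
    intro z i
    rw [hmv, hmv, map_sum]
    refine Finset.sum_congr rfl fun k _ => ?_
    rw [hδ, hN, mul_zero, add_zero]
  have hθ : ∀ z ∈ Z, (fun i => δ (z i)) + N.mulVec z ∈ Z := by
    intro z hz
    exact hZ z hz
  have hNθ : ∀ z ∈ Z, N.mulVec ((fun i => δ (z i)) + N.mulVec z) = fun i => δ (N.mulVec z i) := by
    intro z hz
    rw [Matrix.mulVec_add, h2 z hz, add_zero]
    funext i
    rw [hδN]
  -- constant vectors
  have hconst : ∀ z ∈ Z, (∀ i, δ (N.mulVec z i) = 0) → N.mulVec z ∈ Z := by
    intro z hz hc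
    let Z₁ : Submodule L (s → L) := Z ⊓ LinearMap.ker N.mulVecLin
    have hmem : ∀ y, y ∈ Z₁ ↔ y ∈ Z ∧ N.mulVec y = 0 := by
      intro y
      rw [Submodule.mem_inf, LinearMap.mem_ker, Matrix.mulVecLin_apply]
    have hZ₁ : ∀ y ∈ Z₁, (fun i => δ (y i)) ∈ Z₁ := by
      intro y hy
      rw [hmem] at hy ⊢
      constructor
      · have := hθ y hy.1
        rwa [hy.2, add_zero] at this
      · funext i
        rw [← hδN, hy.2, Pi.zero_apply, hδ0]
    have hΘ : (fun i => δ (z i)) + N.mulVec z ∈ Z₁ := by
      rw [hmem]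
      refine ⟨hθ z hz, ?_⟩
      rw [hNθ z hz]
      funext i
      exact hc i
    have hin : N.mulVec z ∈ Z₁ := by
      rw [con_iff δ hδ Z₁ hZ₁]
      intro ψ hψ hkill
      have h1 := hkill _ hΘ
      have h3 : ∑ i, ψ i * ((fun i => δ (z i)) + N.mulVec z) i =
          δ (∑ i, ψ i * z i) + ∑ i, ψ i * N.mulVec z i := by
        rw [map_sum, ← Finset.sum_add_distrib]
        refine Finset.sum_congr rfl fun i _ => ?_
        rw [hδ, hψ, mul_zero, add_zero, Pi.add_apply, mul_add]
      rw [h3] at h1
      have h4 : δ (∑ i, ψ i * N.mulVec z i) = 0 := by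
        rw [map_sum]
        refine Finset.sum_eq_zero fun i _ => ?_
        rw [hδ, hψ, hc, mul_zero, mul_zero, add_zero]
      have h5 : δ (δ (∑ i, ψ i * z i)) = 0 := by
        have h6 := congrArg δ h1
        rw [map_add, h4, add_zero, hδ0] at h6
        exact h6
      rw [hlog _ h5, zero_add] at h1
      exact h1
    exact ((hmem _).1 hin).1
  -- the space `N Z`
  have hNZ : ∀ v ∈ Z.map N.mulVecLin, (fun i => δ (v i)) ∈ Z.map N.mulVecLin := by
    rintro v ⟨z, hz, rfl⟩
    refine ⟨_, hθ z hz, ?_⟩
    rw [Matrix.mulVecLin_apply, Matrix.mulVecLin_apply]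
    exact hNθ z hz
  have hspan := con_span δ hδ (Z.map N.mulVecLin) hNZ
  have hle : Z.map N.mulVecLin ≤ Z := by
    rw [hspan, Submodule.span_le]
    rintro v ⟨⟨z, hz, rfl⟩, hv⟩
    rw [Matrix.mulVecLin_apply] at hv ⊢
    exact hconst z hz hv
  intro z hz
  exact hle ⟨z, hz, Matrix.mulVecLin_apply N z⟩

end MPadcBN
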