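import Pool.Agent.Lib.MP_adc574_ag_LZ.LoA

/-!
# JOB Flt: flat basis of a regular connection over `κ⟦X⟧`; no logarithm

* `exists_flat`: `Y = ∑ Y_n X ^ n`, `Y_0 = 1`, `(n + 1) Y_(n+1) = - ∑_(m ≤ n) Γ_m Y_(n-m)` (strong recursion on `n`, e.g. a function `ℕ → Matrix s s κ` by `Nat.strongRec`, or define a sequence of matrices such that the coefficients are given by well-founded recursion, `PowerSeries.mk`). In the same way `Y'` with `derivative Y' = Y' Γ`, `Y'_0 = 1`.
  `derivative (Y' Y) = Y' Γ Y - Y' Γ Y = 0` and constant coefficient `1`, so `Y' * Y = 1` (a power series with derivative 0 is constant in characteristic 0: coefficients), and `Y * Y' = 1` (`Matrix.mul_eq_one_comm`).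
* `no_log`: `δ y = algebraMap X * DL y`. Let `c = δ y`, `δ c = 0`, so `DL c = 0`. `pole` (for `σ = Unit`) for `c`: if `c` is not integral `X ^ m c = z`, `m ≥ 1`, `z(0) ≠ 0`, `pole_theta`: `X z' = m z + X^m (X DL c) = m z`, constant coefficient: `m z(0) = 0`, contradiction. So `c` is integral, `c = algebraMap z`, `derivative z = 0`, so `z = C a`.
  `pole` for `y`: integral, `y = algebraMap z'`: `C a = X * derivative z'`, constant coefficient `a = 0`. Not integral: `X ^ m y = z`, `m ≥ 1`, `z(0) ≠ 0`: `X z' = m z + X ^ m C a`; constant coefficient: `0 = m z(0)`, contradiction.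
-/

set_option autoImplicit false

namespace MPadcBN

open PowerSeries MPadcLZ

variable {κ : Type*} [Field κ] [CharZero κ]

omit [CharZero κ] in
private theorem flt_seq {s : Type*} [Fintype s] [DecidableEq s] (Γ : Matrix s s κ⟦X⟧) :
    ∃ c : ℕ → Matrix s s κ, c 0 = 1 ∧ ∀ n : ℕ, c (n + 1) = -(((n : κ) + 1)⁻¹) •
      ∑ j ∈ Finset.range (n + 1), Γ.map (coeff (n - j)) * c j := by
  let F : (n : ℕ) → ((m : ℕ) → m < n → Matrix s s κ) → Matrix s s κ := fun n ih =>
    if n = 0 then 1 else -((n : κ)⁻¹) • ∑ j : Fin n, Γ.map (coeff (n - 1 - j)) * ih j j.2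
  have hfix : ∀ n, (wellFounded_lt (α := ℕ)).fix F n =
      F n fun m _ => (wellFounded_lt (α := ℕ)).fix F m := fun n => WellFounded.fix_eq _ F n
  refine ⟨fun n => (wellFounded_lt (α := ℕ)).fix F n, ?_, fun n => ?_⟩
  · show (wellFounded_lt (α := ℕ)).fix F 0 = 1
    rw [hfix 0]
    exact if_pos rfl
  · show (wellFounded_lt (α := ℕ)).fix F (n + 1) = _
    rw [hfix (n + 1), Finset.sum_range]
    have e : F (n + 1) (fun m _ => (wellFounded_lt (α := ℕ)).fix F m) =
        -(((n + 1 : ℕ) : κ)⁻¹) • ∑ j : Fin (n + 1), Γ.map (coeff (n + 1 - 1 - j)) *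
          (wellFounded_lt (α := ℕ)).fix F j := if_neg (Nat.succ_ne_zero n)
    rw [e, Nat.add_sub_cancel, Nat.cast_add, Nat.cast_one]

private theorem flt_sol {s : Type*} [Fintype s] [DecidableEq s] (Γ : Matrix s s κ⟦X⟧) :
    ∃ Y : Matrix s s κ⟦X⟧, (∀ i k, constantCoeff (Y i k) = (1 : Matrix s s κ) i k) ∧
      ∀ i k, derivative κ (Y i k) = -∑ m, Γ i m * Y m k := by
  obtain ⟨c, h0, hc⟩ := flt_seq Γ
  refine ⟨fun i k => PowerSeries.mk fun n => c n i k, fun i k => ?_, fun i k => ?_⟩
  · rw [← coeff_zero_eq_constantCoeff_apply, coeff_mk, h0]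
  · ext n
    rw [coeff_derivative, coeff_mk, hc n, map_neg, map_sum, Matrix.smul_apply, Matrix.sum_apply,
      smul_eq_mul]
    have hn : ((n : κ) + 1) ≠ 0 := Nat.cast_add_one_ne_zero n
    have e1 : ∀ m : s, coeff n (Γ i m * PowerSeries.mk fun n => c n m k) =
        ∑ j ∈ Finset.range (n + 1), coeff (n - j) (Γ i m) * c j m k := by
      intro m
      rw [mul_comm, coeff_mul, Finset.Nat.sum_antidiagonal_eq_sum_range_succ
        (fun a b => coeff a (PowerSeries.mk fun n => c n m k) * coeff b (Γ i m)) n]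
      refine Finset.sum_congr rfl fun j _ => ?_
      rw [coeff_mk, mul_comm]
    rw [Finset.sum_congr rfl fun m _ => e1 m, Finset.sum_comm]
    have e2 : ∀ j ∈ Finset.range (n + 1), (Γ.map (coeff (n - j)) * c j) i k =
        ∑ m, coeff (n - j) (Γ i m) * c j m k := by
      intro j _
      rw [Matrix.mul_apply]
      rfl
    rw [Finset.sum_congr rfl e2]
    field_simp

theorem exists_flat {s : Type*} [Fintype s] [DecidableEq s] (Γ : Matrix s s κ⟦X⟧) :
    ∃ Y Y' : Matrix s s κ⟦X⟧, Y * Y' = 1 ∧ Y' * Y = 1 ∧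
      ∀ i k, derivative κ (Y i k) = -∑ m, Γ i m * Y m k := by
  obtain ⟨Y, hY0, hY⟩ := flt_sol Γ
  obtain ⟨Z, hZ0, hZ⟩ := flt_sol (-Γ.transpose)
  have hYZ : Z.transpose * Y = 1 := by
    ext1 i k
    apply derivative.ext
    · rw [Matrix.mul_apply, map_sum]
      have e1 : ∀ m, derivative κ (Z.transpose i m * Y m k) =
          Z m i * (-∑ l, Γ m l * Y l k) + Y m k * ∑ l, Γ l m * Z l i := by
        intro m
        rw [Derivation.leibniz, hY m k, Matrix.transpose_apply, hZ m i, smul_eq_mul, smul_eq_mul]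
        congr 2
        rw [← Finset.sum_neg_distrib]
        refine Finset.sum_congr rfl fun l _ => ?_
        rw [Matrix.neg_apply, Matrix.transpose_apply]
        ring
      rw [Finset.sum_congr rfl fun m _ => e1 m, Finset.sum_add_distrib]
      have e2 : ∑ m, Z m i * (-∑ l, Γ m l * Y l k) = -∑ m, ∑ l, Z m i * Γ m l * Y l k := by
        rw [← Finset.sum_neg_distrib]
        refine Finset.sum_congr rfl fun m _ => ?_
        rw [mul_neg, Finset.mul_sum]
        congr 1
        exact Finset.sum_congr rfl fun l _ => by ring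
      have e3 : ∑ m, Y m k * ∑ l, Γ l m * Z l i = ∑ m, ∑ l, Z m i * Γ m l * Y l k := by
        rw [Finset.sum_comm]
        refine Finset.sum_congr rfl fun m _ => ?_
        rw [Finset.mul_sum]
        exact Finset.sum_congr rfl fun l _ => by ring
      rw [e2, e3, neg_add_cancel, Matrix.one_apply]
      split_ifs
      · rw [derivative_one]
      · rw [map_zero]
    · rw [Matrix.mul_apply, map_sum]
      have e1 : ∀ m, constantCoeff (Z.transpose i m * Y m k) =
          (1 : Matrix s s κ) m i * (1 : Matrix s s κ) m k := by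
        intro m
        rw [map_mul, Matrix.transpose_apply, hZ0, hY0]
      rw [Finset.sum_congr rfl fun m _ => e1 m, Finset.sum_eq_single i]
      · rw [Matrix.one_apply_eq, one_mul, Matrix.one_apply, Matrix.one_apply]
        split_ifs
        · rw [map_one]
        · rw [map_zero]
      · intro m _ hm
        rw [Matrix.one_apply_ne hm, zero_mul]
      · intro h0
        exact absurd (Finset.mem_univ i) h0
  exact ⟨Y, Z.transpose, mul_eq_one_comm.1 hYZ, hYZ, hY⟩

theorem no_log {L : Type*} [Field L] [Algebra κ⟦X⟧ L] [IsFractionRing κ⟦X⟧ L] {DL : L →+ L}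
    (hDL : IsDL κ DL) (y : L)
    (h : algebraMap κ⟦X⟧ L X * DL (algebraMap κ⟦X⟧ L X * DL y) = 0) :
    algebraMap κ⟦X⟧ L X * DL y = 0 := by
  have hinj : Function.Injective (algebraMap κ⟦X⟧ L) := IsFractionRing.injective κ⟦X⟧ L
  have hX0 : algebraMap κ⟦X⟧ L X ≠ 0 := by
    intro h0
    exact X_ne_zero (hinj (h0.trans (map_zero _).symm))
  obtain ⟨c, hc⟩ : ∃ c, c = algebraMap κ⟦X⟧ L X * DL y := ⟨_, rfl⟩
  rw [← hc] at h ⊢
  have hm0 : ∀ {m : ℕ}, 1 ≤ m → (m : κ) ≠ 0 := fun hm => Nat.cast_ne_zero.2 (by omega)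
  obtain ⟨z, hz⟩ : ∃ z : κ⟦X⟧, c = algebraMap κ⟦X⟧ L z := by
    rcases pole (F := κ) (fun _ : Unit => c) with ⟨Z, hZ⟩ | ⟨m, Z, hm, hZ, i, hi⟩
    · exact ⟨Z (), hZ ()⟩
    · exfalso
      apply hi
      have h1 := pole_theta hDL m c (Z i) (hZ i)
      rw [h, mul_zero, add_zero, ← map_natCast (algebraMap κ⟦X⟧ L), ← map_mul] at h1
      have h2 := congrArg (constantCoeff (R := κ)) (hinj h1)
      rw [map_mul, constantCoeff_X, zero_mul, map_mul, map_natCast] at h2
      exact (mul_eq_zero.1 h2.symm).resolve_left (hm0 hm)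
  have hdz : derivative κ z = 0 := by
    have h1 : DL c = 0 := (mul_eq_zero.1 h).resolve_left hX0
    rw [hz, hDL.alg] at h1
    exact hinj (h1.trans (map_zero _).symm)
  have hzC : z = C (constantCoeff z) := by
    apply derivative.ext
    · rw [hdz, derivative_C]
    · rw [constantCoeff_C]
  rcases pole (F := κ) (fun _ : Unit => y) with ⟨Z, hZ⟩ | ⟨m, Z, hm, hZ, i, hi⟩
  · have hy : y = algebraMap κ⟦X⟧ L (Z ()) := hZ ()
    rw [hy, hDL.alg, ← map_mul, hz] at hc
    have h2 := congrArg (constantCoeff (R := κ)) (hinj hc)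
    rw [map_mul, constantCoeff_X, zero_mul] at h2
    rw [hz, hzC, h2, map_zero, map_zero]
  · exfalso
    apply hi
    have h1 := pole_theta hDL m y (Z i) (hZ i)
    rw [← hc, hz, ← map_natCast (algebraMap κ⟦X⟧ L), ← map_mul, ← map_pow, ← map_mul,
      ← map_add] at h1
    have h2 := congrArg (constantCoeff (R := κ)) (hinj h1)
    rw [map_mul, constantCoeff_X, zero_mul, map_add, map_mul, map_natCast, map_mul, map_pow,
      constantCoeff_X, zero_pow (by omega), zero_mul, add_zero] at h2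
    exact (mul_eq_zero.1 h2.symm).resolve_left (hm0 hm)

end MPadcBN
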