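import Mathlib

/-!
# A Lie algebra in `sp(V)` containing a rank one element and generating `V` is `sp(V)`
-/

namespace MPadcBN

variable {L : Type*} [Field L] {V : Type*} [AddCommGroup V] [Module L V]

/-- The element `z ↦ B z x • y + B z y • x` of `sp(V)`. -/
def sq (B : V →ₗ[L] V →ₗ[L] L) (x y : V) : Module.End L V :=
  (B.flip x).smulRight y + (B.flip y).smulRight x

theorem sq_apply (B : V →ₗ[L] V →ₗ[L] L) (x y z : V) :
    sq B x y z = B z x • y + B z y • x := by
  simp [sq]

theorem sq_comm (B : V →ₗ[L] V →ₗ[L] L) (x y : V) : sq B x y = sq B y x := by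
  ext z; simp only [sq_apply]; abel

theorem sq_add_left (B : V →ₗ[L] V →ₗ[L] L) (x x' y : V) :
    sq B (x + x') y = sq B x y + sq B x' y := by
  ext z; simp only [sq_apply, LinearMap.add_apply, map_add, add_smul, smul_add]; abel

theorem sq_add_right (B : V →ₗ[L] V →ₗ[L] L) (x y y' : V) :
    sq B x (y + y') = sq B x y + sq B x y' := by
  rw [sq_comm, sq_add_left, sq_comm B y, sq_comm B y']

theorem sq_smul_left (B : V →ₗ[L] V →ₗ[L] L) (c : L) (x y : V) :
    sq B (c • x) y = c • sq B x y := by
  ext z
  simp only [sq_apply, LinearMap.smul_apply, map_smul, smul_add, smul_smul, smul_eq_mul]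
  rw [mul_comm (B z y) c]

theorem sq_smul_right (B : V →ₗ[L] V →ₗ[L] L) (c : L) (x y : V) :
    sq B x (c • y) = c • sq B x y := by
  rw [sq_comm, sq_smul_left, sq_comm]

theorem skew_of_alt (B : V →ₗ[L] V →ₗ[L] L) (halt : ∀ x, B x x = 0) (x y : V) :
    B x y = - B y x := by
  have h := halt (x + y)
  simp only [map_add, LinearMap.add_apply, halt, zero_add, add_zero] at h
  exact eq_neg_of_add_eq_zero_right h

theorem br_sq (B : V →ₗ[L] V →ₗ[L] L) (X : Module.End L V)
    (hX : ∀ x y, B (X x) y + B x (X y) = 0) (x y : V) :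
    X * sq B x y - sq B x y * X = sq B (X x) y + sq B x (X y) := by
  ext z
  have h1 : B (X z) x = - B z (X x) := eq_neg_of_add_eq_zero_left (hX z x)
  have h2 : B (X z) y = - B z (X y) := eq_neg_of_add_eq_zero_left (hX z y)
  simp only [LinearMap.sub_apply, LinearMap.add_apply, Module.End.mul_apply, sq_apply, map_add,
    map_smul, h1, h2, neg_smul]
  abel

section words

variable (B : V →ₗ[L] V →ₗ[L] L) (g : Submodule L (Module.End L V)) (v : V)

/-- `B (v, X₁ ... Xₖ v)` -/
def be (l : List (Module.End L V)) : L := B v (l.prod v)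

variable {B g v}

theorem be_perm (k : ℕ) (hg : ∀ X ∈ g, ∀ Y ∈ g, X * Y - Y * X ∈ g)
    (hP : ∀ l : List (Module.End L V), (∀ X ∈ l, X ∈ g) → l.length < k → be B v l = 0)
    {l l' : List (Module.End L V)} (h : l.Perm l') :
    ∀ a : List (Module.End L V), (∀ X ∈ a, X ∈ g) → (∀ X ∈ l, X ∈ g) → a.length + l.length ≤ k →
      be B v (a ++ l) = be B v (a ++ l') := by
  induction h with
  | nil => intro a _ _ _; rfl
  | cons x h ih =>
    intro a ha hl hk
    have := ih (a ++ [x]) (by
      intro X hX
      rcases List.mem_append.1 hX with h | h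
      · exact ha X h
      · simp only [List.mem_singleton] at h
        subst h
        exact hl _ (by simp)) (fun X hX => hl X (by simp [hX])) (by
        simp only [List.length_append, List.length_cons, List.length_nil] at hk ⊢
        omega)
    simpa using this
  | swap x y l =>
    intro a ha hl hk
    have hx : x ∈ g := hl x (by simp)
    have hy : y ∈ g := hl y (by simp)
    have h0 : be B v (a ++ (y * x - x * y) :: l) = 0 := by
      apply hP
      · intro X hX
        rcases List.mem_append.1 hX with h | h
        · exact ha X h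
        · rcases List.mem_cons.1 h with h | h
          · rw [h]; exact hg y hy x hx
          · exact hl X (by simp [h])
      · simp only [List.length_append, List.length_cons] at hk ⊢
        omega
    have h1 : (a ++ (y * x - x * y) :: l).prod =
        (a ++ y :: x :: l).prod - (a ++ x :: y :: l).prod := by
      simp only [List.prod_append, List.prod_cons]
      noncomm_ring
    simp only [be] at h0 ⊢
    rw [h1, LinearMap.sub_apply, map_sub, sub_eq_zero] at h0
    exact h0
  | trans h1 h2 ih1 ih2 =>
    intro a ha hl hk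
    rw [ih1 a ha hl hk]
    apply ih2 a ha
    · intro X hX
      exact hl X (h1.mem_iff.2 hX)
    · rw [← h1.length_eq]; exact hk

theorem be_add (a l : List (Module.End L V)) (X Y : Module.End L V) (s : L) :
    be B v (a ++ (X + s • Y) :: l) = be B v (a ++ X :: l) + s * be B v (a ++ Y :: l) := by
  simp only [be, List.prod_append, List.prod_cons]
  simp only [Module.End.mul_apply, LinearMap.add_apply, LinearMap.smul_apply, map_add, map_smul,
    smul_eq_mul]

theorem be_poly (k : ℕ) (hg : ∀ X ∈ g, ∀ Y ∈ g, X * Y - Y * X ∈ g)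
    (hP : ∀ l : List (Module.End L V), (∀ X ∈ l, X ∈ g) → l.length < k → be B v l = 0)
    (X Y : Module.End L V) (hX : X ∈ g) (hY : Y ∈ g) (j : ℕ) :
    ∀ l : List (Module.End L V), (∀ X ∈ l, X ∈ g) → j + l.length ≤ k →
    ∃ p : Polynomial L, (∀ s : L, p.eval s = be B v (List.replicate j (X + s • Y) ++ l)) ∧
      p.coeff 0 = be B v (List.replicate j X ++ l) ∧
      p.coeff 1 = j * be B v (List.replicate (j - 1) X ++ Y :: l) := by
  induction j with
  | zero =>
    intro l _ _
    refine ⟨Polynomial.C (be B v l), fun s => by simp, by simp, by simp⟩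
  | succ j ih =>
    intro l hl hk
    obtain ⟨p1, hp1, hp10, hp11⟩ := ih (X :: l) (by
      intro Z hZ
      rcases List.mem_cons.1 hZ with h | h
      · rw [h]; exact hX
      · exact hl Z h) (by simp only [List.length_cons]; omega)
    obtain ⟨p2, hp2, hp20, hp21⟩ := ih (Y :: l) (by
      intro Z hZ
      rcases List.mem_cons.1 hZ with h | h
      · rw [h]; exact hY
      · exact hl Z h) (by simp only [List.length_cons]; omega)
    refine ⟨p1 + Polynomial.X * p2, ?_, ?_, ?_⟩
    · intro s
      have hXY : X + s • Y ∈ g := g.add_mem hX (g.smul_mem s hY)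
      rw [Polynomial.eval_add, Polynomial.eval_mul, Polynomial.eval_X, hp1, hp2, ← be_add]
      have hperm : (List.replicate j (X + s • Y) ++ (X + s • Y) :: l).Perm
          (List.replicate (j + 1) (X + s • Y) ++ l) := by
        rw [List.replicate_succ, List.cons_append]
        exact List.perm_middle
      have := be_perm k hg hP hperm [] (by simp) (by
        intro Z hZ
        rcases List.mem_append.1 hZ with h | h
        · rw [List.eq_of_mem_replicate h]; exact hXY
        · rcases List.mem_cons.1 h with h | h
          · rw [h]; exact hXY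
          · exact hl Z h) (by
          simp only [List.length_nil, List.length_append, List.length_replicate, List.length_cons]
          omega)
      simpa using this
    · rw [Polynomial.coeff_add, Polynomial.coeff_X_mul_zero, add_zero, hp10]
      rw [List.replicate_succ', List.append_assoc, List.singleton_append]
    · rw [Polynomial.coeff_add, show (1 : ℕ) = 0 + 1 from rfl, Polynomial.coeff_X_mul, zero_add,
        hp11, hp20]
      have h2 : (j : L) * be B v (List.replicate (j - 1) X ++ Y :: X :: l) =
          (j : L) * be B v (List.replicate j X ++ Y :: l) := by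
        rcases Nat.eq_zero_or_pos j with hj | hj
        · subst hj; simp
        · congr 1
          have hperm : (List.replicate (j - 1) X ++ Y :: X :: l).Perm
              (List.replicate j X ++ Y :: l) := by
            obtain ⟨i, rfl⟩ : ∃ i, j = i + 1 := ⟨j - 1, by omega⟩
            rw [Nat.add_sub_cancel, List.replicate_succ', List.append_assoc,
              List.singleton_append]
            exact List.Perm.append_left _ (List.Perm.swap _ _ _)
          have := be_perm k hg hP hperm [] (by simp) (by
            intro Z hZ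
            rcases List.mem_append.1 hZ with h | h
            · rw [List.eq_of_mem_replicate h]; exact hX
            · rcases List.mem_cons.1 h with h | h
              · rw [h]; exact hY
              · rcases List.mem_cons.1 h with h | h
                · rw [h]; exact hX
                · exact hl Z h) (by
              simp only [List.length_nil, List.length_append, List.length_replicate,
                List.length_cons]
              omega)
          simpa using this
      rw [h2, Nat.add_sub_cancel]
      push_cast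
      ring

theorem be_pol [CharZero L] (k : ℕ) (hg : ∀ X ∈ g, ∀ Y ∈ g, X * Y - Y * X ∈ g)
    (hP : ∀ l : List (Module.End L V), (∀ X ∈ l, X ∈ g) → l.length < k → be B v l = 0)
    (hd : ∀ X ∈ g, be B v (List.replicate k X) = 0) (m : ℕ) :
    m ≤ k → ∀ X ∈ g, ∀ l : List (Module.End L V), (∀ X ∈ l, X ∈ g) → l.length = m →
      be B v (List.replicate (k - m) X ++ l) = 0 := by
  induction m with
  | zero =>
    intro _ X hX l _ hm
    rw [List.length_eq_zero_iff.1 hm, List.append_nil, Nat.sub_zero]
    exact hd X hX
  | succ m ih =>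
    intro hmk X hX l hl hm
    obtain ⟨Y, l', rfl⟩ : ∃ Y l', l = Y :: l' := by
      cases l with
      | nil => simp at hm
      | cons Y l' => exact ⟨Y, l', rfl⟩
    have hY : Y ∈ g := hl Y (by simp)
    have hl' : ∀ Z ∈ l', Z ∈ g := fun Z hZ => hl Z (by simp [hZ])
    have hm' : l'.length = m := by simpa using hm
    obtain ⟨p, hp, _, hp1⟩ := be_poly k hg hP X Y hX hY (k - m) l' hl' (by omega)
    have hp0 : p = 0 := by
      apply Polynomial.funext
      intro s
      rw [hp s, Polynomial.eval_zero]
      exact ih (by omega) (X + s • Y) (g.add_mem hX (g.smul_mem s hY)) l' hl' hm'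
    rw [hp0, Polynomial.coeff_zero] at hp1
    have hne : ((k - m : ℕ) : L) ≠ 0 := by
      rw [Nat.cast_ne_zero]; omega
    have h0 := (mul_eq_zero.1 hp1.symm).resolve_left hne
    rw [show k - m - 1 = k - (m + 1) by omega] at h0
    exact h0

theorem adpow (hgsk : ∀ X ∈ g, ∀ x y, B (X x) y + B x (X y) = 0)
    (hg : ∀ X ∈ g, ∀ Y ∈ g, X * Y - Y * X ∈ g) (hvg : sq B v v ∈ g)
    (X : Module.End L V) (hX : X ∈ g) (m : ℕ) :
    ∑ ij ∈ Finset.HasAntidiagonal.antidiagonal m,
      m.choose ij.1 • sq B ((X ^ ij.1) v) ((X ^ ij.2) v) ∈ g := by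
  induction m with
  | zero => simpa using hvg
  | succ m ih =>
    have h := hg X hX _ ih
    have e : X * (∑ ij ∈ Finset.HasAntidiagonal.antidiagonal m,
        m.choose ij.1 • sq B ((X ^ ij.1) v) ((X ^ ij.2) v)) -
        (∑ ij ∈ Finset.HasAntidiagonal.antidiagonal m,
        m.choose ij.1 • sq B ((X ^ ij.1) v) ((X ^ ij.2) v)) * X =
        ∑ ij ∈ Finset.HasAntidiagonal.antidiagonal (m + 1),
      (m + 1).choose ij.1 • sq B ((X ^ ij.1) v) ((X ^ ij.2) v) := by
      rw [Finset.sum_antidiagonal_choose_succ_nsmul
        (fun i j => sq B ((X ^ i) v) ((X ^ j) v)) m]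
      rw [Finset.mul_sum, Finset.sum_mul, ← Finset.sum_sub_distrib, ← Finset.sum_add_distrib]
      apply Finset.sum_congr rfl
      intro ij hij
      have hs : m.choose ij.2 = m.choose ij.1 := by
        rw [← Finset.HasAntidiagonal.mem_antidiagonal.1 hij]
        exact (Nat.choose_symm_add).symm
      rw [hs, mul_smul_comm, smul_mul_assoc, ← smul_sub, br_sq B X (hgsk X hX), ← smul_add,
        pow_succ', pow_succ', Module.End.mul_apply, Module.End.mul_apply]
      rw [add_comm]
    rw [← e]
    exact h

theorem be_diag [CharZero L] (hgsk : ∀ X ∈ g, ∀ x y, B (X x) y + B x (X y) = 0)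
    (hg : ∀ X ∈ g, ∀ Y ∈ g, X * Y - Y * X ∈ g) (hvg : sq B v v ∈ g)
    (hbad : ∀ X ∈ g, B v (X v) = 0) (k : ℕ)
    (X : Module.End L V) (hX : X ∈ g) (hP : ∀ j < k, B v ((X ^ j) v) = 0) :
    B v ((X ^ k) v) = 0 := by
  have h := hbad _ (adpow hgsk hg hvg X hX (2 * k))
  rw [LinearMap.sum_apply, map_sum] at h
  rw [Finset.sum_eq_single (k, k)] at h
  · simp only [LinearMap.smul_apply, map_nsmul, sq_apply, map_add, map_smul, smul_eq_mul] at h
    have hne : (2 * k).choose k ≠ 0 := (Nat.choose_pos (by omega)).ne'
    have h2 := (smul_eq_zero.1 h).resolve_left hne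
    have h3 : (2 : L) * (B v ((X ^ k) v) * B v ((X ^ k) v)) = 0 := by linear_combination h2
    have h4 := (mul_eq_zero.1 h3).resolve_left two_ne_zero
    exact mul_self_eq_zero.1 h4
  · rintro ⟨i, j⟩ hij hne
    rw [Finset.HasAntidiagonal.mem_antidiagonal] at hij
    simp only at hij
    simp only [LinearMap.smul_apply, map_nsmul, sq_apply, map_add, map_smul, smul_eq_mul]
    have : i < k ∨ j < k := by
      by_contra hcon
      push Not at hcon
      apply hne
      have h1 : i = k := by omega
      have h2 : j = k := by omega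
      rw [h1, h2]
    rcases this with h1 | h1
    · rw [hP i h1]; simp
    · rw [hP j h1]; simp
  · intro hn
    exact absurd (Finset.HasAntidiagonal.mem_antidiagonal.2 (by simp; ring)) hn

theorem exists_good [CharZero L]
    (hnd : ∀ x, (∀ y, B x y = 0) → x = 0)
    (hg : ∀ X ∈ g, ∀ Y ∈ g, X * Y - Y * X ∈ g)
    (hgsk : ∀ X ∈ g, ∀ x y, B (X x) y + B x (X y) = 0) (hv : v ≠ 0) (hvg : sq B v v ∈ g)
    (hgen : ∀ M : Submodule L V, (∀ X ∈ g, ∀ x ∈ M, X x ∈ M) → v ∈ M → M = ⊤) :
    ∃ X ∈ g, B v (X v) ≠ 0 := by
  by_contra hcon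
  push Not at hcon
  have hP : ∀ k, ∀ l : List (Module.End L V), (∀ X ∈ l, X ∈ g) → l.length < k →
      be B v l = 0 := by
    intro k
    induction k with
    | zero => intro l _ h; omega
    | succ k ih =>
      intro l hl hk
      rcases Nat.lt_succ_iff_lt_or_eq.1 hk with h | h
      · exact ih l hl h
      · have h1 := be_pol k hg ih (fun X hX => by
          have h2 := be_diag hgsk hg hvg hcon k X hX (fun j hj => by
            have h3 := ih (List.replicate j X) (fun Z hZ => by
              rw [List.eq_of_mem_replicate hZ]; exact hX) (by simpa using hj)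
            simpa [be] using h3)
          simpa [be] using h2) k le_rfl (sq B v v) hvg l hl h
        simpa using h1
  let M : Submodule L V :=
    { carrier := {x | ∀ l : List (Module.End L V), (∀ X ∈ l, X ∈ g) → B v (l.prod x) = 0}
      add_mem' := by
        intro a b ha hb l hl
        rw [map_add, map_add, ha l hl, hb l hl, add_zero]
      zero_mem' := by intro l _; simp
      smul_mem' := by
        intro c x hx l hl
        rw [map_smul, map_smul, hx l hl, smul_zero] }
  have hM : M = ⊤ := by
    apply hgen M
    · intro X hX x hx l hl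
      have := hx (l ++ [X]) (by
        intro Z hZ
        rcases List.mem_append.1 hZ with h | h
        · exact hl Z h
        · rw [List.mem_singleton.1 h]; exact hX)
      simpa [List.prod_append, Module.End.mul_apply] using this
    · intro l hl
      exact hP (l.length + 1) l hl (by omega)
  apply hv
  apply hnd
  intro y
  have hy : y ∈ M := by rw [hM]; trivial
  have := hy [] (by simp)
  simpa using this

end words

theorem lie_sp {L : Type*} [Field L] [CharZero L] {V : Type*} [AddCommGroup V] [Module L V]
    (B : V →ₗ[L] V →ₗ[L] L) (halt : ∀ x, B x x = 0) (hnd : ∀ x, (∀ y, B x y = 0) → x = 0)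
    (g : Submodule L (Module.End L V)) (hg : ∀ X ∈ g, ∀ Y ∈ g, X * Y - Y * X ∈ g)
    (hsk : ∀ X ∈ g, ∀ x y, B (X x) y + B x (X y) = 0) (v : V) (hv : v ≠ 0)
    (hvg : sq B v v ∈ g)
    (hgen : ∀ M : Submodule L V, (∀ X ∈ g, ∀ x ∈ M, X x ∈ M) → v ∈ M → M = ⊤) :
    ∀ x y, sq B x y ∈ g := by
  obtain ⟨X0, hX0, hc⟩ := exists_good hnd hg hsk hv hvg hgen
  set u := X0 v with hu
  set c := B v u with hcdef
  -- brackets
  have br : ∀ X ∈ g, ∀ x y, sq B x y ∈ g → sq B (X x) y + sq B x (X y) ∈ g := by
    intro X hX x y hxy
    rw [← br_sq B X (hsk X hX)]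
    exact hg X hX _ hxy
  have two : (2 : L) ≠ 0 := two_ne_zero
  have half : ∀ Z : Module.End L V, Z + Z ∈ g → Z ∈ g := by
    intro Z hZ
    have : Z = (2 : L)⁻¹ • (Z + Z) := by
      rw [← two_smul L Z, smul_smul, inv_mul_cancel₀ two, one_smul]
    rw [this]
    exact g.smul_mem _ hZ
  have hvu : ∀ X ∈ g, sq B v (X v) ∈ g := by
    intro X hX
    apply half
    have := br X hX v v hvg
    rwa [sq_comm B (X v) v] at this
  have skew := skew_of_alt B halt
  have huv : B u v = - c := by rw [skew u v]
  have h1 : sq B v u ∈ g := hvu X0 hX0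
  -- u.u in g
  have huu : sq B u u ∈ g := by
    have hY := br X0 hX0 v u h1
    rw [← hu] at hY
    have hZ := hg _ h1 _ hY
    have e : sq B v u * (sq B u u + sq B v (X0 u)) - (sq B u u + sq B v (X0 u)) * sq B v u =
        (sq B (sq B v u u) u + sq B u (sq B v u u)) +
        (sq B (sq B v u v) (X0 u) + sq B v (sq B v u (X0 u))) := by
      rw [← br_sq B _ (hsk _ h1), ← br_sq B _ (hsk _ h1)]
      noncomm_ring
    rw [e] at hZ
    have e1 : sq B v u u = - (c • u) := by
      rw [sq_apply, huv, halt u]; simp
    have e2 : sq B v u v = c • v := by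
      rw [sq_apply, halt v, ← hcdef]; simp
    have e3 : B (X0 u) v = 0 := by
      have := hsk X0 hX0 u v
      rw [← hu, halt u, add_zero] at this
      exact this
    have e4 : sq B v u (X0 u) = B (X0 u) u • v := by
      rw [sq_apply, e3]; simp
    rw [e1, e2, e4, ← neg_smul, sq_smul_left, sq_smul_right, sq_smul_left, sq_smul_right] at hZ
    -- hZ : (-c • uu + -c • uu) + (c • v X0u + b • vv) in g
    have hfin : sq B u u = (-(3 * c))⁻¹ • ((((-c) • sq B u u + (-c) • sq B u u) +
        (c • sq B v (X0 u) + B (X0 u) u • sq B v v)) - c • (sq B u u + sq B v (X0 u)) -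
        B (X0 u) u • sq B v v) := by
      have h3c : -(3 * c) ≠ 0 := neg_ne_zero.2 (mul_ne_zero three_ne_zero hc)
      rw [eq_inv_smul_iff₀ h3c]
      module
    rw [hfin]
    exact g.smul_mem _ (g.sub_mem (g.sub_mem hZ (g.smul_mem _ hY)) (g.smul_mem _ hvg))
  -- the space T
  have key1 : ∀ y, sq B v y ∈ g → sq B u y ∈ g := by
    intro y hy
    have h := br _ huu v y hy
    have e1 : sq B u u v = (2 * c) • u := by
      rw [sq_apply, ← hcdef]; module
    have e2 : sq B u u y = (2 * B y u) • u := by
      rw [sq_apply]; module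
    rw [e1, e2, sq_smul_left, sq_smul_right] at h
    have h2c : (2 * c) ≠ 0 := mul_ne_zero two hc
    have : sq B u y = (2 * c)⁻¹ • (((2 * c) • sq B u y + (2 * B y u) • sq B v u) -
        (2 * B y u) • sq B v u) := by
      rw [add_sub_cancel_right, smul_smul, inv_mul_cancel₀ h2c, one_smul]
    rw [this]
    exact g.smul_mem _ (g.sub_mem h (g.smul_mem _ h1))
  have key2 : ∀ y, sq B v y ∈ g → sq B y y ∈ g := by
    intro y hy
    have h := br _ hy u y (key1 y hy)
    have e1 : sq B v y u = (-c) • y + B u y • v := by
      rw [sq_apply, huv]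
    have e2 : sq B v y y = B y v • y := by
      rw [sq_apply, halt y]; simp
    rw [e1, e2, sq_add_left, sq_smul_left, sq_smul_left, sq_smul_right] at h
    have hc' : -c ≠ 0 := neg_ne_zero.2 hc
    have : sq B y y = (-c)⁻¹ • (((-c) • sq B y y + B u y • sq B v y + B y v • sq B u y) -
        B u y • sq B v y - B y v • sq B u y) := by
      rw [eq_inv_smul_iff₀ hc']
      module
    rw [this]
    exact g.smul_mem _ (g.sub_mem (g.sub_mem h (g.smul_mem _ hy)) (g.smul_mem _ (key1 y hy)))
  have key3 : ∀ y y', sq B v y ∈ g → sq B v y' ∈ g → sq B y y' ∈ g := by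
    intro y y' hy hy'
    have h := key2 (y + y') (by rw [sq_add_right]; exact g.add_mem hy hy')
    apply half
    have e : sq B y y' + sq B y y' = sq B (y + y') (y + y') - sq B y y - sq B y' y' := by
      rw [sq_add_left, sq_add_right, sq_add_right, sq_comm B y' y]
      abel
    rw [e]
    exact g.sub_mem (g.sub_mem h (key2 y hy)) (key2 y' hy')
  let T : Submodule L V :=
    { carrier := {y | sq B v y ∈ g}
      add_mem' := by
        intro a b ha hb
        simp only [Set.mem_ofPred_eq] at ha hb ⊢
        rw [sq_add_right]; exact g.add_mem ha hb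
      zero_mem' := by
        have : sq B v 0 = 0 := by ext z; simp [sq_apply]
        simp only [Set.mem_ofPred_eq, this]
        exact g.zero_mem
      smul_mem' := by
        intro a x hx
        simp only [Set.mem_ofPred_eq] at hx ⊢
        rw [sq_smul_right]; exact g.smul_mem _ hx }
  have hT : T = ⊤ := by
    apply hgen T
    · intro X hX y hy
      have hy' : sq B v y ∈ g := hy
      have h := br X hX v y hy'
      have h2 := key3 (X v) y (hvu X hX) hy'
      have : sq B v (X y) = (sq B (X v) y + sq B v (X y)) - sq B (X v) y := by abel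
      change sq B v (X y) ∈ g
      rw [this]
      exact g.sub_mem h h2
    · exact hvg
  intro x y
  have hx : x ∈ T := by rw [hT]; trivial
  have hy : y ∈ T := by rw [hT]; trivial
  exact key3 x y hx hy

end MPadcBN
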