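import Pool.Agent.Lib.MP_adc574_ag_LZ.InfC

/-!
# JOB OrdA: endomorphisms with respect to the filtration at infinity

`InV κ s g w q x` (Intf, InfB). `OrdLe C y`: `y` maps `V_q` to `V_(q+C)` for all `q`.
* `ord_exists`: choose `q_i` with `InV q_i (y (g i))` (`hI.span`), `C = max (q_i + w i)`; `x = ∑ c_i g_i`: `inV_smul`, `inV_sum`.
* `ord_nab`: `x ∈ V_q`: `(s X) • nab x - q • x ∈ V_(q-1)` (`inV_nab`), so `y` of it is in `V_(q+C-1)`; `y x ∈ V_(q+C)`: `(s X) • nab (y x) - (q + C) • y x ∈ V_(q+C-1)`. Difference: `(s X) • y' x - C • y x ∈ V_(q+C-1)`, so `(s X) • y' x ∈ V_(q+C)`, divide by `s X` (`Bd s (-s) ((s X)⁻¹)`, see `inV_nab'`): `y' x ∈ V_(q+C-s) ⊆ V_(q+C-1)` (`s ≥ 1`).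
* `ord_zero`: (1) as in the proof of `inf_stable` (InfC): there is a bound `q₀ : ℤ` such that `x ∈ E`, `x ≠ 0`, `InV q x` imply `q₀ ≤ q` (copy that part of the proof: `B x (g i) ≠ 0` for some `i`, common denominator, `inf_form`, `bd_low`; its hypotheses are `leib`, `hI`, `flat`, `ndL`, `E.FG`). (2) `E` spans `Mo` over `κ(t)` (`spn`): finitely many generators `x_a ∈ E` of `E`, `x_a ∈ V_(q_a)`. If
  `OrdLe C y`, `y E ≤ E` and `C + q_a < q₀` for all `a`, then `y x_a ∈ E ∩ V_(q_a + C)` is `0`, so `y = 0` on `E`, and `y = 0` (`q • x ∈ E`, `q ≠ 0`).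
-/

set_option autoImplicit false

namespace MPadcBN

open MPadcLZ MPadcHM

universe u

variable {κ : Type u} [Field κ] [CharZero κ] {Mo : Type u} [AddCommGroup Mo]
  [Module (RatFunc κ) Mo] {nab : Mo →+ Mo}

section Inf

variable {s : ℕ} {ι : Type} [Fintype ι] (g : ι → Mo) (w : ι → ℤ)

/-- `y` maps `V_q` to `V_(q+C)`. -/
def OrdLe (s : ℕ) (C : ℤ) (y : Module.End (RatFunc κ) Mo) : Prop :=
  ∀ (q : ℤ) (x : Mo), InV κ s g w q x → InV κ s g w (q + C) (y x)

variable {g w}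

theorem ord_exists (hI : InfOk κ nab s g w) (y : Module.End (RatFunc κ) Mo) :
    ∃ C : ℤ, OrdLe g w s C y := by
  have hspan : ∀ i, ∃ q, InV κ s g w q (y (g i)) := fun i => hI.span (y (g i))
  choose q0 hq0 using hspan
  refine ⟨((∑ i, (q0 i + w i).toNat : ℕ) : ℤ), fun q x hx => ?_⟩
  have hC : ∀ i, InV κ s g w (-w i + ((∑ i, (q0 i + w i).toNat : ℕ) : ℤ)) (y (g i)) := by
    intro i
    refine inV_mono ?_ (hq0 i)
    have h1 : (q0 i + w i).toNat ≤ ∑ i, (q0 i + w i).toNat :=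
      Finset.single_le_sum (f := fun i => (q0 i + w i).toNat) (fun _ _ => Nat.zero_le _)
        (Finset.mem_univ i)
    have h2 : q0 i + w i ≤ ((q0 i + w i).toNat : ℤ) := Int.self_le_toNat _
    have h3 : (((q0 i + w i).toNat : ℕ) : ℤ) ≤ ((∑ i, (q0 i + w i).toNat : ℕ) : ℤ) := by
      exact_mod_cast h1
    omega
  obtain ⟨c, hc, hb⟩ := hx
  rw [hc, map_sum]
  refine inV_sum _ _ fun i _ => ?_
  rw [map_smul]
  exact inV_mono (by omega) (inV_smul (hb i) (hC i))

private theorem orda_alg {R M : Type*} [CommRing R] [AddCommGroup M] [Module R M]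
    (σ Q T : R) (a b x : M) :
    σ • a - (Q + T) • x - (σ • b - Q • x) = σ • (a - b) - T • x := by
  module

theorem ord_nab (leib : ∀ (c : RatFunc κ) (x : Mo), nab (c • x) = DK κ c • x + c • nab x)
    (hI : InfOk κ nab s g w) {C : ℤ} {y y' : Module.End (RatFunc κ) Mo} (hy : OrdLe g w s C y)
    (h : ∀ x, y' x = nab (y x) - y (nab x)) : OrdLe g w s (C - 1) y' := by
  intro q x hx
  have h1 := hy _ _ (inV_nab leib hI hx)
  rw [map_sub, map_smul, map_smul] at h1
  have h2 := inV_nab leib hI (hy _ _ hx)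
  have h3 := inV_sub (inV_mono (by omega : (q + C) - 1 ≤ q + C) h2)
    (inV_mono (by omega : (q - 1) + C ≤ q + C) h1)
  have h4 : ((s : RatFunc κ) * RatFunc.X) • nab (y x) - ((q + C : ℤ) : RatFunc κ) • y x -
      (((s : RatFunc κ) * RatFunc.X) • y (nab x) - (q : RatFunc κ) • y x) =
      ((s : RatFunc κ) * RatFunc.X) • y' x - (C : RatFunc κ) • y x := by
    rw [h, Int.cast_add]
    exact orda_alg _ _ _ _ _ _
  rw [h4] at h3
  have h5 := inV_smul (bd_int (κ := κ) (s := s) C) (hy _ _ hx)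
  rw [zero_add] at h5
  have h6 := inV_add h3 h5
  rw [sub_add_cancel] at h6
  have hs0 : ((s : ℕ) : RatFunc κ) ≠ 0 := by
    intro h0
    have h1 : algebraMap κ (RatFunc κ) ((s : ℕ) : κ) = 0 := by
      rw [map_natCast]
      exact h0
    have h2 : ((s : ℕ) : κ) = 0 := (algebraMap κ (RatFunc κ)).injective (by rw [h1, map_zero])
    have h3 := Nat.cast_eq_zero.1 h2
    have := hI.hs
    omega
  have hX0 : (RatFunc.X : RatFunc κ) ≠ 0 := RatFunc.X_ne_zero
  have hsX : ((s : RatFunc κ) * RatFunc.X) ≠ 0 := mul_ne_zero hs0 hX0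
  have hdeg : ((s : RatFunc κ) * RatFunc.X).intDegree = 1 := by
    have h1 : ((s : ℕ) : RatFunc κ) = RatFunc.C ((s : ℕ) : κ) := (map_natCast _ _).symm
    rw [RatFunc.intDegree_mul hs0 hX0, h1, RatFunc.intDegree_C, RatFunc.intDegree_X, zero_add]
  have h7 : Bd s (-(s : ℤ)) ((s : RatFunc κ) * RatFunc.X)⁻¹ := by
    right
    rw [RatFunc.intDegree_inv, hdeg]
    omega
  have h8 := inV_smul h7 h6
  rw [smul_smul, inv_mul_cancel₀ hsX, one_smul] at h8
  refine inV_mono ?_ h8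
  have := hI.hs
  omega

theorem ord_zero [Module (Polynomial κ) Mo] [IsScalarTower (Polynomial κ) (RatFunc κ) Mo]
    (leib : ∀ (c : RatFunc κ) (x : Mo), nab (c • x) = DK κ c • x + c • nab x)
    (hI : InfOk κ nab s g w) (B : Mo →ₗ[RatFunc κ] Mo →ₗ[RatFunc κ] RatFunc κ)
    (flat : ∀ x y, DK κ (B x y) = B (nab x) y + B x (nab y))
    (ndL : ∀ x, (∀ y, B x y = 0) → x = 0) (E : Submodule (Polynomial κ) Mo) (hfg : E.FG)
    (spn : ∀ x : Mo, ∃ q : Polynomial κ, q ≠ 0 ∧ q • x ∈ E) :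
    ∃ C₀ : ℤ, ∀ y : Module.End (RatFunc κ) Mo, (∀ x ∈ E, y x ∈ E) → OrdLe g w s C₀ y →
      y = 0 := by
  classical
  have h1 : ∀ x : Mo, x ≠ 0 → ∃ i, B x (g i) ≠ 0 := by
    intro x hx
    by_contra hcon
    simp only [not_exists, ne_eq, not_not] at hcon
    apply hx
    apply ndL
    intro y
    obtain ⟨q, c, hc, -⟩ := hI.span y
    rw [hc, map_sum]
    refine Finset.sum_eq_zero fun i _ => ?_
    rw [map_smul, hcon i, smul_zero]
  obtain ⟨S, hS⟩ := hfg
  obtain ⟨b, hb0, hb⟩ : ∃ b : Polynomial κ, b ≠ 0 ∧ ∀ x ∈ E, ∀ i, ∃ a : Polynomial κ,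
      algebraMap (Polynomial κ) (RatFunc κ) b * B x (g i) =
        algebraMap (Polynomial κ) (RatFunc κ) a := by
    obtain ⟨b, hb⟩ := IsLocalization.exist_integer_multiples_of_finset
      (nonZeroDivisors (Polynomial κ))
      ((S ×ˢ (Finset.univ : Finset ι)).image fun z => B z.1 (g z.2))
    refine ⟨b, nonZeroDivisors.ne_zero b.2, ?_⟩
    intro x hx
    rw [← hS] at hx
    refine Submodule.span_induction (p := fun x _ => ∀ i, ∃ a : Polynomial κ,
      algebraMap (Polynomial κ) (RatFunc κ) b * B x (g i) =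
        algebraMap (Polynomial κ) (RatFunc κ) a) ?_ ?_ ?_ ?_ hx
    · intro y hy i
      obtain ⟨a, ha⟩ := hb (B y (g i)) (Finset.mem_image.mpr ⟨(y, i),
        Finset.mem_product.mpr ⟨hy, Finset.mem_univ i⟩, rfl⟩)
      refine ⟨a, ?_⟩
      rw [ha, Algebra.smul_def]
    · intro i
      refine ⟨0, ?_⟩
      rw [map_zero, LinearMap.zero_apply, mul_zero, map_zero]
    · intro y z _ _ hy hz i
      obtain ⟨a, ha⟩ := hy i
      obtain ⟨a', ha'⟩ := hz i
      refine ⟨a + a', ?_⟩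
      rw [map_add, LinearMap.add_apply, mul_add, ha, ha', map_add]
    · intro p y _ hy i
      obtain ⟨a, ha⟩ := hy i
      refine ⟨p * a, ?_⟩
      rw [← algebraMap_smul (RatFunc κ) p y, map_smul, LinearMap.smul_apply, smul_eq_mul,
        mul_left_comm, ha, map_mul]
  have hbd : ∀ (q : ℤ) (x : Mo), x ∈ E → x ≠ 0 → InV κ s g w q x →
      -(∑ j, |w j|) - (s : ℤ) * b.natDegree ≤ q := by
    intro q x hxE hx0 hxq
    obtain ⟨i, hi⟩ := h1 x hx0
    obtain ⟨a, ha⟩ := hb x hxE i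
    have h2 := bd_low (inf_form leib hI B flat hxq (inV_gen i)) hi hb0 ha
    have h3 : |w i| ≤ ∑ j, |w j| :=
      Finset.single_le_sum (f := fun j => |w j|) (fun j _ => abs_nonneg (w j))
        (Finset.mem_univ i)
    have h4 : -|w i| ≤ w i := neg_abs_le (w i)
    omega
  -- bounds for the generators
  choose qq hqq using hI.span
  let M : ℤ := ∑ a ∈ S, |qq a|
  have hM : ∀ a ∈ S, InV κ s g w M a := by
    intro a ha
    refine inV_mono ?_ (hqq a)
    have h3 : |qq a| ≤ ∑ a ∈ S, |qq a| :=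
      Finset.single_le_sum (f := fun a => |qq a|) (fun j _ => abs_nonneg (qq j)) ha
    exact (le_abs_self _).trans h3
  refine ⟨-(∑ j, |w j|) - (s : ℤ) * b.natDegree - M - 1, fun y hyE hy => ?_⟩
  have hgen : ∀ a ∈ S, y a = 0 := by
    intro a ha
    by_contra hne
    have haE : a ∈ E := by
      rw [← hS]
      exact Submodule.subset_span ha
    have h5 := hbd _ _ (hyE a haE) hne (hy _ _ (hM a ha))
    omega
  have hE0 : ∀ x ∈ E, y x = 0 := by
    intro x hx
    rw [← hS] at hx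
    refine Submodule.span_induction (p := fun x _ => y x = 0) hgen (map_zero y) ?_ ?_ hx
    · intro u v _ _ hu hv
      rw [map_add, hu, hv, add_zero]
    · intro p u _ hu
      rw [← algebraMap_smul (RatFunc κ) p u, map_smul, hu, smul_zero]
  refine LinearMap.ext fun x => ?_
  obtain ⟨q, hq0, hqE⟩ := spn x
  have h6 := hE0 _ hqE
  rw [← algebraMap_smul (RatFunc κ) q x, map_smul] at h6
  rw [LinearMap.zero_apply]
  rcases smul_eq_zero.1 h6 with h7 | h7
  · exact absurd h7 (RatFunc.algebraMap_ne_zero hq0)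
  · exact h7

end Inf

end MPadcBN
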