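import Pool.Agent.Lib.MP_adc574_ag_BN.StbB

/-!
# JOB StbC: at a node the residue is in the stabiliser

`L = FractionRing κ⟦X⟧`, `jL = algebraMap κ⟦X⟧ L`, `DX` from `exists_DX` (LoD), `δ = jL X * DX`.
* `stab_node`: `mem_spanL_of_ker` with `P` = the set of the functionals on `Fin h × Fin h → K` of the two types (i) for `ω ∈ W` and `θ : (Fin r → Fin h) → K` with `∑ I, θ I * z I = 0` for all `z ∈ W.map (arr b)`: `φ` such that `∑ p, φ p * x p = ∑ I, θ I * (actM r (Matrix.of fun i k => x (i, k))).mulVec (arr b ω) I` (linear in `x`: `φ p` := value at `x = Pi.single p 1`; `actM_add`, `actM_smul`);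
  (ii) for `i k`: `∑ p, φ p * x p = ∑ m, (x (m, i) * B (b m) (b k) + B (b i) (b m) * x (m, k))`.
  `hg`: if `x` is killed by all of them, let `X` be the endomorphism with matrix `x` (`Matrix.toLin b b` or `(mt b)` is bijective); (ii) gives skewness (on the basis, bilinearity), (i) gives `(actM X) (arr b ω) ∈ W.map (arr b)` for `ω ∈ W` (double annihilator: `mem_spanL_iff` for `RingHom.id K`, `spanL (RingHom.id K) g = g`), `arr_dact`. So `x = mt b X ∈ (stab B W).map (mt b)`.
  `hv`: for `v p = jL (S.a p.1 * S.l p.2)`: (i) `∑ I, jt (θ I) * (actM r N_L).mulVec (jt ∘ arr b ω) I = 0` by `node_act` and `mem_spanL_iff` (the functional `φ` extended to `L`: both sides are linear in `x : Fin h × Fin h → L`, compare on `Pi.single p 1`, or expand both: `actM_mulVec`). (ii) `Lc.flat_B0` for the matrix `jt τ (B (b i) (b k))` (`coord_B`, `jt_DK`, `hΓ`; the determinant is the image of `gram_det`):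
  `∑ k, B_ik a_k = c l_i`, so `∑ m (a_m l_i B_mk + B_im a_m l_k) = - c l_k l_i + c l_i l_k = 0` (`halt`).
-/

set_option autoImplicit false

namespace MPadcBN

open MPadcLZ MPadcHM

universe u

variable {κ : Type u} [Field κ] [CharZero κ] {Mo : Type u} [AddCommGroup Mo]
  [Module (RatFunc κ) Mo] [Module (Polynomial κ) Mo] [IsScalarTower (Polynomial κ) (RatFunc κ) Mo]
  {nab : Mo →+ Mo} {h r : ℕ}

/-- the coefficient functional of the action -/
private def stbc_cf {R : Type*} [CommRing R] (θ z : (Fin r → Fin h) → R)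
    (p : Fin h × Fin h) : R :=
  ∑ I, θ I * ∑ u, if p.2 = I u then z (Function.update I u p.1) else 0

private theorem stbc_lin {R : Type*} [CommRing R] (θ z : (Fin r → Fin h) → R)
    (x : Fin h × Fin h → R) :
    ∑ p, stbc_cf θ z p * x p =
      ∑ I, θ I * (actM r (Matrix.of fun i k => x (i, k))).mulVec z I := by
  have h1 : ∀ p, stbc_cf θ z p * x p =
      ∑ I, θ I * ∑ u, if p.2 = I u then x p * z (Function.update I u p.1) else 0 := by
    intro p
    rw [stbc_cf, Finset.sum_mul]
    refine Finset.sum_congr rfl fun I _ => ?_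
    rw [mul_assoc, Finset.sum_mul]
    congr 1
    refine Finset.sum_congr rfl fun u _ => ?_
    split_ifs
    · ring
    · ring
  rw [Finset.sum_congr rfl fun p _ => h1 p, Finset.sum_comm]
  refine Finset.sum_congr rfl fun I _ => ?_
  rw [← Finset.mul_sum, actM_mulVec, Finset.sum_comm]
  congr 1
  refine Finset.sum_congr rfl fun u _ => ?_
  rw [Fintype.sum_prod_type]
  refine Finset.sum_congr rfl fun m _ => ?_
  rw [Finset.sum_ite_eq' Finset.univ (I u), if_pos (Finset.mem_univ _)]
  rfl

private theorem stbc_map {R R' : Type*} [CommRing R] [CommRing R'] (j : R →+* R')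
    (θ z : (Fin r → Fin h) → R) (p : Fin h × Fin h) :
    j (stbc_cf θ z p) = stbc_cf (fun I => j (θ I)) (fun I => j (z I)) p := by
  rw [stbc_cf, stbc_cf, map_sum]
  refine Finset.sum_congr rfl fun I _ => ?_
  rw [map_mul, map_sum]
  congr 1
  refine Finset.sum_congr rfl fun u _ => ?_
  split_ifs
  · rfl
  · exact map_zero j

/-- the skewness functional -/
private def stbc_sk {R : Type*} [CommRing R] (G : Fin h → Fin h → R) (i k : Fin h)
    (p : Fin h × Fin h) : R :=
  (if p.2 = i then G p.1 k else 0) + if p.2 = k then G i p.1 else 0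

private theorem stbc_sum {R : Type*} [CommRing R] (G : Fin h → Fin h → R) (i k : Fin h)
    (x : Fin h × Fin h → R) :
    ∑ p, stbc_sk G i k p * x p = (∑ m, G m k * x (m, i)) + ∑ m, G i m * x (m, k) := by
  rw [Fintype.sum_prod_type, ← Finset.sum_add_distrib]
  refine Finset.sum_congr rfl fun m _ => ?_
  have h1 : ∀ n, stbc_sk G i k (m, n) * x (m, n) =
      (if n = i then G m k * x (m, n) else 0) + if n = k then G i m * x (m, n) else 0 := by
    intro n
    simp only [stbc_sk]
    split_ifs <;> ring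
  rw [Finset.sum_congr rfl fun n _ => h1 n, Finset.sum_add_distrib,
    Finset.sum_ite_eq' Finset.univ i, Finset.sum_ite_eq' Finset.univ k,
    if_pos (Finset.mem_univ _), if_pos (Finset.mem_univ _)]

private theorem stbc_skmap {R R' : Type*} [CommRing R] [CommRing R'] (j : R →+* R')
    (G : Fin h → Fin h → R) (i k : Fin h) (p : Fin h × Fin h) :
    j (stbc_sk G i k p) = stbc_sk (fun i k => j (G i k)) i k p := by
  simp only [stbc_sk]
  rw [map_add]
  split_ifs <;> simp only [map_zero]

private theorem stbc_mt {K : Type*} [Field K] {M : Type*} [AddCommGroup M] [Module K M]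
    (b : Module.Basis (Fin h) K M) (x : Fin h × Fin h → K) :
    mt b (Matrix.toLin b b (Matrix.of fun i k => x (i, k))) = x := by
  funext p
  show b.repr (Matrix.toLin b b (Matrix.of fun i k => x (i, k)) (b p.2)) p.1 = x p
  rw [Matrix.toLin_self, b.repr_sum_self]
  rfl

/-- a matrix killed by all the functionals is in the stabiliser -/
private theorem stbc_ker {K : Type u} [Field K] {M : Type u} [AddCommGroup M] [Module K M]
    (b : Module.Basis (Fin h) K M) (B : M →ₗ[K] M →ₗ[K] K)
    (W : Submodule K (M [⋀^Fin r]→ₗ[K] K)) (x : Fin h × Fin h → K)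
    (h1 : ∀ ω ∈ W, ∀ θ : (Fin r → Fin h) → K, (∀ z ∈ W.map (arr b), ∑ I, θ I * z I = 0) →
      ∑ p, stbc_cf θ (arr b ω) p * x p = 0)
    (h2 : ∀ i k, ∑ p, stbc_sk (fun i k => B (b i) (b k)) i k p * x p = 0) :
    x ∈ (stab B W).map (mt b) := by
  refine Submodule.mem_map.2 ⟨Matrix.toLin b b (Matrix.of fun i k => x (i, k)), ?_, stbc_mt b x⟩
  rw [mem_stab]
  constructor
  · have h3 : B ∘ₗ Matrix.toLin b b (Matrix.of fun i k => x (i, k)) +
        B.compl₂ (Matrix.toLin b b (Matrix.of fun i k => x (i, k))) = 0 := by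
      refine b.ext fun i => b.ext fun k => ?_
      have h4 := h2 i k
      rw [stbc_sum] at h4
      show B (Matrix.toLin b b (Matrix.of fun i k => x (i, k)) (b i)) (b k) +
        B (b i) (Matrix.toLin b b (Matrix.of fun i k => x (i, k)) (b k)) = 0
      rw [Matrix.toLin_self, Matrix.toLin_self, map_sum, map_sum, LinearMap.sum_apply, ← h4]
      congr 1
      · refine Finset.sum_congr rfl fun m _ => ?_
        rw [map_smul, LinearMap.smul_apply, smul_eq_mul, mul_comm]
        rfl
      · refine Finset.sum_congr rfl fun m _ => ?_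
        rw [map_smul, smul_eq_mul, mul_comm]
        rfl
    intro y z
    exact congrArg (fun f : M →ₗ[K] M →ₗ[K] K => f y z) h3
  · intro ω hω
    have h3 : (actM r (Matrix.of fun i k => x (i, k))).mulVec (arr b ω) ∈ W.map (arr b) := by
      refine spanL_rat (RingHom.id K) _ _ ((mem_spanL_iff (RingHom.id K) _ _).2 fun ψ hψ => ?_)
      have h4 := h1 ω hω ψ hψ
      rw [stbc_lin] at h4
      exact h4
    obtain ⟨ω', hω', h5⟩ := Submodule.mem_map.1 h3
    refine ⟨ω', hω', (arr_dact b _ ω ω').2 ?_⟩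
    rw [h5, stbc_mt]

/-- the flatness of the pairing at a node gives skewness of the residue -/
private theorem stbc_skew (leib : ∀ (c : RatFunc κ) (x : Mo), nab (c • x) = DK κ c • x + c • nab x)
    (b : Module.Basis (Fin h) (RatFunc κ) Mo) (τ : κ) (S : Lc (Fin h) κ) (hS : S.Ok)
    (hα : S.α = 0)
    (hΓ : ∀ i k, algebraMap (PowerSeries κ) (FractionRing (PowerSeries κ)) PowerSeries.X *
        jt τ (b.repr (nab (b k)) i) =
          algebraMap (PowerSeries κ) (FractionRing (PowerSeries κ)) (S.Γ i k))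
    (B : Mo →ₗ[RatFunc κ] Mo →ₗ[RatFunc κ] RatFunc κ)
    (flat : ∀ x y, DK κ (B x y) = B (nab x) y + B x (nab y)) (halt : ∀ x y, B y x = -B x y)
    (hnd : ∀ x, (∀ y, B x y = 0) → x = 0) (i k : Fin h) :
    (∑ m, jt τ (B (b m) (b k)) * algebraMap (PowerSeries κ) (FractionRing (PowerSeries κ))
        (S.a m * S.l i)) +
      ∑ m, jt τ (B (b i) (b m)) * algebraMap (PowerSeries κ) (FractionRing (PowerSeries κ))
        (S.a m * S.l k) = 0 := by
  obtain ⟨DX, hDX⟩ := exists_DX κ
  obtain ⟨B1, c, -, hB1, hB2⟩ := Lc.flat_B0 hS hDX hα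
    (Matrix.of fun i k => jt τ (B (b i) (b k))) (by
      intro i k
      show algebraMap (PowerSeries κ) (FractionRing (PowerSeries κ)) PowerSeries.X *
        DX (jt τ (B (b i) (b k))) =
        (∑ m, algebraMap (PowerSeries κ) (FractionRing (PowerSeries κ)) (S.Γ m i) *
          jt τ (B (b m) (b k))) +
        ∑ m, jt τ (B (b i) (b m)) *
          algebraMap (PowerSeries κ) (FractionRing (PowerSeries κ)) (S.Γ m k)
      rw [jt_DK hDX, coord_B b B flat, map_add, map_sum, map_sum, mul_add, Finset.mul_sum,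
        Finset.mul_sum]
      congr 1
      · refine Finset.sum_congr rfl fun m _ => ?_
        rw [map_mul, ← mul_assoc, hΓ]
      · refine Finset.sum_congr rfl fun m _ => ?_
        rw [map_mul, mul_left_comm, hΓ]) (by
      have h1 : (Matrix.of fun i k => jt τ (B (b i) (b k))) =
          (Matrix.of fun i k => B (b i) (b k)).map (jt τ) := rfl
      rw [h1, ← RingHom.mapMatrix_apply, ← RingHom.map_det, Ne, map_eq_zero]
      exact gram_det b B hnd)
  have hrow : ∀ i, ∑ m, jt τ (B (b i) (b m)) *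
      algebraMap (PowerSeries κ) (FractionRing (PowerSeries κ)) (S.a m) =
      algebraMap (PowerSeries κ) (FractionRing (PowerSeries κ)) (PowerSeries.C c) *
        algebraMap (PowerSeries κ) (FractionRing (PowerSeries κ)) (S.l i) := by
    intro i
    rw [← map_mul, ← hB2 i, map_sum]
    refine Finset.sum_congr rfl fun m _ => ?_
    rw [map_mul, ← hB1 i m]
    rfl
  have e1 : ∑ m, jt τ (B (b m) (b k)) *
      algebraMap (PowerSeries κ) (FractionRing (PowerSeries κ)) (S.a m * S.l i) =
      -((∑ m, jt τ (B (b k) (b m)) *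
        algebraMap (PowerSeries κ) (FractionRing (PowerSeries κ)) (S.a m)) *
        algebraMap (PowerSeries κ) (FractionRing (PowerSeries κ)) (S.l i)) := by
    rw [Finset.sum_mul, ← Finset.sum_neg_distrib]
    refine Finset.sum_congr rfl fun m _ => ?_
    rw [halt (b k) (b m), map_neg, map_mul]
    ring
  have e2 : ∑ m, jt τ (B (b i) (b m)) *
      algebraMap (PowerSeries κ) (FractionRing (PowerSeries κ)) (S.a m * S.l k) =
      (∑ m, jt τ (B (b i) (b m)) *
        algebraMap (PowerSeries κ) (FractionRing (PowerSeries κ)) (S.a m)) *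
        algebraMap (PowerSeries κ) (FractionRing (PowerSeries κ)) (S.l k) := by
    rw [Finset.sum_mul]
    refine Finset.sum_congr rfl fun m _ => ?_
    rw [map_mul]
    ring
  rw [e1, e2, hrow, hrow]
  ring

theorem stab_node (leib : ∀ (c : RatFunc κ) (x : Mo), nab (c • x) = DK κ c • x + c • nab x)
    (b : Module.Basis (Fin h) (RatFunc κ) Mo) (τ : κ) (S : Lc (Fin h) κ) (hS : S.Ok)
    (hα : S.α = 0)
    (hΓ : ∀ i k, algebraMap (PowerSeries κ) (FractionRing (PowerSeries κ)) PowerSeries.X *
        jt τ (b.repr (nab (b k)) i) =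
          algebraMap (PowerSeries κ) (FractionRing (PowerSeries κ)) (S.Γ i k))
    (B : Mo →ₗ[RatFunc κ] Mo →ₗ[RatFunc κ] RatFunc κ)
    (flat : ∀ x y, DK κ (B x y) = B (nab x) y + B x (nab y)) (halt : ∀ x y, B y x = -B x y)
    (hnd : ∀ x, (∀ y, B x y = 0) → x = 0)
    (W : Submodule (RatFunc κ) (Mo [⋀^Fin r]→ₗ[RatFunc κ] RatFunc κ))
    (hW : ∀ ω ∈ W, ∃ ω' ∈ W, ∀ v : Fin r → Mo,
      ω' v = DK κ (ω v) - ∑ u, ω (Function.update v u (nab (v u)))) :
    (fun p : Fin h × Fin h => algebraMap (PowerSeries κ) (FractionRing (PowerSeries κ))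
      (S.a p.1 * S.l p.2)) ∈ spanL (jt τ) ((stab B W).map (mt b)) := by
  refine mem_spanL_of_ker (jt τ)
    {φ | (∃ ω ∈ W, ∃ θ : (Fin r → Fin h) → RatFunc κ,
      (∀ z ∈ W.map (arr b), ∑ I, θ I * z I = 0) ∧ φ = stbc_cf θ (arr b ω)) ∨
      ∃ i k, φ = stbc_sk (fun i k => B (b i) (b k)) i k} _ ?_ _ ?_
  · intro x hx
    refine stbc_ker b B W x ?_ ?_
    · intro ω hω θ hθ
      exact hx _ (Or.inl ⟨ω, hω, θ, hθ, rfl⟩)
    · intro i k
      exact hx _ (Or.inr ⟨i, k, rfl⟩)
  · rintro φ (⟨ω, hω, θ, hθ, rfl⟩ | ⟨i, k, rfl⟩)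
    · rw [Finset.sum_congr rfl fun p _ => by rw [stbc_map (jt τ) θ (arr b ω) p], stbc_lin]
      have h1 : (fun I => jt τ (arr b ω I)) ∈ spanL (jt τ) (W.map (arr b)) :=
        Submodule.subset_span ⟨arr b ω, Submodule.mem_map_of_mem hω, rfl⟩
      exact (mem_spanL_iff (jt τ) _ _).1 (node_act leib b τ S hS hα hΓ W hW _ h1) θ hθ
    · rw [Finset.sum_congr rfl fun p _ => by rw [stbc_skmap (jt τ) _ i k p], stbc_sum]
      exact stbc_skew leib b τ S hS hα hΓ B flat halt hnd i k

end MPadcBN
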