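import Pool.Agent.Lib.MP_adc574_ag_BM.LaA

/-!
# JOB Trv: transvections generate the symplectic group; stable spaces of alternating forms

`trv B s w x = x + (s * B x w) • w` (LaA). `B` alternating (`B y x = - B x y`) and nondegenerate, `H` finite dimensional.
* `trv_gen`: induction on `finrank H - finrank F`, `F = ker (g - 1)`. If `F = ⊤`, `g = id`. Otherwise `x ∉ F`. For `z ∈ F`: `B z (g x - x) = B (g z) (g x) - B z x = 0`.
  (1) If `B (g x) x ≠ 0`: `w = g x - x`, `s = (B (g x) x)⁻¹`: `trv B s w (g x) = g x + s * B (g x) (g x - x) • (g x - x) = g x - (g x - x) = x`, and `trv B s w` fixes `F`; so `g' = trv B s w ∘ g` is an isometry whose fixed space contains `F` and `x`; `P g'` by induction, `g = trv B (-s) w ∘ g'`.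
  (2) `B (g x) x = 0`. `F^⊥ = {v | ∀ z ∈ F, B z v = 0}`, `F^⊥⊥ = F` (finite dimension, nondegenerate; e.g. a functional on `H` which kills `F` but not `x` is `B · v` with `v ∈ F^⊥`, `B x v ≠ 0`; `g x ∉ F` also, so there is `v' ∈ F^⊥` with `B (g x) v' ≠ 0`). By `exists_avoid`-type argument (in `F^⊥` the subspaces `{B x v = 0}`, `{B (g x) v = 0}` are proper: one of `v`, `v'`, `v + v'`
  works) there is `v ∈ F^⊥` with `B x v ≠ 0`, `B (g x) v ≠ 0`. `y = x + v`. `B (g x) y = B (g x) v ≠ 0`, so (as in (1)) the transvection `t₁` with `w₁ = y - g x = v - (g x - x) ∈ F^⊥` maps `g x` to `y` and fixes `F`; `B y x = B v x ≠ 0`, the transvection `t₂` with `w₂ = x - y = - v` maps `y` to `x` and fixes `F`. So `t₂ ∘ t₁ ∘ g` fixes `F` and `x`.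
  General: if `B p q ≠ 0`, `w = q - p`, then `trv B s w p = q` for `s = (B p q)⁻¹`: `p + s * B p (q - p) • (q - p) = p + (q - p)`.
* `alt_trv`: `(ω.compLinearMap (trv B s w)) v = ω (fun u => v u + (s * B (v u) w) • w)`; expand (`MultilinearMap.map_add_univ` or induction): the terms with two or more entries `w` vanish, so it is `ω v + s * ∑ u, ω (update v u (B (v u) w • w))`. (A short way: `f(T) = ω (piecewise)` ; or show by induction on a finset `T ⊆ univ` that `ω (fun u => if u ∈ T then v u + c u • w else v u) = ω v + ∑ u ∈ T, c u * ω (update v u w)`.)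
* `alt_isom`: `trv_gen` with `P g = ∀ ω ∈ W, ω.compLinearMap g ∈ W` (`AlternatingMap.compLinearMap_comp`-type: `(ω.compLinearMap g).compLinearMap g' = ω.compLinearMap (g.comp g')`) and `alt_trv`.
-/

set_option autoImplicit false

namespace MPadcBN

open MPadcBM

variable {k : Type*} [Field k] {H : Type*} [AddCommGroup H] [Module k H] [Module.Finite k H]
  (B : H →ₗ[k] H →ₗ[k] k)

private theorem Trv_iso {k : Type*} [Field k] {H : Type*} [AddCommGroup H] [Module k H]
    (B : H →ₗ[k] H →ₗ[k] k) (halt : ∀ x y, B y x = -B x y) (h0 : ∀ x, B x x = 0) (s : k) (w : H)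
    (x y : H) : B (trv B s w x) (trv B s w y) = B x y := by
  rw [trv_apply, trv_apply]
  simp only [map_add, map_smul, LinearMap.add_apply, LinearMap.smul_apply, smul_eq_mul, h0 w]
  rw [halt y w]
  ring

private theorem Trv_inv {k : Type*} [Field k] {H : Type*} [AddCommGroup H] [Module k H]
    (B : H →ₗ[k] H →ₗ[k] k) (h0 : ∀ x, B x x = 0) (s : k) (w : H) :
    (trv B (-s) w).comp (trv B s w) = LinearMap.id := by
  apply LinearMap.ext
  intro x
  rw [LinearMap.comp_apply, trv_apply, trv_apply, LinearMap.id_apply]
  simp only [map_add, map_smul, LinearMap.add_apply, LinearMap.smul_apply, smul_eq_mul, h0 w]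
  rw [mul_zero, add_zero, neg_mul, neg_smul, add_neg_cancel_right]

/-- one transvection from `p` to `q` -/
private theorem Trv_one {k : Type*} [Field k] {H : Type*} [AddCommGroup H] [Module k H]
    (B : H →ₗ[k] H →ₗ[k] k) (halt : ∀ x y, B y x = -B x y) (h0 : ∀ x, B x x = 0)
    (P : (H →ₗ[k] H) → Prop) (htr : ∀ (s : k) (w : H), P (trv B s w)) (F : Submodule k H) (p q : H)
    (hpq : B p q ≠ 0) (hF : ∀ z ∈ F, B z (q - p) = 0) :
    ∃ h h' : H →ₗ[k] H, P h' ∧ (∀ x y, B (h x) (h y) = B x y) ∧ h'.comp h = LinearMap.id ∧
      (∀ z ∈ F, h z = z) ∧ h p = q := by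
  refine ⟨trv B (B p q)⁻¹ (q - p), trv B (-(B p q)⁻¹) (q - p), htr _ _, Trv_iso B halt h0 _ _,
    Trv_inv B h0 _ _, ?_, ?_⟩
  · intro z hz
    rw [trv_apply, hF z hz, mul_zero, zero_smul, add_zero]
  · rw [trv_apply, map_sub, h0 p, sub_zero, inv_mul_cancel₀ hpq, one_smul, add_sub_cancel]

private theorem Trv_two {k : Type*} [Field k] {H : Type*} [AddCommGroup H] [Module k H]
    [Module.Finite k H] (B : H →ₗ[k] H →ₗ[k] k) (halt : ∀ x y, B y x = -B x y)
    (h0 : ∀ x, B x x = 0) (hnd : ∀ x, (∀ y, B x y = 0) → x = 0) (P : (H →ₗ[k] H) → Prop)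
    (hmul : ∀ g g', P g → P g' → P (g.comp g')) (htr : ∀ (s : k) (w : H), P (trv B s w))
    (F : Submodule k H) (x y : H) (hx : x ∉ F) (hy : y ∉ F) (hF : ∀ z ∈ F, B z (x - y) = 0) :
    ∃ h h' : H →ₗ[k] H, P h' ∧ (∀ x y, B (h x) (h y) = B x y) ∧ h'.comp h = LinearMap.id ∧
      (∀ z ∈ F, h z = z) ∧ h y = x := by
  by_cases hb : B y x = 0
  · have hrefl : LinearMap.BilinForm.IsRefl B := by
      intro u v huv
      rw [halt u v, huv, neg_zero]
    have hnon : LinearMap.BilinForm.Nondegenerate B := by
      constructor
      · intro u hu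
        exact hnd u hu
      · intro u hu
        refine hnd u fun v => ?_
        rw [halt v u, hu v, neg_zero]
    have hoo := LinearMap.BilinForm.orthogonal_orthogonal hnon hrefl F
    have hex : ∀ u : H, u ∉ F → ((B u).comp (LinearMap.BilinForm.orthogonal B F).subtype).ker ≠ ⊤ := by
      intro u hu htop
      apply hu
      rw [← hoo]
      intro v hv
      have h1 : (⟨v, hv⟩ : LinearMap.BilinForm.orthogonal B F) ∈
          ((B u).comp (LinearMap.BilinForm.orthogonal B F).subtype).ker := by
        rw [htop]
        exact Submodule.mem_top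
      have h2 : B u v = 0 := h1
      change B v u = 0
      rw [halt u v, h2, neg_zero]
    obtain ⟨⟨v, hv⟩, hv1, hv2⟩ := exists_avoid _ _ (hex x hx) (hex y hy)
    have hxv : B x v ≠ 0 := hv1
    have hyv : B y v ≠ 0 := hv2
    have hvF : ∀ z ∈ F, B z v = 0 := fun z hz => hv z hz
    obtain ⟨a, a', ha1, ha2, ha3, ha4, ha5⟩ := Trv_one B halt h0 P htr F y (x + v) (by
      rw [map_add, hb, zero_add]
      exact hyv) (fun z hz => by
      have e : x + v - y = (x - y) + v := by abel
      rw [e, map_add, hF z hz, hvF z hz, add_zero])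
    obtain ⟨b, b', hb1, hb2, hb3, hb4, hb5⟩ := Trv_one B halt h0 P htr F (x + v) x (by
      rw [map_add, LinearMap.add_apply, h0, zero_add, halt x v]
      exact neg_ne_zero.2 hxv) (fun z hz => by
      have e : x - (x + v) = -v := by abel
      rw [e, map_neg, hvF z hz, neg_zero])
    refine ⟨b.comp a, a'.comp b', hmul _ _ ha1 hb1, ?_, ?_, ?_, ?_⟩
    · intro u v
      rw [LinearMap.comp_apply, LinearMap.comp_apply, hb2, ha2]
    · apply LinearMap.ext
      intro u
      have e1 : b' (b (a u)) = a u := LinearMap.congr_fun hb3 (a u)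
      have e2 : a' (a u) = u := LinearMap.congr_fun ha3 u
      change a' (b' (b (a u))) = u
      rw [e1, e2]
    · intro z hz
      rw [LinearMap.comp_apply, ha4 z hz, hb4 z hz]
    · rw [LinearMap.comp_apply, ha5, hb5]
  · exact Trv_one B halt h0 P htr F y x hb hF

theorem trv_gen (halt : ∀ x y, B y x = -B x y) (h0 : ∀ x, B x x = 0)
    (hnd : ∀ x, (∀ y, B x y = 0) → x = 0) (P : (H →ₗ[k] H) → Prop) (h1 : P LinearMap.id)
    (hmul : ∀ g g', P g → P g' → P (g.comp g')) (htr : ∀ (s : k) (w : H), P (trv B s w))
    (g : H →ₗ[k] H) (hg : ∀ x y, B (g x) (g y) = B x y) : P g := by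
  have hinj : ∀ g : H →ₗ[k] H, (∀ x y, B (g x) (g y) = B x y) → ∀ x, g x = 0 → x = 0 := by
    intro g hg x hx
    apply hnd
    intro y
    rw [← hg x y, hx, map_zero, LinearMap.zero_apply]
  have key : ∀ (n : ℕ) (g : H →ₗ[k] H), (∀ x y, B (g x) (g y) = B x y) →
      Module.finrank k H ≤ Module.finrank k (LinearMap.ker (g - LinearMap.id)) + n → P g := by
    intro n
    induction n with
    | zero =>
      intro g hg hn
      have htop : LinearMap.ker (g - LinearMap.id) = ⊤ := by
        apply Submodule.eq_top_of_finrank_eq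
        exact le_antisymm (Submodule.finrank_le _) (by simpa using hn)
      have h2 : g = LinearMap.id := by
        rw [LinearMap.ker_eq_top] at htop
        exact sub_eq_zero.1 htop
      rw [h2]
      exact h1
    | succ n ih =>
      intro g hg hn
      by_cases htop : LinearMap.ker (g - LinearMap.id) = ⊤
      · have h2 : g = LinearMap.id := by
          rw [LinearMap.ker_eq_top] at htop
          exact sub_eq_zero.1 htop
        rw [h2]
        exact h1
      · obtain ⟨x, hx⟩ : ∃ x, x ∉ LinearMap.ker (g - LinearMap.id) := by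
          by_contra h
          push Not at h
          exact htop (Submodule.eq_top_iff'.2 h)
        have hmem : ∀ z, z ∈ LinearMap.ker (g - LinearMap.id) ↔ g z = z := by
          intro z
          rw [LinearMap.mem_ker, LinearMap.sub_apply, LinearMap.id_apply, sub_eq_zero]
        have hgx : g x ∉ LinearMap.ker (g - LinearMap.id) := by
          intro h
          rw [hmem] at h
          apply hx
          rw [hmem]
          have h3 : g (g x - x) = 0 := by
            rw [map_sub, h, sub_self]
          exact sub_eq_zero.1 (hinj g hg _ h3)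
        obtain ⟨a, a', ha1, ha2, ha3, ha4, ha5⟩ := Trv_two B halt h0 hnd P hmul htr
          (LinearMap.ker (g - LinearMap.id)) x (g x) hx hgx (fun z hz => by
          rw [hmem] at hz
          have h3 : B z (g x) = B z x := by
            conv_lhs => rw [← hz]
            exact hg z x
          rw [map_sub, h3, sub_self])
        have hP : P (a.comp g) := by
          apply ih
          · intro u v
            rw [LinearMap.comp_apply, LinearMap.comp_apply, ha2, hg]
          · have hlt : LinearMap.ker (g - LinearMap.id) <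
                LinearMap.ker (a.comp g - LinearMap.id) := by
              refine lt_of_le_of_ne ?_ ?_
              · intro z hz
                have hz' := hz
                rw [hmem] at hz'
                rw [LinearMap.mem_ker, LinearMap.sub_apply, LinearMap.comp_apply, hz', ha4 z hz,
                  LinearMap.id_apply, sub_self]
              · intro h
                apply hx
                rw [h, LinearMap.mem_ker, LinearMap.sub_apply, LinearMap.comp_apply, ha5,
                  LinearMap.id_apply, sub_self]
            have h3 := Submodule.finrank_lt_finrank_of_lt hlt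
            omega
        have hga : g = a'.comp (a.comp g) := by
          rw [← LinearMap.comp_assoc, ha3, LinearMap.id_comp]
        rw [hga]
        exact hmul _ _ ha1 hP
  exact key (Module.finrank k H) g hg (Nat.le_add_left _ _)

private theorem Trv_altA {k : Type*} [Field k] {H : Type*} [AddCommGroup H] [Module k H] {r : ℕ}
    (ω : H [⋀^Fin r]→ₗ[k] k) (v : Fin r → H) (c : Fin r → k) (w : H) (T : Finset (Fin r)) :
    ∀ a, a ∉ T → ω (Function.update (fun u => if u ∈ T then v u + c u • w else v u) a w) =
      ω (Function.update v a w) := by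
  induction T using Finset.induction_on with
  | empty =>
    intro a _
    simp
  | insert b T hb ih =>
    intro a ha
    rw [Finset.mem_insert, not_or] at ha
    obtain ⟨f, hf⟩ : ∃ f : Fin r → H, f = fun u => if u ∈ T then v u + c u • w else v u := ⟨_, rfl⟩
    obtain ⟨g, hg⟩ : ∃ g : Fin r → H, g = Function.update f a w := ⟨_, rfl⟩
    have e1 : Function.update (fun u => if u ∈ insert b T then v u + c u • w else v u) a w =
        Function.update g b (v b + c b • w) := by
      funext u
      by_cases hub : u = b
      · subst hub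
        rw [Function.update_of_ne (Ne.symm ha.1), Function.update_self,
          if_pos (Finset.mem_insert_self _ _)]
      · rw [Function.update_of_ne hub, hg]
        by_cases hua : u = a
        · subst hua
          rw [Function.update_self, Function.update_self]
        · rw [Function.update_of_ne hua, Function.update_of_ne hua, hf]
          simp only [Finset.mem_insert, hub, false_or]
    have e2 : Function.update g b (v b) = g := by
      rw [Function.update_eq_self_iff, hg, Function.update_of_ne (Ne.symm ha.1), hf]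
      simp only [hb, if_false]
    have e3 : ω (Function.update g b w) = 0 := by
      refine ω.map_eq_zero_of_eq _ ?_ ha.1
      rw [Function.update_of_ne ha.1, Function.update_self, hg, Function.update_self]
    rw [e1, ω.map_update_add, ω.map_update_smul, e2, e3, smul_zero, add_zero, hg, hf]
    exact ih a ha.2

private theorem Trv_altB {k : Type*} [Field k] {H : Type*} [AddCommGroup H] [Module k H] {r : ℕ}
    (ω : H [⋀^Fin r]→ₗ[k] k) (v : Fin r → H) (c : Fin r → k) (w : H) (T : Finset (Fin r)) :
    ω (fun u => if u ∈ T then v u + c u • w else v u) =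
      ω v + ∑ u ∈ T, c u * ω (Function.update v u w) := by
  induction T using Finset.induction_on with
  | empty => simp
  | insert a T ha ih =>
    obtain ⟨f, hf⟩ : ∃ f : Fin r → H, f = fun u => if u ∈ T then v u + c u • w else v u := ⟨_, rfl⟩
    have e1 : (fun u => if u ∈ insert a T then v u + c u • w else v u) =
        Function.update f a (v a + c a • w) := by
      funext u
      by_cases hua : u = a
      · subst hua
        rw [Function.update_self, if_pos (Finset.mem_insert_self _ _)]
      · rw [Function.update_of_ne hua, hf]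
        simp only [Finset.mem_insert, hua, false_or]
    have e2 : Function.update f a (v a) = f := by
      rw [Function.update_eq_self_iff, hf]
      simp only [ha, if_false]
    rw [e1, ω.map_update_add, ω.map_update_smul, e2, hf, Trv_altA ω v c w T a ha, ih,
      Finset.sum_insert ha, smul_eq_mul]
    ring

omit [Module.Finite k H] in
theorem alt_trv {r : ℕ} (ω : H [⋀^Fin r]→ₗ[k] k) (s : k) (w : H) (v : Fin r → H) :
    ω.compLinearMap (trv B s w) v =
      ω v + s * ∑ u, ω (Function.update v u (B (v u) w • w)) := by
  have h1 := Trv_altB ω v (fun u => s * B (v u) w) w Finset.univ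
  simp only [Finset.mem_univ, if_true] at h1
  have h2 : ω.compLinearMap (trv B s w) v = ω (fun u => v u + (s * B (v u) w) • w) := by
    change ω (fun u => trv B s w (v u)) = _
    simp only [trv_apply]
  rw [h2, h1, Finset.mul_sum]
  congr 1
  refine Finset.sum_congr rfl fun u _ => ?_
  rw [ω.map_update_smul, smul_eq_mul]
  ring

theorem alt_isom (halt : ∀ x y, B y x = -B x y) (h0 : ∀ x, B x x = 0)
    (hnd : ∀ x, (∀ y, B x y = 0) → x = 0) {r : ℕ} (W : Submodule k (H [⋀^Fin r]→ₗ[k] k))
    (hW : ∀ (w : H), ∀ ω ∈ W, ∃ ω' ∈ W, ∀ v : Fin r → H,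
      ω' v = ∑ u, ω (Function.update v u (B (v u) w • w)))
    (g : H →ₗ[k] H) (hg : ∀ x y, B (g x) (g y) = B x y) : ∀ ω ∈ W, ω.compLinearMap g ∈ W := by
  refine trv_gen B halt h0 hnd (fun g => ∀ ω ∈ W, ω.compLinearMap g ∈ W) ?_ ?_ ?_ g hg
  · intro ω hω
    rw [AlternatingMap.compLinearMap_id]
    exact hω
  · intro g g' h h' ω hω
    have h2 := h' _ (h ω hω)
    rw [AlternatingMap.compLinearMap_assoc] at h2
    exact h2
  · intro s w ω hω
    obtain ⟨ω', hω', h2⟩ := hW w ω hω
    have h3 : ω.compLinearMap (trv B s w) = ω + s • ω' := by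
      ext v
      rw [alt_trv, ← h2]
      rfl
    rw [h3]
    exact W.add_mem hω (W.smul_mem s hω')

end MPadcBN
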