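import Pool.Agent.Lib.MP_adc574_ag_BN.Cmm
import Pool.Agent.Lib.MP_adc574_ag_BN.StbC
import Pool.Agent.Lib.MP_adc574_ag_BN.Lie
import Pool.Agent.Lib.MP_adc574_ag_BN.Trv

/-!
# The stabiliser is the symplectic Lie algebra (helper90)
-/

set_option autoImplicit false

namespace MPadcBN

open MPadcLZ MPadcHM MPadcBM

universe u

variable {κ : Type u} [Field κ] [CharZero κ] {Mo : Type u} [AddCommGroup Mo]
  [Module (RatFunc κ) Mo] [Module (Polynomial κ) Mo] [IsScalarTower (Polynomial κ) (RatFunc κ) Mo]
  {nab : Mo →+ Mo} {n : ℕ}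

/-- The endomorphisms of `L ^ n` whose matrix is in the span of `G`. -/
noncomputable def gL (b : Module.Basis (Fin n) (RatFunc κ) Mo) (τ : κ)
    (G : Submodule (RatFunc κ) (Module.End (RatFunc κ) Mo)) :
    Submodule (FractionRing (PowerSeries κ))
      (Module.End (FractionRing (PowerSeries κ)) (Fin n → FractionRing (PowerSeries κ))) where
  carrier := {X | (fun p : Fin n × Fin n => X (Pi.single p.2 1) p.1) ∈
    spanL (jt τ) (G.map (mt b))}
  zero_mem' := (spanL (jt τ) (G.map (mt b))).zero_mem
  add_mem' := fun hX hY => (spanL (jt τ) (G.map (mt b))).add_mem hX hY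
  smul_mem' := fun c _ hX => (spanL (jt τ) (G.map (mt b))).smul_mem c hX

/-- The endomorphism of `L ^ n` with a given matrix. -/
noncomputable def ofv {L : Type*} [Field L] (v : Fin n × Fin n → L) : Module.End L (Fin n → L) :=
  Matrix.toLin' (Matrix.of fun i k => v (i, k))

theorem ofv_apply {L : Type*} [Field L] (v : Fin n × Fin n → L) (x : Fin n → L) (i : Fin n) :
    ofv v x i = ∑ k, v (i, k) * x k := by
  simp [ofv, Matrix.toLin'_apply, Matrix.mulVec, dotProduct]

theorem ofv_single {L : Type*} [Field L] (v : Fin n × Fin n → L) :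
    (fun p : Fin n × Fin n => ofv v (Pi.single p.2 1) p.1) = v := by
  funext p
  rw [ofv_apply, Finset.sum_eq_single p.2]
  · rw [Pi.single_eq_same, mul_one]
  · intro k _ hk
    rw [Pi.single_eq_of_ne hk, mul_zero]
  · intro h
    exact absurd (Finset.mem_univ _) h

theorem ofv_eq {L : Type*} [Field L] (X : Module.End L (Fin n → L)) :
    ofv (fun p : Fin n × Fin n => X (Pi.single p.2 1) p.1) = X := by
  refine LinearMap.pi_ext' fun k => LinearMap.ext_ring ?_
  funext i
  exact congrFun (ofv_single (fun p : Fin n × Fin n => X (Pi.single p.2 1) p.1)) (i, k)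

/-- Induction on the elements of `gL`. -/
theorem gL_ind {b : Module.Basis (Fin n) (RatFunc κ) Mo} {τ : κ}
    {G : Submodule (RatFunc κ) (Module.End (RatFunc κ) Mo)}
    (T : Submodule (FractionRing (PowerSeries κ))
      (Module.End (FractionRing (PowerSeries κ)) (Fin n → FractionRing (PowerSeries κ))))
    (h : ∀ X ∈ G, ofv (fun p => jt τ (mt b X p)) ∈ T) : gL b τ G ≤ T := by
  intro X hX
  have h1 : ∀ v ∈ spanL (jt τ) (G.map (mt b)), ofv v ∈ T := by
    intro v hv
    unfold spanL at hv
    induction hv using Submodule.span_induction with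
    | mem v hv =>
      obtain ⟨x, ⟨X, hX, rfl⟩, rfl⟩ := hv
      exact h X hX
    | zero =>
      have h2 : ofv (0 : Fin n × Fin n → FractionRing (PowerSeries κ)) = 0 := by
        refine LinearMap.ext fun x => funext fun i => ?_
        rw [ofv_apply]
        simp
      rw [h2]
      exact T.zero_mem
    | add v w _ _ hv hw =>
      have h2 : ofv (v + w) = ofv v + ofv w := by
        refine LinearMap.ext fun x => funext fun i => ?_
        rw [ofv_apply, LinearMap.add_apply, Pi.add_apply, ofv_apply, ofv_apply,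
          ← Finset.sum_add_distrib]
        exact Finset.sum_congr rfl fun k _ => by rw [Pi.add_apply, add_mul]
      rw [h2]
      exact T.add_mem hv hw
    | smul c v _ hv =>
      have h2 : ofv (c • v) = c • ofv v := by
        refine LinearMap.ext fun x => funext fun i => ?_
        rw [ofv_apply, LinearMap.smul_apply, Pi.smul_apply, ofv_apply, smul_eq_mul, Finset.mul_sum]
        exact Finset.sum_congr rfl fun k _ => by rw [Pi.smul_apply, smul_eq_mul, mul_assoc]
      rw [h2]
      exact T.smul_mem c hv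
  have h2 := h1 _ hX
  rwa [ofv_eq] at h2

theorem ofv_mem_gL {b : Module.Basis (Fin n) (RatFunc κ) Mo} {τ : κ}
    {G : Submodule (RatFunc κ) (Module.End (RatFunc κ) Mo)}
    {v : Fin n × Fin n → FractionRing (PowerSeries κ)} :
    ofv v ∈ gL b τ G ↔ v ∈ spanL (jt τ) (G.map (mt b)) := by
  change (fun p : Fin n × Fin n => ofv v (Pi.single p.2 1) p.1) ∈
    spanL (jt τ) (G.map (mt b)) ↔ _
  rw [ofv_single]

theorem ofv_mul {L : Type*} [Field L] (v w : Fin n × Fin n → L) :
    ofv v * ofv w = ofv (fun p => ∑ m, v (p.1, m) * w (m, p.2)) := by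
  refine LinearMap.ext fun x => funext fun i => ?_
  change ofv v (ofv w x) i = _
  rw [ofv_apply, ofv_apply]
  have h1 : ∀ k, v (i, k) * ofv w x k = ∑ m, v (i, k) * w (k, m) * x m := fun k => by
    rw [ofv_apply, Finset.mul_sum]
    exact Finset.sum_congr rfl fun m _ => by ring
  rw [Finset.sum_congr rfl fun k _ => h1 k, Finset.sum_comm]
  refine Finset.sum_congr rfl fun m _ => ?_
  rw [Finset.sum_mul]

/-- The action of `ofv` of the matrix of `X`. -/
theorem ofv_mt (b : Module.Basis (Fin n) (RatFunc κ) Mo) (τ : κ)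
    (X Y : Module.End (RatFunc κ) Mo) :
    ofv (fun p => jt τ (mt b X p)) * ofv (fun p => jt τ (mt b Y p)) =
      ofv (fun p => jt τ (mt b (X * Y) p)) := by
  rw [ofv_mul]
  refine congrArg ofv (funext fun p => ?_)
  obtain ⟨i, k⟩ := p
  change ∑ m, jt τ (mt b X (i, m)) * jt τ (mt b Y (m, k)) = jt τ (mt b (X * Y) (i, k))
  rw [mt_mul, map_sum]
  exact Finset.sum_congr rfl fun m _ => (map_mul _ _ _).symm

theorem ofv_sub {L : Type*} [Field L] (v w : Fin n × Fin n → L) :
    ofv v - ofv w = ofv (v - w) := by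
  refine LinearMap.ext fun x => funext fun i => ?_
  rw [ofv_apply, LinearMap.sub_apply, Pi.sub_apply, ofv_apply, ofv_apply,
    ← Finset.sum_sub_distrib]
  exact Finset.sum_congr rfl fun k _ => by rw [Pi.sub_apply, sub_mul]

private theorem sp_smul1 {L V : Type*} [Field L] [AddCommGroup V] [Module L V] (c : L)
    (A Y : Module.End L V) : A * (c • Y) - (c • Y) * A = c • (A * Y - Y * A) := by
  refine LinearMap.ext fun x => ?_
  change A (c • Y x) - c • Y (A x) = c • (A (Y x) - Y (A x))
  rw [map_smul, smul_sub]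

private theorem sp_smul2 {L V : Type*} [Field L] [AddCommGroup V] [Module L V] (c : L)
    (A Y : Module.End L V) : (c • A) * Y - Y * (c • A) = c • (A * Y - Y * A) := by
  refine LinearMap.ext fun x => ?_
  change c • A (Y x) - Y (c • A x) = c • (A (Y x) - Y (A x))
  rw [map_smul, smul_sub]

theorem gL_lie {b : Module.Basis (Fin n) (RatFunc κ) Mo} {τ : κ}
    {G : Submodule (RatFunc κ) (Module.End (RatFunc κ) Mo)}
    (hG : ∀ X ∈ G, ∀ Y ∈ G, X * Y - Y * X ∈ G) :
    ∀ X ∈ gL b τ G, ∀ Y ∈ gL b τ G, X * Y - Y * X ∈ gL b τ G := by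
  -- two inductions
  have h1 : ∀ X ∈ G, ∀ Y ∈ gL b τ G,
      ofv (fun p => jt τ (mt b X p)) * Y - Y * ofv (fun p => jt τ (mt b X p)) ∈ gL b τ G := by
    intro X hX
    let T : Submodule (FractionRing (PowerSeries κ))
        (Module.End (FractionRing (PowerSeries κ)) (Fin n → FractionRing (PowerSeries κ))) :=
      { carrier := {Y | ofv (fun p => jt τ (mt b X p)) * Y -
          Y * ofv (fun p => jt τ (mt b X p)) ∈ gL b τ G}
        zero_mem' := by
          change _ * 0 - 0 * _ ∈ gL b τ G
          rw [mul_zero, zero_mul, sub_zero]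
          exact (gL b τ G).zero_mem
        add_mem' := by
          intro Y Z hY hZ
          change _ * (Y + Z) - (Y + Z) * _ ∈ gL b τ G
          rw [mul_add, add_mul, add_sub_add_comm]
          exact (gL b τ G).add_mem hY hZ
        smul_mem' := by
          intro c Y hY
          have h3 : ofv (fun p => jt τ (mt b X p)) * (c • Y) -
              (c • Y) * ofv (fun p => jt τ (mt b X p)) =
              c • (ofv (fun p => jt τ (mt b X p)) * Y - Y * ofv (fun p => jt τ (mt b X p))) :=
            sp_smul1 c _ _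
          change _ * (c • Y) - (c • Y) * _ ∈ gL b τ G
          rw [h3]
          exact (gL b τ G).smul_mem c hY }
    refine gL_ind T fun Y hY => ?_
    change _ * _ - _ * _ ∈ gL b τ G
    rw [ofv_mt, ofv_mt, ofv_sub, ofv_mem_gL]
    have h2 : ((fun p => jt τ (mt b (X * Y) p)) - fun p => jt τ (mt b (Y * X) p)) =
        fun p => jt τ (mt b (X * Y - Y * X) p) := by
      funext p
      rw [Pi.sub_apply, map_sub (mt b), Pi.sub_apply, map_sub]
    rw [h2]
    exact Submodule.subset_span ⟨_, ⟨_, hG X hX Y hY, rfl⟩, rfl⟩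
  intro X hX Y hY
  let T : Submodule (FractionRing (PowerSeries κ))
      (Module.End (FractionRing (PowerSeries κ)) (Fin n → FractionRing (PowerSeries κ))) :=
    { carrier := {X | X * Y - Y * X ∈ gL b τ G}
      zero_mem' := by
        change 0 * Y - Y * 0 ∈ gL b τ G
        rw [mul_zero, zero_mul, sub_zero]
        exact (gL b τ G).zero_mem
      add_mem' := by
        intro X Z hX hZ
        change (X + Z) * Y - Y * (X + Z) ∈ gL b τ G
        rw [mul_add, add_mul, add_sub_add_comm]
        exact (gL b τ G).add_mem hX hZ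
      smul_mem' := by
        intro c X hX
        change (c • X) * Y - Y * (c • X) ∈ gL b τ G
        rw [sp_smul2 c X Y]
        exact (gL b τ G).smul_mem c hX }
  exact gL_ind T (fun X hX => h1 X hX Y hY) hX

/-- The bilinear form over `L` with a given Gram matrix. -/
noncomputable def bilL {L : Type*} [Field L] (M : Matrix (Fin n) (Fin n) L) :
    (Fin n → L) →ₗ[L] (Fin n → L) →ₗ[L] L := Matrix.toLinearMap₂' L M

theorem bilL_apply {L : Type*} [Field L] (M : Matrix (Fin n) (Fin n) L) (x y : Fin n → L) :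
    bilL M x y = ∑ i, ∑ k, x i * M i k * y k := by
  unfold bilL
  rw [Matrix.toLinearMap₂'_apply]
  refine Finset.sum_congr rfl fun i _ => Finset.sum_congr rfl fun k _ => ?_
  simp only [smul_eq_mul]
  ring

end MPadcBN
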