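import Pool.Agent.Lib.MP_adc574_ag_BN.StbA
import Pool.Agent.Lib.MP_adc574_ag_BN.Rat
import Pool.Agent.Lib.MP_adc574_ag_BN.LocL
import Pool.Agent.Lib.MP_adc574_ag_LZ.LoE2
import Pool.Agent.Lib.MP_adc574_ag_LZ.LoC

/-!
# JOB StbB: at a node the residue acts on horizontal spaces of forms

`L = FractionRing κ⟦X⟧`, `jL = algebraMap κ⟦X⟧ L`, `DX` from `exists_DX` (LoD), `δ = jL X * DX`. `N i k = S.a i * S.l k` (over `κ⟦X⟧`).
* `node_act` : `Z = spanL (jt τ) (W.map (arr b))` is stable under `actM r (N over L)`. Use `locL` with `s = Fin r → Fin h`, `Γ' = - actM r S.Γ`, `N' = - actM r N`. `h0`: `S.res`, `ha0`, `hl0` (`actM_map` for `constantCoeff`). `hN`: on `Fin h`: `X (a_i l_k)' = - (Γ N) i k + (N Γ) i k` (`S.ha`, `S.hl`, `α = 0`), i.e. `X N' = N Γ - Γ N`; `actM_addHom` for `X * derivative`, then `actM_comm`: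
  `X * derivative (- actM N) = - actM (N Γ - Γ N) = - (actM Γ * actM N - actM N * actM Γ)` which is `N' Γ' - Γ' N'`. `hZ`: by linearity (`δ (c z) = δ c z + c δ z`) it is enough to take `z = jt τ ∘ arr b ω`, `ω ∈ W`: with `ω'` from `hW`: `arr_cov`: `arr b ω' = D (arr b ω) - actM ΓK (arr b ω)`; multiply by `t - τ`: `jt τ (t - τ) = jL X` (`jt_poly`, `pl_X_sub`), `jt_DK`, `hΓ`
  (`actM_map`): `δ (jt z) - actM S.Γ (jt z) = jt ∘ ((t - τ) • arr b ω') ∈ Z`. `h2`: `actM_sq` over `L` (`hla`, `α = 0`; all elements of `Z` are `AltA`: `arr_alt`, sums and multiples), `actM (-)`: `actM_smul`.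
-/

set_option autoImplicit false

namespace MPadcBN

open MPadcLZ MPadcHM

universe u

variable {κ : Type u} [Field κ] [CharZero κ] {Mo : Type u} [AddCommGroup Mo]
  [Module (RatFunc κ) Mo] [Module (Polynomial κ) Mo] [IsScalarTower (Polynomial κ) (RatFunc κ) Mo]
  {nab : Mo →+ Mo} {h r : ℕ}

omit [CharZero κ] [Module (Polynomial κ) Mo] [IsScalarTower (Polynomial κ) (RatFunc κ) Mo] in
private theorem stbb_alt (b : Module.Basis (Fin h) (RatFunc κ) Mo) (τ : κ)
    (W : Submodule (RatFunc κ) (Mo [⋀^Fin r]→ₗ[RatFunc κ] RatFunc κ))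
    (z : (Fin r → Fin h) → FractionRing (PowerSeries κ))
    (hz : z ∈ spanL (jt τ) (W.map (arr b))) : AltA z := by
  unfold spanL at hz
  induction hz using Submodule.span_induction with
  | mem x hx =>
    obtain ⟨y, hy, rfl⟩ := hx
    obtain ⟨ω, -, rfl⟩ := hy
    intro I u v huv
    show jt τ (arr b ω (I ∘ Equiv.swap u v)) = -jt τ (arr b ω I)
    rw [arr_alt b ω I u v huv, map_neg]
  | zero => intro I u v _; simp
  | add x y _ _ hx hy =>
    intro I u v huv
    rw [Pi.add_apply, Pi.add_apply, hx I u v huv, hy I u v huv]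
    ring
  | smul c x _ hx =>
    intro I u v huv
    rw [Pi.smul_apply, Pi.smul_apply, hx I u v huv, smul_neg]

omit [CharZero κ] [Module (Polynomial κ) Mo] [IsScalarTower (Polynomial κ) (RatFunc κ) Mo] in
private theorem stbb_gen (b : Module.Basis (Fin h) (RatFunc κ) Mo) (τ : κ)
    (Γ : Matrix (Fin h) (Fin h) (PowerSeries κ))
    {DX : FractionRing (PowerSeries κ) →+ FractionRing (PowerSeries κ)} (hDX : IsDL κ DX)
    (hΓ : ∀ i k, algebraMap (PowerSeries κ) (FractionRing (PowerSeries κ)) PowerSeries.X *
        jt τ (b.repr (nab (b k)) i) =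
          algebraMap (PowerSeries κ) (FractionRing (PowerSeries κ)) (Γ i k))
    (ω ω' : Mo [⋀^Fin r]→ₗ[RatFunc κ] RatFunc κ)
    (hω : ∀ v : Fin r → Mo,
      ω' v = DK κ (ω v) - ∑ u, ω (Function.update v u (nab (v u)))) (I : Fin r → Fin h) :
    algebraMap (PowerSeries κ) (FractionRing (PowerSeries κ)) PowerSeries.X *
        DX (jt τ (arr b ω I)) +
      ∑ J, algebraMap (PowerSeries κ) (FractionRing (PowerSeries κ)) ((-(actM r Γ)) I J) *
        jt τ (arr b ω J) =
    algebraMap (PowerSeries κ) (FractionRing (PowerSeries κ)) PowerSeries.X *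
      jt τ (arr b ω' I) := by
  have h1 := arr_cov b (fun c => DK κ c) nab ω ω' hω I
  have h2 : ∀ J, algebraMap (PowerSeries κ) (FractionRing (PowerSeries κ)) (actM r Γ I J) =
      algebraMap (PowerSeries κ) (FractionRing (PowerSeries κ)) PowerSeries.X *
        jt τ (actM r (Matrix.of fun i k => b.repr (nab (b k)) i) I J) := by
    intro J
    have e1 := congrFun (congrFun (actM_map (r := r)
      (algebraMap (PowerSeries κ) (FractionRing (PowerSeries κ))) Γ) I) J
    have e2 := congrFun (congrFun (actM_map (r := r) (jt τ)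
      (Matrix.of fun i k => b.repr (nab (b k)) i)) I) J
    rw [Matrix.map_apply] at e1 e2
    rw [e1, e2]
    have e3 : Γ.map (algebraMap (PowerSeries κ) (FractionRing (PowerSeries κ))) =
        algebraMap (PowerSeries κ) (FractionRing (PowerSeries κ)) PowerSeries.X •
          (Matrix.of fun i k => b.repr (nab (b k)) i).map (jt τ) := by
      ext i k
      rw [Matrix.map_apply, Matrix.smul_apply, Matrix.map_apply, Matrix.of_apply, smul_eq_mul, hΓ]
    rw [e3, actM_smul, Matrix.smul_apply, smul_eq_mul]
  have h3 : ∀ J, algebraMap (PowerSeries κ) (FractionRing (PowerSeries κ)) ((-(actM r Γ)) I J) *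
        jt τ (arr b ω J) =
      -(algebraMap (PowerSeries κ) (FractionRing (PowerSeries κ)) PowerSeries.X *
        jt τ (actM r (Matrix.of fun i k => b.repr (nab (b k)) i) I J * arr b ω J)) := by
    intro J
    rw [Matrix.neg_apply, map_neg, h2, map_mul]
    ring
  rw [Finset.sum_congr rfl fun J _ => h3 J, Finset.sum_neg_distrib, ← Finset.mul_sum, ← map_sum,
    jt_DK hDX, h1, map_sub]
  simp only [Matrix.mulVec, dotProduct]
  ring

omit [CharZero κ] [Module (Polynomial κ) Mo] [IsScalarTower (Polynomial κ) (RatFunc κ) Mo] in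
private theorem stbb_T (b : Module.Basis (Fin h) (RatFunc κ) Mo) (τ : κ)
    (Γ : Matrix (Fin h) (Fin h) (PowerSeries κ))
    {DX : FractionRing (PowerSeries κ) →+ FractionRing (PowerSeries κ)} (hDX : IsDL κ DX)
    (hΓ : ∀ i k, algebraMap (PowerSeries κ) (FractionRing (PowerSeries κ)) PowerSeries.X *
        jt τ (b.repr (nab (b k)) i) =
          algebraMap (PowerSeries κ) (FractionRing (PowerSeries κ)) (Γ i k))
    (W : Submodule (RatFunc κ) (Mo [⋀^Fin r]→ₗ[RatFunc κ] RatFunc κ))
    (hW : ∀ ω ∈ W, ∃ ω' ∈ W, ∀ v : Fin r → Mo,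
      ω' v = DK κ (ω v) - ∑ u, ω (Function.update v u (nab (v u))))
    (z : (Fin r → Fin h) → FractionRing (PowerSeries κ))
    (hz : z ∈ spanL (jt τ) (W.map (arr b))) :
    (fun I => algebraMap (PowerSeries κ) (FractionRing (PowerSeries κ)) PowerSeries.X * DX (z I) +
      ∑ J, algebraMap (PowerSeries κ) (FractionRing (PowerSeries κ)) ((-(actM r Γ)) I J) * z J) ∈
      spanL (jt τ) (W.map (arr b)) := by
  unfold spanL at hz
  induction hz using Submodule.span_induction with
  | mem x hx =>
    obtain ⟨y, hy, rfl⟩ := hx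
    obtain ⟨ω, hω, rfl⟩ := hy
    obtain ⟨ω', hω', hv⟩ := hW ω hω
    have h1 : (fun I => algebraMap (PowerSeries κ) (FractionRing (PowerSeries κ)) PowerSeries.X *
        DX (jt τ (arr b ω I)) +
      ∑ J, algebraMap (PowerSeries κ) (FractionRing (PowerSeries κ)) ((-(actM r Γ)) I J) *
        jt τ (arr b ω J)) =
        algebraMap (PowerSeries κ) (FractionRing (PowerSeries κ)) PowerSeries.X •
          fun I => jt τ (arr b ω' I) := by
      funext I
      rw [Pi.smul_apply, smul_eq_mul]
      exact stbb_gen b τ Γ hDX hΓ ω ω' hv I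
    show (fun I => algebraMap (PowerSeries κ) (FractionRing (PowerSeries κ)) PowerSeries.X *
        DX (jt τ (arr b ω I)) +
      ∑ J, algebraMap (PowerSeries κ) (FractionRing (PowerSeries κ)) ((-(actM r Γ)) I J) *
        jt τ (arr b ω J)) ∈ _
    rw [h1]
    exact Submodule.smul_mem _ _ (Submodule.subset_span
      ⟨arr b ω', Submodule.mem_map_of_mem hω', rfl⟩)
  | zero =>
    have h1 : (fun I => algebraMap (PowerSeries κ) (FractionRing (PowerSeries κ)) PowerSeries.X *
        DX ((0 : (Fin r → Fin h) → FractionRing (PowerSeries κ)) I) +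
      ∑ J, algebraMap (PowerSeries κ) (FractionRing (PowerSeries κ)) ((-(actM r Γ)) I J) *
        (0 : (Fin r → Fin h) → FractionRing (PowerSeries κ)) J) = 0 := by
      funext I
      simp
    rw [h1]
    exact Submodule.zero_mem _
  | add x y _ _ hx hy =>
    have h1 := Submodule.add_mem _ hx hy
    refine (congrArg (· ∈ spanL (jt τ) (W.map (arr b))) ?_).mp h1
    funext I
    simp only [Pi.add_apply, map_add, mul_add, Finset.sum_add_distrib]
    ring
  | smul c x hx0 hx =>
    have h1 := Submodule.add_mem _ (Submodule.smul_mem _ c hx)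
      (Submodule.smul_mem _ (algebraMap (PowerSeries κ) (FractionRing (PowerSeries κ))
        PowerSeries.X * DX c) (show x ∈ spanL (jt τ) (W.map (arr b)) from hx0))
    refine (congrArg (· ∈ spanL (jt τ) (W.map (arr b))) ?_).mp h1
    funext I
    simp only [Pi.add_apply, Pi.smul_apply, smul_eq_mul, hDX.leib]
    have h2 : ∑ J, algebraMap (PowerSeries κ) (FractionRing (PowerSeries κ))
        ((-(actM r Γ)) I J) * (c * x J) =
        c * ∑ J, algebraMap (PowerSeries κ) (FractionRing (PowerSeries κ))
          ((-(actM r Γ)) I J) * x J := by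
      rw [Finset.mul_sum]
      exact Finset.sum_congr rfl fun J _ => by ring
    rw [h2]
    ring

omit [CharZero κ] in
private theorem stbb_map (a l : Fin h → PowerSeries κ) :
    (-(actM r (Matrix.of fun i k => a i * l k))).map
        (algebraMap (PowerSeries κ) (FractionRing (PowerSeries κ))) =
      -(actM r (Matrix.of fun i k =>
        algebraMap (PowerSeries κ) (FractionRing (PowerSeries κ)) (a i * l k))) := by
  have h1 := actM_map (r := r) (algebraMap (PowerSeries κ) (FractionRing (PowerSeries κ)))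
    (Matrix.of fun i k => a i * l k)
  ext I J
  have h2 := congrFun (congrFun h1 I) J
  rw [Matrix.map_apply] at h2
  rw [Matrix.map_apply, Matrix.neg_apply, Matrix.neg_apply, map_neg, h2]
  rfl

theorem node_act (leib : ∀ (c : RatFunc κ) (x : Mo), nab (c • x) = DK κ c • x + c • nab x)
    (b : Module.Basis (Fin h) (RatFunc κ) Mo) (τ : κ) (S : Lc (Fin h) κ) (hS : S.Ok)
    (hα : S.α = 0)
    (hΓ : ∀ i k, algebraMap (PowerSeries κ) (FractionRing (PowerSeries κ)) PowerSeries.X *
        jt τ (b.repr (nab (b k)) i) =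
          algebraMap (PowerSeries κ) (FractionRing (PowerSeries κ)) (S.Γ i k))
    (W : Submodule (RatFunc κ) (Mo [⋀^Fin r]→ₗ[RatFunc κ] RatFunc κ))
    (hW : ∀ ω ∈ W, ∃ ω' ∈ W, ∀ v : Fin r → Mo,
      ω' v = DK κ (ω v) - ∑ u, ω (Function.update v u (nab (v u)))) :
    ∀ z ∈ spanL (jt τ) (W.map (arr b)),
      (actM r (Matrix.of fun i k => algebraMap (PowerSeries κ) (FractionRing (PowerSeries κ))
        (S.a i * S.l k))).mulVec z ∈ spanL (jt τ) (W.map (arr b)) := by
  obtain ⟨DX, hDX⟩ := exists_DX κ
  have hinj : Function.Injective (algebraMap (PowerSeries κ) (FractionRing (PowerSeries κ))) :=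
    IsFractionRing.injective _ _
  have : CharZero (FractionRing (PowerSeries κ)) := by
    have : CharZero (PowerSeries κ) :=
      charZero_of_injective_algebraMap (R := κ) (PowerSeries.C_injective (R := κ))
    exact charZero_of_injective_algebraMap hinj
  have hC0 : (PowerSeries.C : κ →+* PowerSeries κ) S.α = 0 := by rw [hα, map_zero]
  have key := locL hDX (-(actM r S.Γ)) (-(actM r (Matrix.of fun i k => S.a i * S.l k)))
    (by
      intro I J
      have e1 := congrFun (congrFun (actM_map (r := r)
        (PowerSeries.constantCoeff (R := κ)) S.Γ) I) J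
      have e2 := congrFun (congrFun (actM_map (r := r)
        (PowerSeries.constantCoeff (R := κ)) (Matrix.of fun i k => S.a i * S.l k)) I) J
      rw [Matrix.map_apply] at e1 e2
      have e3 : S.Γ.map (PowerSeries.constantCoeff (R := κ)) =
          (Matrix.of fun i k => S.a i * S.l k).map (PowerSeries.constantCoeff (R := κ)) := by
        ext1 i k
        rw [Matrix.map_apply, Matrix.map_apply, Matrix.of_apply, map_mul, hS.res, hS.ha0, hS.hl0]
      rw [Matrix.neg_apply, Matrix.neg_apply, map_neg, map_neg, e1, e2, e3])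
    (by
      intro I J
      have e1 := actM_addHom (r := r) ((AddMonoidHom.mulLeft (PowerSeries.X : PowerSeries κ)).comp
        (PowerSeries.derivative κ).toLinearMap.toAddMonoidHom)
        (Matrix.of fun i k => S.a i * S.l k) I J
      have e2 : (Matrix.of fun i k => ((AddMonoidHom.mulLeft (PowerSeries.X : PowerSeries κ)).comp
          (PowerSeries.derivative κ).toLinearMap.toAddMonoidHom)
            ((Matrix.of fun i k => S.a i * S.l k) i k)) =
          (-1 : PowerSeries κ) • (S.Γ * (Matrix.of fun i k => S.a i * S.l k) -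
            (Matrix.of fun i k => S.a i * S.l k) * S.Γ) := by
        ext1 i k
        show PowerSeries.X * PowerSeries.derivative κ (S.a i * S.l k) =
          (-1 : PowerSeries κ) * ((S.Γ * (Matrix.of fun i k => S.a i * S.l k)) i k -
            ((Matrix.of fun i k => S.a i * S.l k) * S.Γ) i k)
        rw [Derivation.leibniz, smul_eq_mul, smul_eq_mul, Matrix.mul_apply, Matrix.mul_apply]
        have e3 : ∑ j, S.Γ i j * (Matrix.of fun i k => S.a i * S.l k) j k =
            (∑ j, S.Γ i j * S.a j) * S.l k := by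
          rw [Finset.sum_mul]
          exact Finset.sum_congr rfl fun j _ => by rw [Matrix.of_apply]; ring
        have e4 : ∑ j, (Matrix.of fun i k => S.a i * S.l k) i j * S.Γ j k =
            S.a i * ∑ j, S.Γ j k * S.l j := by
          rw [Finset.mul_sum]
          exact Finset.sum_congr rfl fun j _ => by rw [Matrix.of_apply]; ring
        rw [e3, e4]
        have e5 := hS.ha i
        have e6 := hS.hl k
        rw [hC0, zero_mul] at e5 e6
        linear_combination S.l k * e5 + S.a i * e6
      have e3 : PowerSeries.X * PowerSeries.derivative κ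
          (actM r (Matrix.of fun i k => S.a i * S.l k) I J) =
          -(actM r (S.Γ * (Matrix.of fun i k => S.a i * S.l k) -
            (Matrix.of fun i k => S.a i * S.l k) * S.Γ) I J) := by
        refine e1.trans ?_
        rw [e2, actM_smul, Matrix.smul_apply, smul_eq_mul]
        ring
      have e4 := congrFun (congrFun (actM_comm (r := r)
        (Matrix.of fun i k => S.a i * S.l k) S.Γ) I) J
      rw [Matrix.sub_apply, Matrix.mul_apply, Matrix.mul_apply] at e4
      rw [Matrix.neg_apply, map_neg, mul_neg, e3, neg_neg, ← e4]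
      simp only [Matrix.neg_apply, neg_mul_neg])
    (spanL (jt τ) (W.map (arr b)))
    (fun z hz => stbb_T b τ S.Γ hDX hΓ W hW z hz)
    (by
      intro z hz
      have e1 := actM_sq (R := FractionRing (PowerSeries κ)) (r := r)
        (fun i => algebraMap (PowerSeries κ) (FractionRing (PowerSeries κ)) (S.a i))
        (fun i => algebraMap (PowerSeries κ) (FractionRing (PowerSeries κ)) (S.l i))
        (by
          have e2 := congrArg (algebraMap (PowerSeries κ) (FractionRing (PowerSeries κ))) hS.hla
          rw [hC0, map_zero, map_sum] at e2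
          simpa only [map_mul] using e2) z (stbb_alt b τ W z hz)
      rw [stbb_map, Matrix.neg_mulVec, Matrix.neg_mulVec, Matrix.mulVec_neg, neg_neg]
      simpa only [map_mul] using e1)
  intro z hz
  have h1 := Submodule.neg_mem _ (key z hz)
  rw [stbb_map, Matrix.neg_mulVec, neg_neg] at h1
  exact h1

end MPadcBN
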